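import Mathlib
import Pool.Agent.Helper61.FR.Defs

/-!
# KW-F1: small exponential sums give few visits to a small union of arcs

Proof.  Let `A` be the closed set `{z | ∃ c ∈ C, dist z (c / 2 ^ r) ≤ (7 / 4) / 2 ^ r}` of the circle
`AddCircle (1 : ℝ)` and `f z = max 0 (1 - 4 * 2 ^ r * infDist z A)`: continuous, `0 ≤ f ≤ 1`, `f = 1` on
`A`, `f = 0` at distance `≥ 2 / 2 ^ r` from all the points `c / 2 ^ r` (if `C` is empty there is
nothing to prove).  So `∫ f ≤ 4 |C| / 2 ^ r ≤ 1 / 7` for Lebesgue (Haar) measure.  By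
`span_fourier_closure_eq_top` there is `P = ∑ c_m fourier m` with `‖f - P‖ ≤ 1 / 64` everywhere; so
`c_0 = ∫ P` has `|c_0 - ∫ f| ≤ 1 / 64`.  Let `S` be the set of `|m|`, `m ≠ 0`, occurring in `P` and
`η (1 + ∑ |c_m|) = 1 / 64`.  If `‖∑_{k < N} e (m y_k)‖ ≤ η N` for `m ∈ S` then
`#{k | y_k ∈ A} ≤ ∑_k f (y_k) ≤ N / 64 + |∑_k P (y_k)| ≤ N (1 / 64 + 1 / 7 + 1 / 64 + 1 / 64) ≤ N / 4`.
See `Pool.Agent.Helper61.FR.typical` (`Helper61/FR/St/P6.lean`) for a similar argument in Lean.
-/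

set_option autoImplicit false

open MeasureTheory Finset

namespace Pool.Agent.Helper17.KW

open Pool.Agent.Helper61.FR in
lemma F1_e_neg (y : ℝ) : e (-y) = (starRingEnd ℂ) (e y) := by
  unfold e
  rw [← Complex.exp_conj]
  congr 1
  simp only [map_mul, Complex.conj_ofReal, Complex.conj_I, map_ofNat]
  push_cast
  ring

open Pool.Agent.Helper61.FR in
lemma F1_fourier_eq (m : ℤ) (y : ℝ) :
    fourier m (y : AddCircle (1 : ℝ)) = e ((m : ℝ) * y) := by
  rw [fourier_coe_apply]
  unfold e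
  congr 1
  push_cast
  ring

/-- the closed arcs -/
def F1_arcs (r : ℕ) (C : Finset ℤ) : Set (AddCircle (1 : ℝ)) :=
  {z | ∃ c ∈ C, ∃ w : ℝ, |w - (c : ℝ) / 2 ^ r| ≤ 7 / 4 / 2 ^ r ∧ (w : AddCircle (1 : ℝ)) = z}

/-- the bump function -/
noncomputable def F1_bump (r : ℕ) (C : Finset ℤ) (z : AddCircle (1 : ℝ)) : ℝ :=
  max 0 (1 - 4 * 2 ^ r * Metric.infDist z (F1_arcs r C))

lemma F1_continuous_bump (r : ℕ) (C : Finset ℤ) : Continuous (F1_bump r C) := by
  unfold F1_bump
  exact continuous_const.max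
    (continuous_const.sub (continuous_const.mul (Metric.continuous_infDist_pt _)))

lemma F1_bump_nonneg (r : ℕ) (C : Finset ℤ) (z : AddCircle (1 : ℝ)) : 0 ≤ F1_bump r C z :=
  le_max_left _ _

lemma F1_bump_le_one (r : ℕ) (C : Finset ℤ) (z : AddCircle (1 : ℝ)) : F1_bump r C z ≤ 1 := by
  unfold F1_bump
  refine max_le zero_le_one ?_
  have h1 : 0 ≤ Metric.infDist z (F1_arcs r C) := Metric.infDist_nonneg
  have h2 : (0 : ℝ) < 4 * 2 ^ r := by positivity
  nlinarith

lemma F1_bump_eq_one (r : ℕ) (C : Finset ℤ) (z : AddCircle (1 : ℝ)) (hz : z ∈ F1_arcs r C) :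
    F1_bump r C z = 1 := by
  unfold F1_bump
  rw [Metric.infDist_zero_of_mem hz]
  simp

lemma F1_dist_le (a b : ℝ) : dist (a : AddCircle (1 : ℝ)) (b : AddCircle (1 : ℝ)) ≤ |a - b| := by
  rw [dist_eq_norm, ← AddCircle.coe_sub, UnitAddCircle.norm_eq]
  have := round_le (a - b) 0
  simpa using this

lemma F1_mem_ball (r : ℕ) (C : Finset ℤ) (hne : (F1_arcs r C).Nonempty) (z : AddCircle (1 : ℝ))
    (hz : F1_bump r C z ≠ 0) :
    ∃ c ∈ C, z ∈ Metric.closedBall (((c : ℝ) / 2 ^ r : ℝ) : AddCircle (1 : ℝ)) (2 / 2 ^ r) := by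
  have hpos : (0 : ℝ) < 2 ^ r := by positivity
  have h1 : Metric.infDist z (F1_arcs r C) < 1 / 4 / 2 ^ r := by
    by_contra hcon
    push Not at hcon
    apply hz
    unfold F1_bump
    apply max_eq_left
    have : 1 ≤ 4 * 2 ^ r * Metric.infDist z (F1_arcs r C) := by
      have h3 : 4 * 2 ^ r * (1 / 4 / 2 ^ r : ℝ) = 1 := by field_simp
      calc (1 : ℝ) = 4 * 2 ^ r * (1 / 4 / 2 ^ r : ℝ) := h3.symm
        _ ≤ _ := by gcongr
    linarith
  obtain ⟨a, ⟨c, hc, w, hw, rfl⟩, hd⟩ := (Metric.infDist_lt_iff hne).1 h1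
  refine ⟨c, hc, ?_⟩
  rw [Metric.mem_closedBall]
  refine (dist_triangle _ (w : AddCircle (1 : ℝ)) _).trans ?_
  have h2 := (F1_dist_le w ((c : ℝ) / 2 ^ r)).trans hw
  have h3 : (2 : ℝ) / 2 ^ r = 1 / 4 / 2 ^ r + 7 / 4 / 2 ^ r := by ring
  linarith

lemma F1_integral_le (r : ℕ) (C : Finset ℤ) (hne : (F1_arcs r C).Nonempty) :
    ∫ z : AddCircle (1 : ℝ), F1_bump r C z ≤ 4 * C.card / 2 ^ r := by
  have hprob : IsProbabilityMeasure (volume : Measure (AddCircle (1 : ℝ))) :=
    ⟨by simp⟩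
  have hpos : (0 : ℝ) < 2 ^ r := by positivity
  set B : Set (AddCircle (1 : ℝ)) :=
    ⋃ c ∈ C, Metric.closedBall (((c : ℝ) / 2 ^ r : ℝ) : AddCircle (1 : ℝ)) (2 / 2 ^ r) with hB
  have hBm : MeasurableSet B :=
    C.measurableSet_biUnion fun _ _ => Metric.isClosed_closedBall.measurableSet
  have hint : Integrable (fun z : AddCircle (1 : ℝ) => F1_bump r C z) := by
    refine Integrable.of_bound (F1_continuous_bump r C).aestronglyMeasurable 1
      (Filter.Eventually.of_forall fun y => ?_)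
    rw [Real.norm_eq_abs, abs_of_nonneg (F1_bump_nonneg _ _ _)]
    exact F1_bump_le_one _ _ _
  calc ∫ z : AddCircle (1 : ℝ), F1_bump r C z
      ≤ ∫ z : AddCircle (1 : ℝ), B.indicator (fun _ => (1 : ℝ)) z := by
        refine integral_mono hint ((integrable_const (1 : ℝ)).indicator hBm) fun z => ?_
        by_cases hz : z ∈ B
        · rw [Set.indicator_of_mem hz]
          exact F1_bump_le_one _ _ _
        · rw [Set.indicator_of_notMem hz]
          by_contra hcon
          push Not at hcon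
          obtain ⟨c, hc, hcz⟩ := F1_mem_ball r C hne z hcon.ne'
          exact hz (Set.mem_iUnion₂.2 ⟨c, hc, hcz⟩)
    _ = (volume : Measure (AddCircle (1 : ℝ))).real B := by
        rw [integral_indicator hBm]
        simp
    _ ≤ ∑ c ∈ C, (volume : Measure (AddCircle (1 : ℝ))).real
          (Metric.closedBall (((c : ℝ) / 2 ^ r : ℝ) : AddCircle (1 : ℝ)) (2 / 2 ^ r)) :=
        measureReal_biUnion_finset_le _ _
    _ ≤ ∑ c ∈ C, (4 / 2 ^ r : ℝ) := by
        refine Finset.sum_le_sum fun c _ => ?_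
        rw [measureReal_def, AddCircle.volume_closedBall, ENNReal.toReal_ofReal (by positivity)]
        refine (min_le_right _ _).trans (le_of_eq ?_)
        ring
    _ = 4 * C.card / 2 ^ r := by
        rw [Finset.sum_const, nsmul_eq_mul]
        ring

lemma F1_integral_fourier (m : ℤ) :
    ∫ z : AddCircle (1 : ℝ), (fourier m z : ℂ) = if m = 0 then 1 else 0 := by
  have h := congrFun (fourierCoeff_fourier (T := (1 : ℝ)) m) 0
  unfold fourierCoeff at h
  have hv : (volume : Measure (AddCircle (1 : ℝ))) = AddCircle.haarAddCircle := by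
    rw [AddCircle.volume_eq_smul_haarAddCircle]
    simp
  rw [hv]
  simp only [neg_zero, fourier_zero, one_smul] at h
  rw [h, Pi.single_apply]
  by_cases h0 : m = 0
  · subst h0; simp
  · rw [if_neg h0, if_neg (Ne.symm h0)]

open Classical in
theorem equi (r : ℕ) (C : Finset ℤ) (hC : 28 * C.card ≤ 2 ^ r) :
    ∃ (S : Finset ℕ) (η : ℝ), 0 < η ∧ (∀ m ∈ S, 1 ≤ m) ∧ ∀ (N : ℕ) (y : ℕ → ℝ),
      (∀ m ∈ S, ‖∑ k ∈ range N, Pool.Agent.Helper61.FR.e (m * y k)‖ ≤ η * N) →
        4 * ((range N).filter fun k =>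
          ∃ c ∈ C, ∃ z : ℤ, |y k - z - (c : ℝ) / 2 ^ r| ≤ 7 / 4 / 2 ^ r).card ≤ N := by
  rcases C.eq_empty_or_nonempty with hC0 | hC0
  · subst hC0
    refine ⟨∅, 1, one_pos, by simp, fun N y _ => ?_⟩
    simp
  have hprob : IsProbabilityMeasure (volume : Measure (AddCircle (1 : ℝ))) :=
    ⟨by simp⟩
  have hne : (F1_arcs r C).Nonempty := by
    obtain ⟨c, hc⟩ := hC0
    refine ⟨(((c : ℝ) / 2 ^ r : ℝ) : AddCircle (1 : ℝ)), c, hc, (c : ℝ) / 2 ^ r, ?_, rfl⟩
    rw [sub_self, abs_zero]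
    positivity
  let fC : C(AddCircle (1 : ℝ), ℂ) :=
    ⟨fun z => (F1_bump r C z : ℂ), Complex.continuous_ofReal.comp (F1_continuous_bump r C)⟩
  have hmem : fC ∈ (Submodule.span ℂ (Set.range (@fourier (1 : ℝ)))).topologicalClosure := by
    rw [span_fourier_closure_eq_top]
    trivial
  obtain ⟨P, hP, hdist⟩ : ∃ P ∈ Submodule.span ℂ (Set.range (@fourier (1 : ℝ))),
      dist fC P < 1 / 64 := by
    have h1 : fC ∈ closure (Submodule.span ℂ (Set.range (@fourier (1 : ℝ))) :
      Set C(AddCircle (1 : ℝ), ℂ)) := by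
      rw [← Submodule.topologicalClosure_coe]
      exact hmem
    obtain ⟨P, hP, hd⟩ := Metric.mem_closure_iff.1 h1 (1 / 64) (by norm_num)
    exact ⟨P, hP, hd⟩
  obtain ⟨c, hc⟩ := Finsupp.mem_span_range_iff_exists_finsupp.1 hP
  have hPz : ∀ z : AddCircle (1 : ℝ), P z = ∑ m ∈ c.support, c m * fourier m z := by
    intro z
    rw [← hc, Finsupp.sum]
    simp only [ContinuousMap.coe_sum, Finset.sum_apply, ContinuousMap.smul_apply, smul_eq_mul]
  have hclose : ∀ z : AddCircle (1 : ℝ), ‖(F1_bump r C z : ℂ)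
      - ∑ m ∈ c.support, c m * fourier m z‖ ≤ 1 / 64 := by
    intro z
    rw [← hPz z, ← dist_eq_norm]
    exact (ContinuousMap.dist_apply_le_dist (f := fC) (g := P) z).trans hdist.le
  have hintP : ∫ z : AddCircle (1 : ℝ), (∑ m ∈ c.support, c m * fourier m z : ℂ) = c 0 := by
    have hi : ∀ m ∈ c.support, Integrable (fun z : AddCircle (1 : ℝ) => c m * fourier m z) := by
      intro m _
      refine Integrable.of_bound
        (continuous_const.mul (map_continuous (fourier m))).aestronglyMeasurable ‖c m‖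
        (Filter.Eventually.of_forall fun z => ?_)
      rw [norm_mul, fourier_apply, Circle.norm_coe, mul_one]
    rw [integral_finsetSum _ hi]
    have : ∀ m ∈ c.support, ∫ z : AddCircle (1 : ℝ), (c m * fourier m z : ℂ)
        = if m = 0 then c m else 0 := by
      intro m _
      rw [integral_const_mul, F1_integral_fourier]
      split_ifs <;> simp
    rw [Finset.sum_congr rfl this, Finset.sum_ite_eq']
    split_ifs with h0
    · rfl
    · exact (Finsupp.notMem_support_iff.1 h0).symm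
  have hintf : Integrable (fun z : AddCircle (1 : ℝ) => (F1_bump r C z : ℂ)) := by
    refine Integrable.of_bound
      (Complex.continuous_ofReal.comp (F1_continuous_bump r C)).aestronglyMeasurable 1
      (Filter.Eventually.of_forall fun y => ?_)
    rw [Complex.norm_real, Real.norm_eq_abs, abs_of_nonneg (F1_bump_nonneg _ _ _)]
    exact F1_bump_le_one _ _ _
  have hintPI : Integrable (fun z : AddCircle (1 : ℝ) => (∑ m ∈ c.support, c m * fourier m z : ℂ)) := by
    refine integrable_finsetSum _ fun m _ => ?_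
    refine Integrable.of_bound
      (continuous_const.mul (map_continuous (fourier m))).aestronglyMeasurable ‖c m‖
      (Filter.Eventually.of_forall fun z => ?_)
    rw [norm_mul, fourier_apply, Circle.norm_coe, mul_one]
  have hc0 : ‖c 0‖ ≤ 1 / 64 + 1 / 7 := by
    have h1 : ‖(∫ z : AddCircle (1 : ℝ), (F1_bump r C z : ℂ)) - c 0‖ ≤ 1 / 64 := by
      rw [← hintP, ← integral_sub hintf hintPI]
      have := norm_integral_le_of_norm_le_const (μ := (volume : Measure (AddCircle (1 : ℝ))))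
        (C := 1 / 64) (f := fun z : AddCircle (1 : ℝ) => (F1_bump r C z : ℂ)
          - ∑ m ∈ c.support, c m * fourier m z) (Filter.Eventually.of_forall hclose)
      simpa using this
    have h2 : ‖∫ z : AddCircle (1 : ℝ), (F1_bump r C z : ℂ)‖ ≤ 1 / 7 := by
      have h3 : (∫ z : AddCircle (1 : ℝ), (F1_bump r C z : ℂ))
          = ((∫ z : AddCircle (1 : ℝ), F1_bump r C z : ℝ) : ℂ) := integral_ofReal
      rw [h3, Complex.norm_real, Real.norm_eq_abs,
        abs_of_nonneg (integral_nonneg fun z => F1_bump_nonneg r C z)]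
      refine (F1_integral_le r C hne).trans ?_
      have hpos : (0 : ℝ) < 2 ^ r := by positivity
      rw [div_le_iff₀ hpos]
      have : (28 : ℝ) * C.card ≤ 2 ^ r := by exact_mod_cast hC
      linarith
    have h4 : c 0 = (∫ z : AddCircle (1 : ℝ), (F1_bump r C z : ℂ))
        - ((∫ z : AddCircle (1 : ℝ), (F1_bump r C z : ℂ)) - c 0) := by ring
    rw [h4]
    refine (norm_sub_le _ _).trans ?_
    linarith
  set K : ℝ := ∑ m ∈ c.support, ‖c m‖ with hK
  have hK0 : 0 ≤ K := Finset.sum_nonneg fun m _ => norm_nonneg _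
  set η : ℝ := 1 / 64 / (1 + K) with hη
  have hηpos : 0 < η := by positivity
  have hKη : K * η ≤ 1 / 64 := by
    rw [hη, mul_div_assoc', div_le_iff₀ (by positivity)]
    nlinarith
  refine ⟨(c.support.filter (fun m => m ≠ 0)).image Int.natAbs, η, hηpos, ?_, ?_⟩
  · intro m hm
    rw [Finset.mem_image] at hm
    obtain ⟨a, ha, rfl⟩ := hm
    rw [Finset.mem_filter] at ha
    have := ha.2
    omega
  intro N y hy
  have hchar : ∀ m ∈ c.support, m ≠ 0 →
      ‖∑ k ∈ range N, fourier m (y k : AddCircle (1 : ℝ))‖ ≤ η * N := by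
    intro m hm hm0
    have h1 := hy m.natAbs (Finset.mem_image.2 ⟨m, Finset.mem_filter.2 ⟨hm, hm0⟩, rfl⟩)
    simp only [F1_fourier_eq]
    rcases lt_or_gt_of_ne hm0 with hneg | hpos
    · have hcast : ((m.natAbs : ℕ) : ℝ) = -(m : ℝ) := by
        obtain ⟨n, rfl⟩ : ∃ n : ℕ, m = -(n : ℤ) := ⟨m.natAbs, by omega⟩
        simp
      have he : ∀ k ∈ range N, Pool.Agent.Helper61.FR.e ((m : ℝ) * y k)
          = (starRingEnd ℂ) (Pool.Agent.Helper61.FR.e (((m.natAbs : ℕ) : ℝ) * y k)) := by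
        intro k _
        rw [← F1_e_neg, hcast]
        congr 1
        ring
      rw [Finset.sum_congr rfl he, ← map_sum, RCLike.norm_conj]
      exact h1
    · have hcast : ((m.natAbs : ℕ) : ℝ) = (m : ℝ) := by
        obtain ⟨n, rfl⟩ : ∃ n : ℕ, m = (n : ℤ) := ⟨m.natAbs, by omega⟩
        simp
      rw [hcast] at h1
      exact h1
  set F : ℕ → ℝ := fun k => F1_bump r C (y k : AddCircle (1 : ℝ)) with hF
  have h1 : ‖(∑ k ∈ range N, (F k : ℂ))
      - ∑ k ∈ range N, ∑ m ∈ c.support, c m * fourier m (y k : AddCircle (1 : ℝ))‖ ≤ N / 64 := by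
    rw [← Finset.sum_sub_distrib]
    refine (norm_sum_le _ _).trans ?_
    calc ∑ k ∈ range N, ‖(F k : ℂ) - ∑ m ∈ c.support, c m * fourier m (y k : AddCircle (1 : ℝ))‖
        ≤ ∑ k ∈ range N, (1 / 64 : ℝ) := Finset.sum_le_sum fun k _ => hclose _
      _ = N / 64 := by
        rw [Finset.sum_const, Finset.card_range, nsmul_eq_mul]
        ring
  have h2 : ‖∑ k ∈ range N, ∑ m ∈ c.support, c m * fourier m (y k : AddCircle (1 : ℝ))‖
      ≤ N * (1 / 64 + 1 / 7) + N / 64 := by
    rw [Finset.sum_comm]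
    refine (norm_sum_le _ _).trans ?_
    have h3 : ∀ m ∈ c.support, ‖∑ k ∈ range N, c m * fourier m (y k : AddCircle (1 : ℝ))‖
        ≤ (if m = 0 then (N : ℝ) * (1 / 64 + 1 / 7) else 0) + ‖c m‖ * (η * N) := by
      intro m hm
      rw [← Finset.mul_sum, norm_mul]
      split_ifs with h0
      · subst h0
        have : ‖∑ k ∈ range N, fourier 0 (y k : AddCircle (1 : ℝ))‖ = N := by
          simp
        rw [this]
        have h5 : (0 : ℝ) ≤ ‖c 0‖ * (η * N) := by positivity
        have h6 : ‖c 0‖ * (N : ℝ) ≤ (1 / 64 + 1 / 7) * N := by gcongr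
        linarith
      · rw [zero_add]
        gcongr
        exact hchar m hm h0
    refine (Finset.sum_le_sum h3).trans ?_
    rw [Finset.sum_add_distrib, ← Finset.sum_mul, Finset.sum_ite_eq']
    have h7 : K * (η * N) ≤ N / 64 := by
      calc K * (η * N) = (K * η) * N := by ring
        _ ≤ (1 / 64) * N := by gcongr
        _ = N / 64 := by ring
    have h8 : (if (0 : ℤ) ∈ c.support then (N : ℝ) * (1 / 64 + 1 / 7) else 0)
        ≤ N * (1 / 64 + 1 / 7) := by
      split_ifs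
      · exact le_rfl
      · positivity
    linarith
  have h3 : (∑ k ∈ range N, F k) ≤ N / 4 := by
    have h4 : ‖∑ k ∈ range N, (F k : ℂ)‖ ≤ N / 64 + (N * (1 / 64 + 1 / 7) + N / 64) := by
      have e1 : (∑ k ∈ range N, (F k : ℂ)) = ((∑ k ∈ range N, (F k : ℂ))
        - ∑ k ∈ range N, ∑ m ∈ c.support, c m * fourier m (y k : AddCircle (1 : ℝ)))
        + ∑ k ∈ range N, ∑ m ∈ c.support, c m * fourier m (y k : AddCircle (1 : ℝ)) := by ring
      rw [e1]
      exact (norm_add_le _ _).trans (add_le_add h1 h2)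
    rw [← Complex.ofReal_sum, Complex.norm_real, Real.norm_eq_abs] at h4
    have h5 := le_abs_self (∑ k ∈ range N, F k)
    have hN : (0 : ℝ) ≤ N := Nat.cast_nonneg N
    linarith
  have h4 : ((((range N).filter fun k =>
          ∃ c ∈ C, ∃ z : ℤ, |y k - z - (c : ℝ) / 2 ^ r| ≤ 7 / 4 / 2 ^ r).card : ℕ) : ℝ)
        ≤ ∑ k ∈ range N, F k := by
    rw [Finset.card_filter]
    push_cast
    refine Finset.sum_le_sum fun k _ => ?_
    split_ifs with hk
    · obtain ⟨d, hd, z, hz⟩ := hk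
      have : F1_bump r C (y k : AddCircle (1 : ℝ)) = 1 := by
        apply F1_bump_eq_one
        refine ⟨d, hd, y k - z, hz, ?_⟩
        rw [AddCircle.coe_sub]
        have hz0 : ((z : ℝ) : AddCircle (1 : ℝ)) = 0 := by
          rw [AddCircle.coe_eq_zero_iff]
          exact ⟨z, by simp⟩
        rw [hz0, sub_zero]
      exact this.ge
    · exact F1_bump_nonneg _ _ _
  have h5 : (4 : ℝ) * ((((range N).filter fun k =>
          ∃ c ∈ C, ∃ z : ℤ, |y k - z - (c : ℝ) / 2 ^ r| ≤ 7 / 4 / 2 ^ r).card : ℕ) : ℝ) ≤ N := by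
    linarith
  exact_mod_cast h5

end Pool.Agent.Helper17.KW
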