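import Mathlib
import Pool.Agent.Helper17.KW.St.F1

/-!
# KW-F2: small exponential sums exclude that two points are typical

Here only powers of `3` are used (`M = 1` in the notation of `FR`): `cnt 1 N V x` is the number of
`k < N` with `3 ^ k x ∈ V`.

Proof.  Let `C = {u' - u | u, u' ∈ U}` (as integers), so `28 |C| ≤ 28 |U| ^ 2 ≤ 2 ^ r`, take `S`, `η` from
`equi` and `n₁ = r + 2`.  Put `x' = x + d / 2 ^ n' + τ`.  For at least `(3 / 4) 2 ^ q` of the `k < 2 ^ q`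
both `3 ^ k x` and `3 ^ k x'` are in `nbhd r U`.  For such a `k` there are `u, u' ∈ U` and an integer `z`
with `|3 ^ k (x' - x) - z - (u' - u) / 2 ^ r| ≤ (3 / 2) / 2 ^ r`, and
`3 ^ k (x' - x) = d 3 ^ k / 2 ^ n' + 3 ^ k τ` with `|3 ^ k τ| ≤ 2 ^ (- n') ≤ (1 / 4) / 2 ^ r`.  So
`y k = d 3 ^ k / 2 ^ n'` satisfies the condition in `equi` for at least `(3 / 4) 2 ^ q > 2 ^ q / 4`
values of `k < 2 ^ q`: contradiction.
-/

set_option autoImplicit false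

open MeasureTheory Finset

namespace Pool.Agent.Helper17.KW

open Classical in
theorem F2_cnt_one (N : ℕ) (V : Set ℝ) (x : ℝ) :
    Pool.Agent.Helper61.FR.cnt 1 N V x = ((range N).filter fun k => (3 : ℝ) ^ k * x ∈ V).card := by
  unfold Pool.Agent.Helper61.FR.cnt
  rw [card_filter, card_filter, sum_product]
  simp

open Pool.Agent.Helper61.FR in
theorem window_of_sums (r : ℕ) (U : Finset ℕ) (hU : 48 * U.card ^ 2 < 2 ^ r) :
    ∃ (S : Finset ℕ) (η : ℝ) (n₁ : ℕ), 0 < η ∧ (∀ m ∈ S, 1 ≤ m) ∧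
      ∀ (q n' : ℕ) (d : ℤ) (τ x : ℝ), n₁ ≤ n' → |τ| * 3 ^ (2 ^ q) * 2 ^ n' ≤ 1 →
        (∀ m ∈ S, ‖∑ k ∈ range (2 ^ q), Pool.Agent.Helper61.FR.e (m * (d * 3 ^ k / 2 ^ n'))‖ ≤
          η * 2 ^ q) →
        7 * 2 ^ q ≤ 8 * cnt 1 (2 ^ q) (nbhd r U) x →
        7 * 2 ^ q ≤ 8 * cnt 1 (2 ^ q) (nbhd r U) (x + d / 2 ^ n' + τ) → False := by
  classical
  set C : Finset ℤ := (U ×ˢ U).image fun p : ℕ × ℕ => ((p.2 : ℤ) - (p.1 : ℤ)) with hCdef
  have hCcard : C.card ≤ U.card ^ 2 := by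
    refine card_image_le.trans ?_
    rw [card_product, sq]
  obtain ⟨S, η, hη, hS, H⟩ := equi r C (by omega)
  refine ⟨S, η, r + 2, hη, hS, ?_⟩
  intro q n' d τ x hn hτ hsum h1 h2
  have h2r : (0 : ℝ) < 2 ^ r := by positivity
  have h2n : (0 : ℝ) < 2 ^ n' := by positivity
  have hnr : (4 : ℝ) * 2 ^ r ≤ 2 ^ n' := by
    calc (4 : ℝ) * 2 ^ r = 2 ^ (r + 2) := by rw [pow_add]; ring
      _ ≤ 2 ^ n' := pow_le_pow_right₀ (by norm_num) hn
  have key := H (2 ^ q) (fun k => (d : ℝ) * 3 ^ k / 2 ^ n') (by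
    intro m hm
    have := hsum m hm
    push_cast
    exact this)
  rw [F2_cnt_one] at h1 h2
  set A := (range (2 ^ q)).filter fun k => (3 : ℝ) ^ k * x ∈ nbhd r U with hA
  set B := (range (2 ^ q)).filter fun k => (3 : ℝ) ^ k * (x + d / 2 ^ n' + τ) ∈ nbhd r U with hB
  have hAB : (A ∪ B).card + (A ∩ B).card = A.card + B.card := card_union_add_card_inter A B
  have hU' : (A ∪ B).card ≤ 2 ^ q := by
    calc (A ∪ B).card ≤ (range (2 ^ q)).card :=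
          card_le_card (union_subset (filter_subset _ _) (filter_subset _ _))
      _ = 2 ^ q := card_range _
  have hsub : (A ∩ B).card ≤ ((range (2 ^ q)).filter fun k =>
      ∃ c ∈ C, ∃ z : ℤ, |(d : ℝ) * 3 ^ k / 2 ^ n' - z - (c : ℝ) / 2 ^ r| ≤ 7 / 4 / 2 ^ r).card := by
    refine card_le_card ?_
    intro k hk
    rw [mem_inter, hA, hB, mem_filter, mem_filter] at hk
    obtain ⟨⟨hk0, u, hu, z, hz⟩, _, u', hu', z', hz'⟩ := hk
    rw [mem_filter]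
    refine ⟨hk0, (u' : ℤ) - (u : ℤ), ?_, z' - z, ?_⟩
    · rw [hCdef, mem_image]
      exact ⟨(u, u'), mem_product.2 ⟨hu, hu'⟩, rfl⟩
    · have h3k : (3 : ℝ) ^ k * |τ| ≤ 1 / 4 / 2 ^ r := by
        have hk1 : k < 2 ^ q := mem_range.1 hk0
        have e1 : (3 : ℝ) ^ k ≤ 3 ^ (2 ^ q) := pow_le_pow_right₀ (by norm_num) hk1.le
        have e2 : (3 : ℝ) ^ k * |τ| * 2 ^ n' ≤ 1 := by
          calc (3 : ℝ) ^ k * |τ| * 2 ^ n' ≤ 3 ^ (2 ^ q) * |τ| * 2 ^ n' := by gcongr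
            _ = |τ| * 3 ^ (2 ^ q) * 2 ^ n' := by ring
            _ ≤ 1 := hτ
        have e3 : (3 : ℝ) ^ k * |τ| * (4 * 2 ^ r) ≤ 1 :=
          (mul_le_mul_of_nonneg_left hnr (by positivity)).trans e2
        rw [div_div, le_div_iff₀ (by positivity)]
        exact e3
      have hτk : |(3 : ℝ) ^ k * τ| ≤ 1 / 4 / 2 ^ r := by
        rw [abs_mul, abs_of_pos (by positivity : (0 : ℝ) < 3 ^ k)]
        exact h3k
      have e : (d : ℝ) * 3 ^ k / 2 ^ n' - ((z' - z : ℤ) : ℝ) - (((u' : ℤ) - (u : ℤ) : ℤ) : ℝ) / 2 ^ r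
          = ((3 : ℝ) ^ k * (x + d / 2 ^ n' + τ) - z' - (u' + 1 / 2) / 2 ^ r)
            - ((3 : ℝ) ^ k * x - z - (u + 1 / 2) / 2 ^ r) - 3 ^ k * τ := by
        push_cast
        field_simp
        ring
      rw [e]
      have t1 := abs_sub ((3 : ℝ) ^ k * (x + d / 2 ^ n' + τ) - z' - (u' + 1 / 2) / 2 ^ r
            - ((3 : ℝ) ^ k * x - z - (u + 1 / 2) / 2 ^ r)) (3 ^ k * τ)
      have t2 := abs_sub ((3 : ℝ) ^ k * (x + d / 2 ^ n' + τ) - z' - (u' + 1 / 2) / 2 ^ r)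
            ((3 : ℝ) ^ k * x - z - (u + 1 / 2) / 2 ^ r)
      have t3 : (7 : ℝ) / 4 / 2 ^ r = 3 / 4 / 2 ^ r + 3 / 4 / 2 ^ r + 1 / 4 / 2 ^ r := by
        field_simp
        norm_num
      rw [t3]
      linarith
  have hq : 0 < 2 ^ q := by positivity
  omega

end Pool.Agent.Helper17.KW
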