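import Mathlib

/-!
# KW-C1: lifting the exponent

Proof.  `p = 2`: `3 ^ (2 ^ (s - 2)) = 1 + 2 ^ s w` with `w` odd for `s ≥ 3`, by induction from
`3 ^ 2 = 1 + 8`: `(1 + 2 ^ s w) ^ 2 = 1 + 2 ^ (s + 1) (w + 2 ^ (s - 1) w ^ 2)`.
`p = 3`: `2 ^ (2 * 3 ^ (s - 1)) = 1 + 3 ^ s w`, `3 ∤ w`, by induction from `2 ^ 2 = 1 + 3` (cube); and
`2 * 3 ^ (s - 1) ≤ 3 ^ s`.
-/

set_option autoImplicit false

open Finset

namespace Pool.Agent.Helper17.KW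

theorem C1_two (k : ℕ) : ∃ w : ℤ, (3 : ℤ) ^ (2 ^ (k + 1)) = 1 + (2 : ℤ) ^ (k + 3) * w ∧
    ¬ (2 : ℤ) ∣ w := by
  induction k with
  | zero => exact ⟨1, by norm_num, by norm_num⟩
  | succ k ih =>
    obtain ⟨w, hw, hd⟩ := ih
    refine ⟨w + 2 ^ (k + 2) * w ^ 2, ?_, ?_⟩
    · rw [pow_succ 2 (k + 1), pow_mul, hw]
      ring
    · intro h
      apply hd
      have h2 : (2 : ℤ) ∣ 2 ^ (k + 2) * w ^ 2 :=
        Dvd.dvd.mul_right (dvd_pow_self 2 (by omega)) _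
      exact (dvd_add_left h2).mp h

theorem C1_three (k : ℕ) : ∃ w : ℤ, (2 : ℤ) ^ (2 * 3 ^ k) = 1 + (3 : ℤ) ^ (k + 1) * w ∧
    ¬ (3 : ℤ) ∣ w := by
  induction k with
  | zero => exact ⟨1, by norm_num, by norm_num⟩
  | succ k ih =>
    obtain ⟨w, hw, hd⟩ := ih
    refine ⟨w + 3 ^ (k + 1) * w ^ 2 + 3 ^ (2 * k + 1) * w ^ 3, ?_, ?_⟩
    · have h1 : 2 * 3 ^ (k + 1) = 2 * 3 ^ k * 3 := by ring
      rw [h1, pow_mul, hw]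
      ring
    · intro h
      apply hd
      have h2 : (3 : ℤ) ∣ 3 ^ (k + 1) * w ^ 2 :=
        Dvd.dvd.mul_right (dvd_pow_self 3 (by omega)) _
      have h3 : (3 : ℤ) ∣ 3 ^ (2 * k + 1) * w ^ 3 :=
        Dvd.dvd.mul_right (dvd_pow_self 3 (by omega)) _
      have h4 := (dvd_add_left h3).mp h
      exact (dvd_add_left h2).mp h4

theorem exists_exponent (p g : ℕ) (hpg : (p = 2 ∧ g = 3) ∨ (p = 3 ∧ g = 2)) (s : ℕ) (hs : 3 ≤ s) :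
    ∃ (T : ℕ) (w : ℤ), 1 ≤ T ∧ T ≤ p ^ s ∧ (g : ℤ) ^ T = 1 + (p : ℤ) ^ s * w ∧ ¬ (p : ℤ) ∣ w := by
  rcases hpg with ⟨rfl, rfl⟩ | ⟨rfl, rfl⟩
  · obtain ⟨k, rfl⟩ := Nat.exists_eq_add_of_le hs
    obtain ⟨w, hw, hd⟩ := C1_two k
    refine ⟨2 ^ (k + 1), w, Nat.one_le_two_pow, Nat.pow_le_pow_right (by norm_num) (by omega), ?_, ?_⟩
    · have : 3 + k = k + 3 := by ring
      rw [this]
      exact_mod_cast hw
    · exact_mod_cast hd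
  · obtain ⟨k, rfl⟩ : ∃ k, s = k + 1 := ⟨s - 1, by omega⟩
    obtain ⟨w, hw, hd⟩ := C1_three k
    refine ⟨2 * 3 ^ k, w, ?_, ?_, ?_, ?_⟩
    · have : 0 < 3 ^ k := Nat.pow_pos (show 0 < 3 by norm_num)
      omega
    · rw [pow_succ, mul_comm]
      exact Nat.mul_le_mul_left _ (by norm_num)
    · exact_mod_cast hw
    · exact_mod_cast hd

end Pool.Agent.Helper17.KW
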