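import Mathlib

/-!
# KW-C2: the power `(1 + p ^ s w) ^ z` as a polynomial in `z`

Proof.  Let `W = p ^ s w`.  `(1 + W) ^ z = ∑_i (z choose i) W ^ i` and the terms with `i > D` are
divisible by `p ^ n` (`n ≤ (D + 1) s`).  `D! (z choose i) = (D! / i!) * z (z - 1) ... (z - i + 1)` is the value
at `z` of an integer polynomial (`descPochhammer ℤ i`).  Let
`c j = ∑_{i ≤ D} W ^ i (D! / i!) * coeff (descPochhammer ℤ i) j ∈ ℤ` and `κ j = c j / (D! p ^ n)`.
Then `(1 + W) ^ z / p ^ n` is an integer plus `∑_{j ≤ D} κ j z ^ j`.  `c 0 = D!`, so `κ 0 = 1 / p ^ n`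
(split off below as the term `j = 0`).  Let `1 ≤ j ≤ D`.  The term `i = j` of `c j` is
`W ^ j D! / j!`, of `p`-adic valuation `j s + v (D!) - v (j!)`; for `i > j` the valuation of
the term is at least `i s + v (D!) - v (i!)`, which is larger, because `v (i!) ≤ i - 1 < s` (if
`i ≥ 1`, `i ≤ D ≤ s`).  So `v (c j) = j s + v (D!) - v (j!)`.  For `d` prime to `p` the fraction
`d c j / (D! p ^ n)` has denominator with `p`-part `p ^ (n - j s + v (j!))` (`j s ≤ n`) and with prime to
`p` part a divisor of the prime to `p` part of `D!`.  Hence the bounds.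
-/

set_option autoImplicit false

open Finset

namespace Pool.Agent.Helper17.KW

/-- the integer coefficients: `D!` times the coefficients of the truncated binomial series -/
noncomputable def C2c (D : ℕ) (W : ℤ) (j : ℕ) : ℤ :=
  ∑ i ∈ range (D + 1), W ^ i * (D.descFactorial (D - i) : ℤ) * (descPochhammer ℤ i).coeff j

theorem C2_desc {D i : ℕ} (hi : i ≤ D) : i.factorial * D.descFactorial (D - i) = D.factorial := by
  have h := Nat.factorial_mul_descFactorial (Nat.sub_le D i)
  rwa [Nat.sub_sub_self hi] at h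

theorem C2_zero (D : ℕ) (W : ℤ) : C2c D W 0 = D.factorial := by
  unfold C2c
  rw [Finset.sum_eq_single 0]
  · have h := Nat.descFactorial_self D
    simp [h]
  · intro i _ hi
    rw [Polynomial.coeff_zero_eq_eval_zero, descPochhammer_ne_zero_eval_zero ℤ hi, mul_zero]
  · intro h
    exact absurd (mem_range.2 (Nat.succ_pos D)) h

theorem C2_sum (D : ℕ) (W : ℤ) (z : ℕ) :
    ∑ j ∈ range (D + 1), C2c D W j * (z : ℤ) ^ j =
      D.factorial * ∑ i ∈ range (D + 1), W ^ i * (z.choose i : ℤ) := by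
  unfold C2c
  simp_rw [Finset.sum_mul]
  rw [Finset.sum_comm, Finset.mul_sum]
  refine Finset.sum_congr rfl fun i hi => ?_
  have hiD : i ≤ D := Nat.lt_succ_iff.1 (mem_range.1 hi)
  have h1 : ((z : ℤ)).natAbs = z := Int.natAbs_natCast z
  have h2 : (descPochhammer ℤ i).eval (z : ℤ) = ∑ j ∈ range (D + 1),
      (descPochhammer ℤ i).coeff j * (z : ℤ) ^ j := by
    apply Polynomial.eval_eq_sum_range'
    rw [descPochhammer_natDegree]
    omega
  rw [descPochhammer_eval_eq_descFactorial, Nat.descFactorial_eq_factorial_mul_choose] at h2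
  have h3 := C2_desc hiD
  have h4 : ∑ j ∈ range (D + 1), W ^ i * (D.descFactorial (D - i) : ℤ) *
      (descPochhammer ℤ i).coeff j * (z : ℤ) ^ j = W ^ i * (D.descFactorial (D - i) : ℤ) *
      ∑ j ∈ range (D + 1), (descPochhammer ℤ i).coeff j * (z : ℤ) ^ j := by
    rw [Finset.mul_sum]
    exact Finset.sum_congr rfl fun j _ => by ring
  rw [h4, ← h2, ← h3]
  push_cast
  ring

theorem C2_trunc (p D s n : ℕ) (w : ℤ) (hn : n ≤ (D + 1) * s) (z : ℕ) :
    ∃ r : ℤ, (1 + (p : ℤ) ^ s * w) ^ z =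
      ∑ i ∈ range (D + 1), ((p : ℤ) ^ s * w) ^ i * (z.choose i : ℤ) + (p : ℤ) ^ n * r := by
  set W : ℤ := (p : ℤ) ^ s * w with hW
  set M := max (z + 1) (D + 1) with hM
  have h1 : (1 + W) ^ z = ∑ i ∈ range M, W ^ i * (z.choose i : ℤ) := by
    rw [add_comm, add_pow]
    have : ∑ i ∈ range M, W ^ i * (z.choose i : ℤ) =
        ∑ i ∈ range (z + 1), W ^ i * (z.choose i : ℤ) := by
      symm
      apply Finset.sum_subset
      · intro i hi
        rw [mem_range] at hi ⊢
        exact hi.trans_le (le_max_left _ _)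
      · intro i _ hi
        rw [mem_range, not_lt] at hi
        rw [Nat.choose_eq_zero_of_lt (by omega)]
        simp
    rw [this]
    refine Finset.sum_congr rfl fun i _ => ?_
    rw [one_pow, mul_one]
  have h2 : ∑ i ∈ range M, W ^ i * (z.choose i : ℤ) =
      ∑ i ∈ range (D + 1), W ^ i * (z.choose i : ℤ) +
        ∑ i ∈ Ico (D + 1) M, W ^ i * (z.choose i : ℤ) :=
    (Finset.sum_range_add_sum_Ico _ (le_max_right _ _)).symm
  have h3 : (p : ℤ) ^ n ∣ ∑ i ∈ Ico (D + 1) M, W ^ i * (z.choose i : ℤ) := by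
    refine Finset.dvd_sum fun i hi => ?_
    rw [mem_Ico] at hi
    refine Dvd.dvd.mul_right ?_ _
    rw [hW, mul_pow, ← pow_mul]
    refine Dvd.dvd.mul_right (pow_dvd_pow _ ?_) _
    calc n ≤ (D + 1) * s := hn
      _ ≤ i * s := Nat.mul_le_mul_right s hi.1
      _ = s * i := mul_comm _ _
  obtain ⟨r, hr⟩ := h3
  exact ⟨r, by rw [h1, h2, hr]⟩

theorem C2_fact_lt {p : ℕ} (hp : p.Prime) {i : ℕ} (hi : i ≠ 0) :
    padicValNat p i.factorial < i := by
  haveI : Fact p.Prime := ⟨hp⟩
  have h1 := sub_one_mul_padicValNat_factorial_lt_of_ne_zero p hi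
  have h2 : 1 ≤ p - 1 := by have := hp.two_le; omega
  nlinarith

/-- the exact power of `p` in the coefficient -/
theorem C2_val {p D s : ℕ} (hp : p.Prime) {w : ℤ} (hw : ¬ (p : ℤ) ∣ w) (hs : D ≤ s) {j : ℕ}
    (hj : 1 ≤ j) (hjD : j ≤ D) :
    ∃ g : ℤ, ¬ (p : ℤ) ∣ g ∧ C2c D ((p : ℤ) ^ s * w) j =
      (p : ℤ) ^ (j * s + padicValNat p D.factorial - padicValNat p j.factorial) * g := by
  haveI : Fact p.Prime := ⟨hp⟩
  have hpz : Prime (p : ℤ) := Nat.prime_iff_prime_int.1 hp
  -- the quotient of factorials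
  have hq : ∀ i ≤ D, padicValNat p (D.descFactorial (D - i)) + padicValNat p i.factorial =
      padicValNat p D.factorial := by
    intro i hi
    rw [← C2_desc hi, padicValNat.mul i.factorial_ne_zero, add_comm]
    intro h0
    have := C2_desc hi
    rw [h0, mul_zero] at this
    exact D.factorial_ne_zero this.symm
  have hqd : ∀ i ≤ D, D.descFactorial (D - i) ≠ 0 := by
    intro i hi h0
    have := C2_desc hi
    rw [h0, mul_zero] at this
    exact D.factorial_ne_zero this.symm
  set a := j * s + padicValNat p D.factorial - padicValNat p j.factorial with ha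
  have hqj := hq j hjD
  have ha' : a = j * s + padicValNat p (D.descFactorial (D - j)) := by omega
  -- the other terms
  have hother : (p : ℤ) ^ (a + 1) ∣ ∑ i ∈ (range (D + 1)).erase j,
      ((p : ℤ) ^ s * w) ^ i * (D.descFactorial (D - i) : ℤ) * (descPochhammer ℤ i).coeff j := by
    refine Finset.dvd_sum fun i hi => ?_
    rw [mem_erase, mem_range] at hi
    rcases Nat.lt_or_ge i j with hij | hij
    · rw [Polynomial.coeff_eq_zero_of_natDegree_lt (by rw [descPochhammer_natDegree]; exact hij),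
        mul_zero]
      exact dvd_zero _
    · have hiD : i ≤ D := by omega
      have hji : j < i := lt_of_le_of_ne hij (Ne.symm hi.1)
      have h1 : (p : ℤ) ^ (i * s + padicValNat p (D.descFactorial (D - i))) ∣
          ((p : ℤ) ^ s * w) ^ i * (D.descFactorial (D - i) : ℤ) := by
        rw [pow_add]
        apply mul_dvd_mul
        · rw [mul_pow, ← pow_mul, mul_comm s i]
          exact dvd_mul_right _ _
        · have := pow_padicValNat_dvd (p := p) (n := D.descFactorial (D - i))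
          exact_mod_cast this
      refine Dvd.dvd.mul_right (dvd_trans (pow_dvd_pow _ ?_) h1) _
      have h2 := hq i hiD
      have h3 := C2_fact_lt hp (show i ≠ 0 by omega)
      have h4 : j * s + s ≤ i * s := by
        calc j * s + s = (j + 1) * s := by ring
          _ ≤ i * s := Nat.mul_le_mul_right s hji
      omega
  -- the main term
  obtain ⟨m, hm⟩ : ∃ m, D.descFactorial (D - j) =
      p ^ padicValNat p (D.descFactorial (D - j)) * m := pow_padicValNat_dvd
  have hpm : ¬ p ∣ m := by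
    rintro ⟨m', hm'⟩
    have h1 : p ^ (padicValNat p (D.descFactorial (D - j)) + 1) ∣ D.descFactorial (D - j) := by
      refine ⟨m', ?_⟩
      conv_lhs => rw [hm, hm']
      ring
    exact pow_succ_padicValNat_not_dvd (hqd j hjD) h1
  obtain ⟨r, hr⟩ := hother
  refine ⟨w ^ j * m + p * r, ?_, ?_⟩
  · intro h1
    have h2 : (p : ℤ) ∣ w ^ j * m := by
      have := dvd_sub h1 (dvd_mul_right (p : ℤ) r)
      simpa using this
    rcases hpz.dvd_or_dvd h2 with h3 | h3
    · exact hw (hpz.dvd_of_dvd_pow h3)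
    · exact hpm (by exact_mod_cast h3)
  · have h1 : C2c D ((p : ℤ) ^ s * w) j = ((p : ℤ) ^ s * w) ^ j * (D.descFactorial (D - j) : ℤ) *
        (descPochhammer ℤ j).coeff j + ∑ i ∈ (range (D + 1)).erase j,
        ((p : ℤ) ^ s * w) ^ i * (D.descFactorial (D - i) : ℤ) * (descPochhammer ℤ i).coeff j := by
      unfold C2c
      rw [Finset.add_sum_erase _ (fun i => ((p : ℤ) ^ s * w) ^ i *
        (D.descFactorial (D - i) : ℤ) * (descPochhammer ℤ i).coeff j) (mem_range.2 (by omega))]
    have h2 : (descPochhammer ℤ j).coeff j = 1 := by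
      have := (monic_descPochhammer ℤ j).coeff_natDegree
      rwa [descPochhammer_natDegree] at this
    have h3 : (D.descFactorial (D - j) : ℤ) =
        (p : ℤ) ^ padicValNat p (D.descFactorial (D - j)) * m := by exact_mod_cast hm
    rw [h1, hr, h2, h3, ha', mul_pow, ← pow_mul, pow_succ, pow_add, mul_comm s j]
    ring

theorem expansion (p D s n : ℕ) (hp : p.Prime) (w : ℤ) (hw : ¬ (p : ℤ) ∣ w) (hD : 1 ≤ D)
    (hs : D ≤ s) (hn : n ≤ (D + 1) * s) :
    ∃ κ : ℕ → ℚ, κ 0 = 1 / (p : ℚ) ^ n ∧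
      (∀ z : ℕ, ∃ r : ℤ, (1 + (p : ℚ) ^ s * w) ^ z / (p : ℚ) ^ n =
        (∑ j ∈ range (D + 1), κ j * (z : ℚ) ^ j) + r) ∧
      (∀ j ∈ Icc 1 D, ∃ c : ℤ, κ j = c / ((D.factorial : ℚ) * (p : ℚ) ^ n)) ∧
      ∀ j ∈ Icc 1 D, j * s ≤ n → ∀ d : ℤ, ¬ (p : ℤ) ∣ d →
        p ^ (n - j * s) ≤ ((d : ℚ) * κ j).den ∧
          ((d : ℚ) * κ j).den ≤ D.factorial * p ^ (n - j * s) := by
  haveI : Fact p.Prime := ⟨hp⟩
  have hpz : Prime (p : ℤ) := Nat.prime_iff_prime_int.1 hp
  have hp0 : (p : ℚ) ≠ 0 := by exact_mod_cast hp.ne_zero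
  have hD0 : (D.factorial : ℚ) ≠ 0 := by exact_mod_cast D.factorial_ne_zero
  set W : ℤ := (p : ℤ) ^ s * w with hW
  refine ⟨fun j => (C2c D W j : ℚ) / ((D.factorial : ℚ) * (p : ℚ) ^ n), ?_, ?_, ?_, ?_⟩
  · simp only [C2_zero]
    push_cast
    field_simp
  · intro z
    obtain ⟨r, hr⟩ := C2_trunc p D s n w hn z
    refine ⟨r, ?_⟩
    have h1 := C2_sum D W z
    have h2 : (1 + (p : ℚ) ^ s * w) ^ z =
        ∑ i ∈ range (D + 1), (W : ℚ) ^ i * (z.choose i : ℚ) + (p : ℚ) ^ n * r := by
      rw [hW]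
      exact_mod_cast hr
    have h3 : ∑ j ∈ range (D + 1), (C2c D W j : ℚ) * (z : ℚ) ^ j =
        D.factorial * ∑ i ∈ range (D + 1), (W : ℚ) ^ i * (z.choose i : ℚ) := by
      exact_mod_cast h1
    have h4 : ∑ j ∈ range (D + 1), (C2c D W j : ℚ) / ((D.factorial : ℚ) * (p : ℚ) ^ n) *
        (z : ℚ) ^ j = (∑ j ∈ range (D + 1), (C2c D W j : ℚ) * (z : ℚ) ^ j) /
        ((D.factorial : ℚ) * (p : ℚ) ^ n) := by
      rw [Finset.sum_div]
      exact Finset.sum_congr rfl fun j _ => by ring
    rw [h4, h3, h2]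
    field_simp
  · intro j _
    exact ⟨C2c D W j, rfl⟩
  · intro j hj hjn d hd
    rw [mem_Icc] at hj
    obtain ⟨g, hg, hc⟩ := C2_val hp hw hs hj.1 hj.2
    have hc' : C2c D W j =
      (p : ℤ) ^ (j * s + padicValNat p D.factorial - padicValNat p j.factorial) * g := hc
    obtain ⟨m, hm⟩ : ∃ m, D.factorial = p ^ padicValNat p D.factorial * m := pow_padicValNat_dvd
    have hjv : padicValNat p j.factorial ≤ padicValNat p D.factorial :=
      (padicValNat_dvd_iff_le (D.factorial_ne_zero)).1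
        (pow_padicValNat_dvd.trans (Nat.factorial_dvd_factorial hj.2))
    have hjl := C2_fact_lt hp (show j ≠ 0 by omega)
    set a := j * s + padicValNat p D.factorial - padicValNat p j.factorial with ha
    set b := n - j * s + padicValNat p j.factorial with hb
    have hjs : j ≤ j * s := by nlinarith [hj.1, hj.2, hs]
    have hab : padicValNat p D.factorial + n = a + b := by omega
    have hm0 : m ≠ 0 := by
      rintro rfl
      rw [mul_zero] at hm
      exact D.factorial_ne_zero hm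
    have hkey : (d : ℚ) * ((C2c D W j : ℚ) / ((D.factorial : ℚ) * (p : ℚ) ^ n)) =
        ((d * g : ℤ) : ℚ) / ((m * p ^ b : ℕ) : ℚ) := by
      have h1 : (C2c D W j : ℚ) = (p : ℚ) ^ a * g := by exact_mod_cast hc'
      have h2 : (D.factorial : ℚ) * (p : ℚ) ^ n = (p : ℚ) ^ a * ((m : ℚ) * (p : ℚ) ^ b) := by
        have : (D.factorial : ℚ) = (p : ℚ) ^ padicValNat p D.factorial * m := by exact_mod_cast hm
        rw [this, mul_right_comm, ← pow_add, hab, pow_add]
        ring
      have hm0' : (m : ℚ) ≠ 0 := by exact_mod_cast hm0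
      rw [h1, h2]
      push_cast
      field_simp
    have hm0' : ((m * p ^ b : ℕ) : ℤ) ≠ 0 := by
      exact_mod_cast mul_ne_zero hm0 (pow_ne_zero _ hp.ne_zero)
    rw [hkey]
    set q : ℚ := ((d * g : ℤ) : ℚ) / ((m * p ^ b : ℕ) : ℚ) with hq
    have hden : (q.den : ℤ) ∣ ((m * p ^ b : ℕ) : ℤ) := by
      have h1 : q = Rat.divInt (d * g) ((m * p ^ b : ℕ) : ℤ) := by
        rw [Rat.divInt_eq_div, hq]
        push_cast
        rfl
      rw [h1]
      exact Rat.den_dvd _ _
    have hdvd : q.den ∣ m * p ^ b := by exact_mod_cast hden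
    constructor
    · -- lower bound
      have h1 : q.num * ((m * p ^ b : ℕ) : ℤ) = (d * g) * q.den := by
        have h2 : (q.num : ℚ) / (q.den : ℚ) = q := Rat.num_div_den q
        have h3 : (q.den : ℚ) ≠ 0 := by exact_mod_cast q.den_nz
        have h4 : ((m * p ^ b : ℕ) : ℚ) ≠ 0 := by exact_mod_cast hm0'
        have h5 : (q.num : ℚ) * ((m * p ^ b : ℕ) : ℚ) = ((d * g : ℤ) : ℚ) * q.den := by
          rw [div_eq_iff h3] at h2
          rw [h2, hq]
          field_simp
        exact_mod_cast h5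
      have h2 : (p : ℤ) ^ b ∣ (d * g) * q.den := by
        rw [← h1]
        refine Dvd.dvd.mul_left ?_ _
        push_cast
        exact dvd_mul_left _ _
      have h3 : ¬ (p : ℤ) ∣ d * g := by
        intro h
        rcases hpz.dvd_or_dvd h with h | h
        · exact hd h
        · exact hg h
      have h4 : (p : ℤ) ^ b ∣ (q.den : ℤ) := hpz.pow_dvd_of_dvd_mul_left b h3 h2
      have h5 : p ^ b ∣ q.den := by exact_mod_cast h4
      calc p ^ (n - j * s) ≤ p ^ b := Nat.pow_le_pow_right hp.pos (by omega)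
        _ ≤ q.den := Nat.le_of_dvd q.den_pos h5
    · calc q.den ≤ m * p ^ b := Nat.le_of_dvd (Nat.pos_of_ne_zero (by exact_mod_cast hm0')) hdvd
        _ ≤ m * p ^ (n - j * s + padicValNat p D.factorial) :=
          Nat.mul_le_mul_left _ (Nat.pow_le_pow_right hp.pos (by omega))
        _ = D.factorial * p ^ (n - j * s) := by
          conv_rhs => rw [hm]
          rw [pow_add]
          ring

end Pool.Agent.Helper17.KW
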