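import Mathlib
import Pool.Agent.Helper17.KW.Defs

/-!
# KW-C3: the shift and the complete sums

Proof of `shift_sum`: for `x, y ∈ Icc 1 Y` the sum of `f (k + T x y)` over `k < N` differs from the sum of
`f k` by at most `2 T x y ≤ 2 T Y ^ 2`.  Average over `x, y`.
Proof of `complete_sum`: put `P = p * T`.  Write `k = k₀ + i T`, `i < p`:
`g ^ (k₀ + i T) = g ^ k₀ (1 + p ^ (n - 1) w) ^ i ≡ g ^ k₀ (1 + i p ^ (n - 1) w)` modulo `p ^ n` (`n ≥ 2`),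
so `∑_{i < p} e (d g ^ (k₀ + i T) / p ^ n) = e (d g ^ k₀ / p ^ n) ∑_{i < p} e (i d g ^ k₀ w / p) = 0` as
`p ∤ d g ^ k₀ w` (`p ∤ g` because `g ^ T ≡ 1`, `T ≥ 1`).  So the sum over any `p T` consecutive `k` is
`0`, and the sum over `range N` is a sum over fewer than `p T ≤ p ^ n` terms.
-/

set_option autoImplicit false

open Finset

namespace Pool.Agent.Helper17.KW

theorem C3_norm_sum_le (f : ℕ → ℂ) (hf : ∀ k, ‖f k‖ ≤ 1) (m : ℕ) :
    ‖∑ k ∈ range m, f k‖ ≤ m := by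
  calc ‖∑ k ∈ range m, f k‖ ≤ ∑ k ∈ range m, ‖f k‖ := norm_sum_le _ _
    _ ≤ ∑ _k ∈ range m, (1 : ℝ) := sum_le_sum fun k _ => hf k
    _ = m := by simp

theorem C3_shift (N m : ℕ) (f : ℕ → ℂ) (hf : ∀ k, ‖f k‖ ≤ 1) :
    ‖∑ k ∈ range N, f k - ∑ k ∈ range N, f (k + m)‖ ≤ 2 * m := by
  have h1 : ∑ k ∈ range (m + N), f k = ∑ k ∈ range m, f k + ∑ k ∈ range N, f (m + k) :=
    sum_range_add f m N
  have h2 : ∑ k ∈ range (N + m), f k = ∑ k ∈ range N, f k + ∑ k ∈ range m, f (N + k) :=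
    sum_range_add f N m
  have h3 : ∑ k ∈ range N, f k - ∑ k ∈ range N, f (k + m) =
      ∑ k ∈ range m, f k - ∑ k ∈ range m, f (N + k) := by
    rw [add_comm N m] at h2
    have h4 : ∑ k ∈ range N, f (k + m) = ∑ k ∈ range N, f (m + k) :=
      sum_congr rfl fun k _ => by rw [add_comm]
    rw [h4]
    linear_combination h1 - h2
  rw [h3]
  have a1 := C3_norm_sum_le f hf m
  have a2 := C3_norm_sum_le (fun k => f (N + k)) (fun k => hf _) m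
  calc _ ≤ ‖∑ k ∈ range m, f k‖ + ‖∑ k ∈ range m, f (N + k)‖ := norm_sub_le _ _
    _ ≤ 2 * m := by linarith

theorem shift_sum (N T Y : ℕ) (f : ℕ → ℂ) (hf : ∀ k, ‖f k‖ ≤ 1) (hY : 1 ≤ Y) :
    ‖∑ k ∈ range N, f k‖ ≤
      (∑ k ∈ range N, ‖∑ x ∈ Icc 1 Y, ∑ y ∈ Icc 1 Y, f (k + T * (x * y))‖) / (Y : ℝ) ^ 2 +
        2 * T * (Y : ℝ) ^ 2 := by
  have hYpos : (0 : ℝ) < (Y : ℝ) ^ 2 := by
    have : (0 : ℝ) < Y := by exact_mod_cast hY
    positivity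
  set A : ℂ := ∑ k ∈ range N, f k with hA
  -- the average
  have h1 : ((Y : ℂ) ^ 2) * A = ∑ k ∈ range N, ∑ x ∈ Icc 1 Y, ∑ y ∈ Icc 1 Y, f (k + T * (x * y)) +
      ∑ x ∈ Icc 1 Y, ∑ y ∈ Icc 1 Y, (A - ∑ k ∈ range N, f (k + T * (x * y))) := by
    have e1 : ∑ k ∈ range N, ∑ x ∈ Icc 1 Y, ∑ y ∈ Icc 1 Y, f (k + T * (x * y)) =
        ∑ x ∈ Icc 1 Y, ∑ y ∈ Icc 1 Y, ∑ k ∈ range N, f (k + T * (x * y)) := by
      rw [sum_comm]
      refine sum_congr rfl fun x _ => ?_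
      rw [sum_comm]
    rw [e1, ← sum_add_distrib]
    have e2 : ∀ x ∈ Icc 1 Y, ∑ y ∈ Icc 1 Y, ∑ k ∈ range N, f (k + T * (x * y)) +
        ∑ y ∈ Icc 1 Y, (A - ∑ k ∈ range N, f (k + T * (x * y))) = (Y : ℂ) * A := by
      intro x _
      rw [← sum_add_distrib]
      have : ∀ y ∈ Icc 1 Y, ∑ k ∈ range N, f (k + T * (x * y)) +
          (A - ∑ k ∈ range N, f (k + T * (x * y))) = A := fun y _ => by ring
      rw [sum_congr rfl this]
      simp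
    rw [sum_congr rfl e2]
    simp
    ring
  have h2 : ‖((Y : ℂ) ^ 2) * A‖ = (Y : ℝ) ^ 2 * ‖A‖ := by
    rw [norm_mul, norm_pow]
    simp
  have h3 : ‖∑ x ∈ Icc 1 Y, ∑ y ∈ Icc 1 Y, (A - ∑ k ∈ range N, f (k + T * (x * y)))‖ ≤
      (Y : ℝ) ^ 2 * (2 * T * (Y : ℝ) ^ 2) := by
    calc _ ≤ ∑ x ∈ Icc 1 Y, ‖∑ y ∈ Icc 1 Y, (A - ∑ k ∈ range N, f (k + T * (x * y)))‖ :=
          norm_sum_le _ _
      _ ≤ ∑ x ∈ Icc 1 Y, ∑ y ∈ Icc 1 Y, ‖A - ∑ k ∈ range N, f (k + T * (x * y))‖ :=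
          sum_le_sum fun x _ => norm_sum_le _ _
      _ ≤ ∑ _x ∈ Icc 1 Y, ∑ _y ∈ Icc 1 Y, (2 * T * (Y : ℝ) ^ 2) := by
          refine sum_le_sum fun x hx => sum_le_sum fun y hy => ?_
          have hxy := C3_shift N (T * (x * y)) f hf
          refine hxy.trans ?_
          have hx' : (x : ℝ) ≤ Y := by exact_mod_cast (mem_Icc.1 hx).2
          have hy' : (y : ℝ) ≤ Y := by exact_mod_cast (mem_Icc.1 hy).2
          push_cast
          have : (x : ℝ) * y ≤ (Y : ℝ) ^ 2 := by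
            have := mul_le_mul hx' hy' (by positivity) (by positivity)
            nlinarith
          have hT0 : (0 : ℝ) ≤ T := by positivity
          nlinarith [mul_le_mul_of_nonneg_left this hT0]
      _ = (Y : ℝ) ^ 2 * (2 * T * (Y : ℝ) ^ 2) := by
          simp
          ring
  have h4 : (Y : ℝ) ^ 2 * ‖A‖ ≤
      ∑ k ∈ range N, ‖∑ x ∈ Icc 1 Y, ∑ y ∈ Icc 1 Y, f (k + T * (x * y))‖ +
        (Y : ℝ) ^ 2 * (2 * T * (Y : ℝ) ^ 2) := by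
    rw [← h2, h1]
    refine (norm_add_le _ _).trans (add_le_add (norm_sum_le _ _) h3)
  have h5 : (∑ k ∈ range N, ‖∑ x ∈ Icc 1 Y, ∑ y ∈ Icc 1 Y, f (k + T * (x * y))‖) / (Y : ℝ) ^ 2 +
        2 * T * (Y : ℝ) ^ 2 =
      (∑ k ∈ range N, ‖∑ x ∈ Icc 1 Y, ∑ y ∈ Icc 1 Y, f (k + T * (x * y))‖ +
        (Y : ℝ) ^ 2 * (2 * T * (Y : ℝ) ^ 2)) / (Y : ℝ) ^ 2 := by
    field_simp
  rw [h5, le_div_iff₀ hYpos, mul_comm]
  exact h4

theorem C3_e_add (x y : ℝ) : e (x + y) = e x * e y := by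
  unfold e
  rw [← Complex.exp_add]
  congr 1
  push_cast
  ring

theorem C3_e_int (z : ℤ) : e (z : ℝ) = 1 := by
  unfold e
  rw [Complex.exp_eq_one_iff]
  exact ⟨z, by push_cast; ring⟩

theorem C3_norm_e (x : ℝ) : ‖e x‖ = 1 := by
  unfold e
  rw [Complex.norm_exp]
  simp

theorem C3_e_nat_mul (i : ℕ) (x : ℝ) : e (i * x) = e x ^ i := by
  unfold e
  rw [← Complex.exp_nat_mul]
  congr 1
  push_cast
  ring

theorem C3_geom (p : ℕ) (hp : 0 < p) (c : ℤ) (hc : ¬ (p : ℤ) ∣ c) :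
    ∑ i ∈ range p, e (i * ((c : ℝ) / p)) = 0 := by
  have hp0 : (p : ℝ) ≠ 0 := by exact_mod_cast hp.ne'
  have h1 : e ((c : ℝ) / p) ≠ 1 := by
    intro h
    unfold e at h
    rw [Complex.exp_eq_one_iff] at h
    obtain ⟨m, hm⟩ := h
    apply hc
    have hpi : (Real.pi : ℂ) ≠ 0 := by exact_mod_cast Real.pi_ne_zero
    have h2 : (((c : ℝ) / p : ℝ) : ℂ) = (m : ℂ) := by
      have : (2 * (Real.pi : ℂ) * Complex.I) * ((((c : ℝ) / p : ℝ) : ℂ) - m) = 0 := by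
        linear_combination hm
      rcases mul_eq_zero.1 this with h | h
      · exfalso
        simp [hpi] at h
      · exact sub_eq_zero.1 h
    have h3 : (c : ℝ) / p = (m : ℝ) := by exact_mod_cast h2
    rw [div_eq_iff hp0] at h3
    have h4 : c = m * p := by exact_mod_cast h3
    exact ⟨m, by rw [h4]; ring⟩
  have h2 : e ((c : ℝ) / p) ^ p = 1 := by
    rw [← C3_e_nat_mul]
    have : (p : ℝ) * ((c : ℝ) / p) = (c : ℝ) := by field_simp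
    rw [this]
    exact C3_e_int c
  have h3 : ∑ i ∈ range p, e (i * ((c : ℝ) / p)) = ∑ i ∈ range p, e ((c : ℝ) / p) ^ i :=
    sum_congr rfl fun i _ => C3_e_nat_mul i _
  rw [h3, geom_sum_eq h1, h2]
  simp

theorem C3_pow (p n : ℕ) (w : ℤ) (hn : 2 ≤ n) (i : ℕ) :
    ∃ z : ℤ, (1 + (p : ℤ) ^ (n - 1) * w) ^ i = 1 + i * ((p : ℤ) ^ (n - 1) * w) + (p : ℤ) ^ n * z := by
  induction i with
  | zero => exact ⟨0, by simp⟩
  | succ i ih =>
    obtain ⟨z, hz⟩ := ih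
    have hsq : ((p : ℤ) ^ (n - 1) * w) ^ 2 = (p : ℤ) ^ n * ((p : ℤ) ^ (n - 2) * w ^ 2) := by
      rw [mul_pow, ← pow_mul, ← mul_assoc, ← pow_add]
      congr 2
      omega
    refine ⟨z * (1 + (p : ℤ) ^ (n - 1) * w) + i * ((p : ℤ) ^ (n - 2) * w ^ 2), ?_⟩
    rw [pow_succ, hz]
    push_cast
    linear_combination (i : ℤ) * hsq

theorem C3_period (p g n T : ℕ) (w d : ℤ) (hp : p.Prime) (hn : 2 ≤ n) (hT : 1 ≤ T)
    (hg : (g : ℤ) ^ T = 1 + (p : ℤ) ^ (n - 1) * w) (hw : ¬ (p : ℤ) ∣ w)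
    (hd : ¬ (p : ℤ) ∣ d) (k₀ : ℕ) :
    ∑ i ∈ range p, e ((d : ℝ) * (g : ℝ) ^ (k₀ + i * T) / (p : ℝ) ^ n) = 0 := by
  have hpZ : Prime (p : ℤ) := Nat.prime_iff_prime_int.1 hp
  have hp0 : (p : ℝ) ≠ 0 := by exact_mod_cast hp.pos.ne'
  have hgp : ¬ (p : ℤ) ∣ g := by
    intro h
    have h1 : (p : ℤ) ∣ (g : ℤ) ^ T := dvd_pow h (by omega)
    rw [hg] at h1
    have h2 : (p : ℤ) ∣ (p : ℤ) ^ (n - 1) * w := (dvd_pow_self _ (by omega)).mul_right _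
    have h3 : (p : ℤ) ∣ 1 := (dvd_add_left h2).1 h1
    exact hpZ.not_dvd_one h3
  have hc : ¬ (p : ℤ) ∣ d * (g : ℤ) ^ k₀ * w := by
    intro h
    rcases hpZ.dvd_or_dvd h with h | h
    · rcases hpZ.dvd_or_dvd h with h | h
      · exact hd h
      · exact hgp (hpZ.dvd_of_dvd_pow h)
    · exact hw h
  have key : ∀ i ∈ range p, e ((d : ℝ) * (g : ℝ) ^ (k₀ + i * T) / (p : ℝ) ^ n) =
      e ((d : ℝ) * (g : ℝ) ^ k₀ / (p : ℝ) ^ n) *
        e (i * (((d * (g : ℤ) ^ k₀ * w : ℤ) : ℝ) / p)) := by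
    intro i _
    obtain ⟨z, hz⟩ := C3_pow p n w hn i
    have h1 : (g : ℤ) ^ (k₀ + i * T) =
        (g : ℤ) ^ k₀ * (1 + i * ((p : ℤ) ^ (n - 1) * w) + (p : ℤ) ^ n * z) := by
      rw [pow_add, mul_comm i T, pow_mul, hg, hz]
    have h2 : (g : ℝ) ^ (k₀ + i * T) =
        (g : ℝ) ^ k₀ * (1 + i * ((p : ℝ) ^ (n - 1) * w) + (p : ℝ) ^ n * z) := by
      exact_mod_cast h1
    have hpn : (p : ℝ) ^ n = (p : ℝ) ^ (n - 1) * p := by
      rw [← pow_succ]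
      congr 1
      omega
    have h3 : (d : ℝ) * (g : ℝ) ^ (k₀ + i * T) / (p : ℝ) ^ n =
        (d : ℝ) * (g : ℝ) ^ k₀ / (p : ℝ) ^ n +
          i * (((d * (g : ℤ) ^ k₀ * w : ℤ) : ℝ) / p) + ((d * (g : ℤ) ^ k₀ * z : ℤ) : ℝ) := by
      rw [h2]
      push_cast
      rw [hpn]
      have hpn1 : (p : ℝ) ^ (n - 1) ≠ 0 := pow_ne_zero _ hp0
      field_simp
    rw [h3, C3_e_add, C3_e_add, C3_e_int, mul_one]
  rw [sum_congr rfl key, ← mul_sum, C3_geom p hp.pos _ hc, mul_zero]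

theorem C3_block (T p : ℕ) (F : ℕ → ℂ) :
    ∑ k ∈ range (p * T), F k = ∑ r ∈ range T, ∑ i ∈ range p, F (r + i * T) := by
  induction p with
  | zero => simp
  | succ p ih =>
    rw [Nat.succ_mul, sum_range_add, ih, ← sum_add_distrib]
    refine sum_congr rfl fun r _ => ?_
    rw [sum_range_succ, add_comm (p * T) r]

theorem C3_zero (P : ℕ) (F : ℕ → ℂ) (h : ∀ m, ∑ k ∈ range P, F (m + k) = 0) (q : ℕ) :
    ∑ k ∈ range (q * P), F k = 0 := by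
  induction q with
  | zero => simp
  | succ q ih => rw [Nat.succ_mul, sum_range_add, ih, h, add_zero]

theorem complete_sum (p g n T : ℕ) (w d : ℤ) (hp : p.Prime) (hn : 2 ≤ n) (hT : 1 ≤ T)
    (hT' : T ≤ p ^ (n - 1)) (hg : (g : ℤ) ^ T = 1 + (p : ℤ) ^ (n - 1) * w) (hw : ¬ (p : ℤ) ∣ w)
    (hd : ¬ (p : ℤ) ∣ d) (N : ℕ) :
    ‖∑ k ∈ range N, e ((d : ℝ) * (g : ℝ) ^ k / (p : ℝ) ^ n)‖ ≤ (p : ℝ) ^ n := by
  set F : ℕ → ℂ := fun k => e ((d : ℝ) * (g : ℝ) ^ k / (p : ℝ) ^ n) with hF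
  have hper : ∀ m, ∑ k ∈ range (p * T), F (m + k) = 0 := by
    intro m
    rw [C3_block T p (fun k => F (m + k))]
    refine sum_eq_zero fun r _ => ?_
    have := C3_period p g n T w d hp hn hT hg hw hd (m + r)
    rw [← this]
    refine sum_congr rfl fun i _ => ?_
    simp only [hF]
    rw [add_assoc]
  have hPpos : 0 < p * T := Nat.mul_pos hp.pos (by omega)
  have hN : N = N / (p * T) * (p * T) + N % (p * T) := by
    rw [mul_comm]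
    exact (Nat.div_add_mod N (p * T)).symm
  have h1 : ∑ k ∈ range N, F k =
      ∑ k ∈ range (N % (p * T)), F (N / (p * T) * (p * T) + k) := by
    conv_lhs => rw [hN]
    rw [sum_range_add, C3_zero (p * T) F hper, zero_add]
  change ‖∑ k ∈ range N, F k‖ ≤ _
  rw [h1]
  have h2 := C3_norm_sum_le (fun k => F (N / (p * T) * (p * T) + k))
    (fun k => (C3_norm_e _).le) (N % (p * T))
  refine h2.trans ?_
  have h3 : N % (p * T) ≤ p * T := (Nat.mod_lt _ hPpos).le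
  have h4 : p * T ≤ p ^ n := by
    calc p * T ≤ p * p ^ (n - 1) := Nat.mul_le_mul_left _ hT'
      _ = p ^ n := by
        rw [← pow_succ']
        congr 1
        omega
  exact_mod_cast h3.trans h4

end Pool.Agent.Helper17.KW
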