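import Mathlib
import Pool.Agent.Helper17.KW.Defs

/-!
# KW-A6: elementary properties of the mean value

Proof.
* `shift_ps`: binomial theorem; the power sum of degree `0` is the number of variables.
* `card_diff_le`: put `r v = #{x ∈ tup m X | ps x j = v j for 1 ≤ j ≤ D}` for a vector `v`
  (e.g. `v : Fin D → ℤ`).  The left side is `∑_v r v * r (v - c)`, and by
  `2 a b ≤ a ^ 2 + b ^ 2` it is at most `∑_v (r v) ^ 2 = J D m X`.
* `J_mono`: clear.  `J_image`: the map `(x_i) ↦ (a + p x_i)` is injective and, by `shift_ps` (and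
  dividing by `p ^ j`), solutions for the image come from solutions for `X`.
* `J_cls`: if `u0 ∈ [1, p]` is the representative of `u`, then `cls p u (Icc 1 P)` is contained in the
  image of `Icc 1 (P / p + 1)` under `w ↦ u0 + p (w - 1)`.
* `J_add_le`: write the `m + k` variables as `Fin.append x z` (`Fin.appendEquiv`, `Fin.sum_univ_add`);
  for fixed values of the last `k` variables on both sides the number of solutions is at most
  `J D m X` by `card_diff_le`.
-/

set_option autoImplicit false

open Finset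

namespace Pool.Agent.Helper17.KW

lemma A6_ps_shift {b : ℕ} (x : Fin b → ℤ) (a : ℤ) (j : ℕ) :
    ps (fun i => x i + a) j = ∑ k ∈ range (j + 1), ps x k * (a ^ (j - k) * (j.choose k : ℤ)) := by
  unfold ps
  simp only [add_pow, Finset.sum_mul]
  rw [Finset.sum_comm]
  refine Finset.sum_congr rfl fun k _ => Finset.sum_congr rfl fun i _ => ?_
  ring

theorem shift_ps {D b : ℕ} (x y : Fin b → ℤ) (a : ℤ) (h : ∀ j ∈ Icc 1 D, ps x j = ps y j) :
    ∀ j ∈ Icc 1 D, ps (fun i => x i + a) j = ps (fun i => y i + a) j := by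
  intro j hj
  rw [A6_ps_shift, A6_ps_shift]
  refine Finset.sum_congr rfl fun k hk => ?_
  rw [mem_range] at hk
  rw [mem_Icc] at hj
  rcases Nat.eq_zero_or_pos k with rfl | hk0
  · simp [ps]
  · rw [h k (by rw [mem_Icc]; omega)]

lemma A6_key {α β : Type*} [DecidableEq β] (T : Finset α) (f g : α → β)
    [DecidablePred fun p : α × α => f p.1 = g p.2] [DecidablePred fun p : α × α => f p.1 = f p.2]
    [DecidablePred fun p : α × α => g p.1 = g p.2] :
    2 * ((T ×ˢ T).filter fun p : α × α => f p.1 = g p.2).card ≤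
      ((T ×ˢ T).filter fun p : α × α => f p.1 = f p.2).card +
        ((T ×ˢ T).filter fun p : α × α => g p.1 = g p.2).card := by
  have key : ∀ (u v : α → β) [DecidablePred fun p : α × α => u p.1 = v p.2] (V : Finset β),
      (∀ x ∈ T, u x ∈ V) → ((T ×ˢ T).filter fun p : α × α => u p.1 = v p.2).card =
        ∑ w ∈ V, (T.filter fun x => u x = w).card * (T.filter fun x => v x = w).card := by
    intro u v _ V hV
    rw [Finset.card_eq_sum_card_fiberwise (f := fun p : α × α => u p.1) (t := V)]
    · refine Finset.sum_congr rfl fun w _ => ?_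
      rw [← Finset.card_product]
      congr 1
      ext ⟨x, y⟩
      simp only [mem_filter, mem_product]
      constructor
      · rintro ⟨⟨⟨h1, h2⟩, h3⟩, h4⟩
        exact ⟨⟨h1, h4⟩, h2, by rw [← h3]; exact h4⟩
      · rintro ⟨⟨h1, h2⟩, h3, h4⟩
        exact ⟨⟨⟨h1, h3⟩, by rw [h2, h4]⟩, h2⟩
    · intro p hp
      simp only [coe_filter, Set.mem_ofPred_eq, mem_product] at hp
      exact hV _ hp.1.1
  rw [key f g (T.image f ∪ T.image g) fun x hx => mem_union_left _ (mem_image_of_mem f hx),
    key f f (T.image f ∪ T.image g) fun x hx => mem_union_left _ (mem_image_of_mem f hx),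
    key g g (T.image f ∪ T.image g) fun x hx => mem_union_right _ (mem_image_of_mem g hx),
    Finset.mul_sum, ← Finset.sum_add_distrib]
  refine Finset.sum_le_sum fun w _ => ?_
  generalize (T.filter fun x => f x = w).card = a
  generalize (T.filter fun x => g x = w).card = b
  have : 2 * (a * b) ≤ a ^ 2 + b ^ 2 := by
    have h := two_mul_le_add_sq a b
    linarith
  nlinarith

open Classical in
theorem card_diff_le (D m : ℕ) (X : Finset ℤ) (c : ℕ → ℤ) :
    ((tup m X ×ˢ tup m X).filter fun q : (Fin m → ℤ) × (Fin m → ℤ) =>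
      ∀ j ∈ Icc 1 D, ps q.1 j = ps q.2 j + c j).card ≤ J D m X := by
  have h := A6_key (tup m X) (fun x => fun j : ℕ => if j ∈ Icc 1 D then ps x j else 0)
    (fun x => fun j : ℕ => if j ∈ Icc 1 D then ps x j + c j else 0)
  have e1 : ∀ q : (Fin m → ℤ) × (Fin m → ℤ),
      ((fun j : ℕ => if j ∈ Icc 1 D then ps q.1 j else 0) =
        (fun j : ℕ => if j ∈ Icc 1 D then ps q.2 j + c j else 0)) ↔
      ∀ j ∈ Icc 1 D, ps q.1 j = ps q.2 j + c j := by
    intro q
    constructor
    · intro h j hj
      have := congrFun h j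
      simpa [hj] using this
    · intro h
      funext j
      by_cases hj : j ∈ Icc 1 D
      · simp only [hj, if_true]
        exact h j hj
      · simp only [hj, if_false]
  have e2 : ∀ q : (Fin m → ℤ) × (Fin m → ℤ),
      ((fun j : ℕ => if j ∈ Icc 1 D then ps q.1 j else 0) =
        (fun j : ℕ => if j ∈ Icc 1 D then ps q.2 j else 0)) ↔
      ∀ j ∈ Icc 1 D, ps q.1 j = ps q.2 j := by
    intro q
    constructor
    · intro h j hj
      have := congrFun h j
      simpa [hj] using this
    · intro h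
      funext j
      by_cases hj : j ∈ Icc 1 D
      · simp only [hj, if_true]
        exact h j hj
      · simp only [hj, if_false]
  have e3 : ∀ q : (Fin m → ℤ) × (Fin m → ℤ),
      ((fun j : ℕ => if j ∈ Icc 1 D then ps q.1 j + c j else 0) =
        (fun j : ℕ => if j ∈ Icc 1 D then ps q.2 j + c j else 0)) ↔
      ∀ j ∈ Icc 1 D, ps q.1 j = ps q.2 j := by
    intro q
    constructor
    · intro h j hj
      have := congrFun h j
      simpa [hj] using this
    · intro h
      funext j
      by_cases hj : j ∈ Icc 1 D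
      · simp only [hj, if_true]
        rw [h j hj]
      · simp only [hj, if_false]
  simp only [e1, e2, e3] at h
  have h4 : 2 * ((tup m X ×ˢ tup m X).filter fun q : (Fin m → ℤ) × (Fin m → ℤ) =>
      ∀ j ∈ Icc 1 D, ps q.1 j = ps q.2 j + c j).card ≤ 2 * J D m X := by
    rw [two_mul (J D m X)]
    unfold J
    convert h
  omega

theorem J_mono {D b : ℕ} {X Y : Finset ℤ} (h : X ⊆ Y) : J D b X ≤ J D b Y := by
  classical
  unfold J
  have h1 : tup b X ⊆ tup b Y := by
    unfold tup
    exact Fintype.piFinset_subset _ _ fun _ => h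
  apply Finset.card_le_card
  intro q hq
  simp only [mem_filter, mem_product] at hq ⊢
  exact ⟨⟨h1 hq.1.1, h1 hq.1.2⟩, hq.2⟩

theorem J_image (D b : ℕ) (X : Finset ℤ) (a p : ℤ) (hp : p ≠ 0) :
    J D b (X.image fun x => a + p * x) ≤ J D b X := by
  classical
  unfold J
  have key : ∀ z : Fin b → ℤ, z ∈ tup b (X.image fun x => a + p * x) →
      (fun i => (z i - a) / p) ∈ tup b X ∧ ∀ i, z i = p * ((z i - a) / p) + a := by
    intro z hz
    unfold tup at hz ⊢
    rw [Fintype.mem_piFinset] at hz
    have h1 : ∀ i, (z i - a) / p ∈ X ∧ z i = p * ((z i - a) / p) + a := by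
      intro i
      have := hz i
      rw [mem_image] at this
      obtain ⟨x, hx, hxz⟩ := this
      have h2 : (z i - a) / p = x := by
        rw [← hxz]
        have : a + p * x - a = p * x := by ring
        rw [this, Int.mul_ediv_cancel_left _ hp]
      rw [h2]
      exact ⟨hx, by rw [← hxz]; ring⟩
    exact ⟨by rw [Fintype.mem_piFinset]; exact fun i => (h1 i).1, fun i => (h1 i).2⟩
  apply Finset.card_le_card_of_injOn
    (fun q : (Fin b → ℤ) × (Fin b → ℤ) => ((fun i => (q.1 i - a) / p), (fun i => (q.2 i - a) / p)))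
  · intro q hq
    simp only [coe_filter, Set.mem_ofPred_eq, mem_product] at hq ⊢
    obtain ⟨⟨h1, h2⟩, h3⟩ := hq
    obtain ⟨k1, k1'⟩ := key _ h1
    obtain ⟨k2, k2'⟩ := key _ h2
    refine ⟨⟨k1, k2⟩, ?_⟩
    have h4 := shift_ps q.1 q.2 (-a) h3
    intro j hj
    have h5 := h4 j hj
    have h6 : ∀ (z : Fin b → ℤ), (∀ i, z i = p * ((z i - a) / p) + a) →
        ps (fun i => z i + -a) j = p ^ j * ps (fun i => (z i - a) / p) j := by
      intro z hz
      unfold ps
      rw [Finset.mul_sum]
      refine Finset.sum_congr rfl fun i _ => ?_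
      rw [← mul_pow]
      congr 1
      have := hz i
      linarith
    rw [h6 _ k1', h6 _ k2'] at h5
    exact mul_left_cancel₀ (pow_ne_zero j hp) h5
  · intro q hq q' hq' h
    simp only [coe_filter, Set.mem_ofPred_eq, mem_product] at hq hq'
    obtain ⟨k1, k1'⟩ := key _ hq.1.1
    obtain ⟨k2, k2'⟩ := key _ hq.1.2
    obtain ⟨l1, l1'⟩ := key _ hq'.1.1
    obtain ⟨l2, l2'⟩ := key _ hq'.1.2
    simp only [Prod.mk.injEq] at h
    ext i
    · rw [k1' i, l1' i, congrFun h.1 i]
    · rw [k2' i, l2' i, congrFun h.2 i]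

theorem J_cls (D b P p : ℕ) (hp : 0 < p) (u : ZMod p) :
    J D b (cls p u (Icc 1 (P : ℤ))) ≤ J D b (Icc 1 ((P / p + 1 : ℕ) : ℤ)) := by
  classical
  have : NeZero p := ⟨hp.ne'⟩
  -- a representative in `[1, p]`
  obtain ⟨u0, hu1, hu2, hu0⟩ : ∃ u0 : ℤ, 1 ≤ u0 ∧ u0 ≤ p ∧ ((u0 : ℤ) : ZMod p) = u := by
    by_cases h : u.val = 0
    · refine ⟨p, by exact_mod_cast hp, le_rfl, ?_⟩
      rw [ZMod.val_eq_zero] at h
      rw [h]
      simp
    · refine ⟨u.val, by omega, by exact_mod_cast (ZMod.val_lt u).le, ?_⟩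
      simp
  refine (J_mono ?_).trans (J_image D b (Icc 1 ((P / p + 1 : ℕ) : ℤ)) (u0 - p) p (by exact_mod_cast hp.ne'))
  intro x hx
  unfold cls at hx
  rw [mem_filter, mem_Icc] at hx
  obtain ⟨⟨hx1, hx2⟩, hx3⟩ := hx
  rw [mem_image]
  have h1 : ((x - u0 : ℤ) : ZMod p) = 0 := by
    push_cast
    rw [hx3, hu0, sub_self]
  rw [ZMod.intCast_zmod_eq_zero_iff_dvd] at h1
  obtain ⟨w, hw⟩ := h1
  refine ⟨w + 1, ?_, by rw [mul_add, ← hw]; ring⟩
  rw [mem_Icc]
  have hpz : (0 : ℤ) < p := by exact_mod_cast hp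
  constructor
  · have : -(p : ℤ) < p * w := by rw [← hw]; linarith
    by_contra hcon
    push Not at hcon
    have h2 : w ≤ -1 := by omega
    nlinarith
  · push_cast
    have h2 : (p : ℤ) * w ≤ P := by rw [← hw]; linarith
    have h3 : w ≤ P / p := by
      rw [Int.le_ediv_iff_mul_le hpz]
      linarith
    omega

theorem J_add_le (D m k : ℕ) (X : Finset ℤ) :
    J D (m + k) X ≤ X.card ^ (2 * k) * J D m X := by
  classical
  have hcard : (tup k X ×ˢ tup k X).card = X.card ^ (2 * k) := by
    rw [card_product]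
    unfold tup
    rw [Fintype.card_piFinset_const]
    rw [two_mul, pow_add]
  rw [← hcard]
  unfold J
  rw [Finset.card_eq_sum_card_fiberwise
    (f := fun q : (Fin (m + k) → ℤ) × (Fin (m + k) → ℤ) =>
      ((fun i : Fin k => q.1 (Fin.natAdd m i)), (fun i : Fin k => q.2 (Fin.natAdd m i))))
    (t := tup k X ×ˢ tup k X)]
  · rw [← smul_eq_mul, ← Finset.sum_const]
    refine Finset.sum_le_sum fun zt _ => ?_
    obtain ⟨z, t⟩ := zt
    have h1 := card_diff_le D m X (fun j => ps t j - ps z j)
    refine le_trans ?_ h1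
    apply Finset.card_le_card_of_injOn
      (fun q : (Fin (m + k) → ℤ) × (Fin (m + k) → ℤ) =>
        ((fun i : Fin m => q.1 (Fin.castAdd k i)), (fun i : Fin m => q.2 (Fin.castAdd k i))))
    · intro q hq
      simp only [coe_filter, Set.mem_ofPred_eq, mem_product, mem_filter, Prod.mk.injEq] at hq ⊢
      obtain ⟨⟨⟨h2, h3⟩, h4⟩, h5, h6⟩ := hq
      unfold tup at h2 h3 ⊢
      rw [Fintype.mem_piFinset] at h2 h3
      refine ⟨⟨?_, ?_⟩, ?_⟩
      · rw [Fintype.mem_piFinset]; exact fun i => h2 _
      · rw [Fintype.mem_piFinset]; exact fun i => h3 _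
      · intro j hj
        have h7 := h4 j hj
        have h8 : ∀ w : Fin (m + k) → ℤ, ps w j = ps (fun i : Fin m => w (Fin.castAdd k i)) j +
            ps (fun i : Fin k => w (Fin.natAdd m i)) j := by
          intro w
          unfold ps
          rw [Fin.sum_univ_add]
        rw [h8 q.1, h8 q.2, h5, h6] at h7
        linarith
    · intro q hq q' hq' h
      simp only [coe_filter, Set.mem_ofPred_eq, mem_filter, Prod.mk.injEq] at hq hq' h
      obtain ⟨-, h5, h6⟩ := hq
      obtain ⟨-, h5', h6'⟩ := hq'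
      ext i
      · induction i using Fin.addCases with
        | left i => exact congrFun h.1 i
        | right i => exact (congrFun h5 i).trans (congrFun h5' i).symm
      · induction i using Fin.addCases with
        | left i => exact congrFun h.2 i
        | right i => exact (congrFun h6 i).trans (congrFun h6' i).symm
  · intro q hq
    simp only [coe_filter, Set.mem_ofPred_eq, mem_product] at hq
    obtain ⟨⟨h2, h3⟩, -⟩ := hq
    unfold tup at h2 h3
    rw [Fintype.mem_piFinset] at h2 h3
    simp only [coe_product, Set.mem_prod, mem_coe, tup, Fintype.mem_piFinset]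
    exact ⟨fun i => h2 _, fun i => h3 _⟩

end Pool.Agent.Helper17.KW
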