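import Mathlib
import Pool.Agent.Helper17.KW.St.A6

/-!
# KW-B1: the double sum and the mean value

Proof.  Write `X = Icc 1 Y`, `q = (x, x')` for a pair of `t`-tuples of elements of `X`,
`λ_q j = ps x (j + 1) - ps x' (j + 1)` (`j : Fin D`), so `|λ_q j| ≤ t Y ^ (j + 1)`, and
`g v = ∑_{y ∈ Icc 1 Y} e (∑_j α j * v j * y ^ (j + 1))` for `v : Fin D → ℤ`.
Step 1.  By the power mean inequality and `‖z‖ ^ (2 t) = z ^ t * conj z ^ t`,
`‖B‖ ^ (2 t) ≤ Y ^ (2 t - 1) ∑_y ‖∑_x e (∑_j α j (x y) ^ (j + 1))‖ ^ (2 t)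
 = Y ^ (2 t - 1) ∑_y ∑_q e (∑_j α j λ_q j y ^ (j + 1)) ≤ Y ^ (2 t - 1) ∑_q ‖g λ_q‖`.
Step 2.  There are `Y ^ (2 t)` pairs `q`, so
`(∑_q ‖g λ_q‖) ^ (2 t) ≤ Y ^ (2 t (2 t - 1)) ∑_q ‖g λ_q‖ ^ (2 t)`, and for each `v` in
`V = {v | |v j| ≤ t Y ^ (j + 1)}` there are at most `J D t X` pairs `q` with `λ_q = v`
(`card_diff_le`).  So `∑_q ‖g λ_q‖ ^ (2 t) ≤ J D t X * ∑_{v ∈ V} ‖g v‖ ^ (2 t)`.
Step 3.  `∑_{v ∈ V} ‖g v‖ ^ (2 t) = ∑_{v ∈ V} ∑_q e (∑_j α j v j λ_q j)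
 ≤ J D t X * ∑_{μ ∈ V} ‖∑_{v ∈ V} e (∑_j α j v j μ j)‖`, and the last sum is the product over `j` of
`∑_{μ ∈ box (t Y ^ (j + 1))} ‖∑_{ν ∈ box (t Y ^ (j + 1))} e (α j * (ν * μ))‖`.
Together: `‖B‖ ^ (4 t ^ 2) ≤ Y ^ (2 t (2 t - 1)) * Y ^ (2 t (2 t - 1)) * J ^ 2 * ∏ ...`.
-/

set_option autoImplicit false

open Finset

namespace Pool.Agent.Helper17.KW

lemma B1_e_add (x y : ℝ) : e (x + y) = e x * e y := by
  unfold e; rw [← Complex.exp_add]; congr 1; push_cast; ring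

lemma B1_e_zero : e 0 = 1 := by
  unfold e; simp

lemma B1_conj_e (x : ℝ) : (starRingEnd ℂ) (e x) = e (-x) := by
  unfold e; rw [← Complex.exp_conj]; congr 1
  simp only [map_mul, Complex.conj_I, Complex.conj_ofReal, map_ofNat]
  push_cast; ring

lemma B1_e_sum {ι : Type*} (s : Finset ι) (f : ι → ℝ) : e (∑ i ∈ s, f i) = ∏ i ∈ s, e (f i) := by
  classical
  induction s using Finset.induction_on with
  | empty => simp [B1_e_zero]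
  | insert a s ha ih => rw [sum_insert ha, prod_insert ha, B1_e_add, ih]

/-- the differences of the power sums -/
def B1_lam {D t : ℕ} (q : (Fin t → ℤ) × (Fin t → ℤ)) (j : Fin D) : ℤ :=
  ps q.1 (j.1 + 1) - ps q.2 (j.1 + 1)

lemma B1_pow (D t : ℕ) (X : Finset ℤ) (β : Fin D → ℝ) :
    (∑ y ∈ X, e (∑ j : Fin D, β j * (y : ℝ) ^ (j.1 + 1))) ^ t =
      ∑ x ∈ tup t X, e (∑ j : Fin D, β j * (ps x (j.1 + 1) : ℝ)) := by
  have h1 := prod_univ_sum (fun _ : Fin t => X)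
    (fun _ y => e (∑ j : Fin D, β j * (y : ℝ) ^ (j.1 + 1)))
  rw [prod_const, card_univ, Fintype.card_fin] at h1
  rw [h1]
  refine sum_congr rfl fun x _ => ?_
  rw [← B1_e_sum, sum_comm]
  congr 1
  refine sum_congr rfl fun j _ => ?_
  rw [← mul_sum]
  congr 1
  unfold ps
  push_cast
  rfl

lemma B1_expand (D t : ℕ) (X : Finset ℤ) (β : Fin D → ℝ) :
    ((‖∑ y ∈ X, e (∑ j : Fin D, β j * (y : ℝ) ^ (j.1 + 1))‖ ^ (2 * t) : ℝ) : ℂ) =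
      ∑ q ∈ tup t X ×ˢ tup t X, e (∑ j : Fin D, β j * (B1_lam q j : ℝ)) := by
  set z := ∑ y ∈ X, e (∑ j : Fin D, β j * (y : ℝ) ^ (j.1 + 1)) with hz
  have h1 : ((‖z‖ ^ (2 * t) : ℝ) : ℂ) = z ^ t * (starRingEnd ℂ) (z ^ t) := by
    rw [pow_mul, map_pow, ← mul_pow, Complex.mul_conj']
    push_cast; rfl
  rw [h1, hz, B1_pow, map_sum, sum_mul_sum, sum_product]
  refine sum_congr rfl fun x _ => sum_congr rfl fun x' _ => ?_
  rw [B1_conj_e, ← B1_e_add, ← sub_eq_add_neg, ← sum_sub_distrib]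
  congr 1
  refine sum_congr rfl fun j _ => ?_
  unfold B1_lam
  push_cast
  ring

lemma B1_ps_mem {t Y : ℕ} (x : Fin t → ℤ) (hx : x ∈ tup t (Icc 1 (Y : ℤ))) (j : ℕ) :
    0 ≤ ps x j ∧ ps x j ≤ ((t * Y ^ j : ℕ) : ℤ) := by
  have h1 : ∀ i, 1 ≤ x i ∧ x i ≤ Y := by
    intro i
    have := (Fintype.mem_piFinset.mp hx) i
    rwa [mem_Icc] at this
  unfold ps
  constructor
  · exact sum_nonneg fun i _ => pow_nonneg (by linarith [(h1 i).1]) _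
  · calc ∑ i, x i ^ j ≤ ∑ _i : Fin t, (Y : ℤ) ^ j :=
          sum_le_sum fun i _ => pow_le_pow_left₀ (by linarith [(h1 i).1]) (h1 i).2 _
      _ = _ := by rw [sum_const, card_univ, Fintype.card_fin, nsmul_eq_mul]; push_cast; ring

lemma B1_fiber (D t Y : ℕ) (G : (Fin D → ℤ) → ℝ) (hG : ∀ v, 0 ≤ G v) :
    ∑ q ∈ tup t (Icc 1 (Y : ℤ)) ×ˢ tup t (Icc 1 (Y : ℤ)), G (B1_lam q) ≤
      J D t (Icc 1 (Y : ℤ)) * ∑ v ∈ Fintype.piFinset fun j : Fin D => box (t * Y ^ (j.1 + 1)), G v := by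
  classical
  set X : Finset ℤ := Icc 1 (Y : ℤ) with hX
  set V := Fintype.piFinset fun j : Fin D => box (t * Y ^ (j.1 + 1)) with hV
  have hmaps : ∀ q ∈ tup t X ×ˢ tup t X, (B1_lam q : Fin D → ℤ) ∈ V := by
    intro q hq
    rw [mem_product] at hq
    rw [hV, Fintype.mem_piFinset]
    intro j
    have h1 := B1_ps_mem q.1 hq.1 (j.1 + 1)
    have h2 := B1_ps_mem q.2 hq.2 (j.1 + 1)
    unfold box B1_lam
    rw [mem_Icc]
    constructor <;> linarith [h1.1, h1.2, h2.1, h2.2]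
  rw [← sum_fiberwise_of_maps_to hmaps, mul_sum]
  refine sum_le_sum fun v _ => ?_
  have h3 : ∀ q ∈ (tup t X ×ˢ tup t X).filter (fun q => (B1_lam q : Fin D → ℤ) = v),
      G (B1_lam q) = G v := by
    intro q hq
    rw [(mem_filter.mp hq).2]
  rw [sum_congr rfl h3, sum_const, nsmul_eq_mul]
  refine mul_le_mul_of_nonneg_right ?_ (hG v)
  have h4 := card_diff_le D t X (fun j => if h : j - 1 < D then v ⟨j - 1, h⟩ else 0)
  refine le_trans ?_ (Nat.cast_le.mpr h4)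
  refine Nat.cast_le.mpr (card_le_card ?_)
  intro q hq
  rw [mem_filter] at hq
  refine (@mem_filter _ _ (fun _ => Classical.propDecidable _) _ _).mpr ⟨hq.1, fun j hj => ?_⟩
  rw [mem_Icc] at hj
  have hj' : j - 1 < D := by omega
  rw [dif_pos hj']
  have h5 := congrFun hq.2 ⟨j - 1, hj'⟩
  unfold B1_lam at h5
  simp only at h5
  rw [show j - 1 + 1 = j by omega] at h5
  linarith

lemma B1_power_mean {ι : Type*} (s : Finset ι) (f : ι → ℝ) (hf : ∀ i ∈ s, 0 ≤ f i) (n : ℕ)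
    (hn : 1 ≤ n) : (∑ i ∈ s, f i) ^ n ≤ (s.card : ℝ) ^ (n - 1) * ∑ i ∈ s, f i ^ n := by
  obtain ⟨m, rfl⟩ : ∃ m, n = m + 1 := ⟨n - 1, by omega⟩
  rcases s.eq_empty_or_nonempty with rfl | hs
  · simp
  have h1 := pow_sum_div_card_le_sum_pow hf m
  rw [div_le_iff₀ (by have := hs.card_pos; positivity)] at h1
  rw [Nat.add_sub_cancel]
  linarith

theorem double_sum (D t Y : ℕ) (ht : 1 ≤ t) (hY : 1 ≤ Y) (α : Fin D → ℝ) :
    ‖∑ x ∈ Icc 1 Y, ∑ y ∈ Icc 1 Y, e (∑ j : Fin D, α j * ((x : ℝ) * y) ^ (j.1 + 1))‖ ^ (4 * t ^ 2) ≤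
      (Y : ℝ) ^ (8 * t ^ 2 - 4 * t) * (J D t (Icc 1 (Y : ℤ)) : ℝ) ^ 2 *
        ∏ j : Fin D, ∑ μ ∈ box (t * Y ^ (j.1 + 1)),
          ‖∑ ν ∈ box (t * Y ^ (j.1 + 1)), e (α j * ((ν : ℝ) * μ))‖ := by
  classical
  set X : Finset ℤ := Icc 1 (Y : ℤ) with hX
  set T := tup t X ×ˢ tup t X with hT
  set V := Fintype.piFinset fun j : Fin D => box (t * Y ^ (j.1 + 1)) with hV
  -- sums over `Icc 1 Y` in `ℕ` and in `ℤ`
  have hcast : ∀ f : ℝ → ℂ, ∑ x ∈ Icc 1 Y, f (x : ℝ) = ∑ x ∈ X, f (x : ℝ) := by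
    intro f
    refine sum_bij (fun (x : ℕ) _ => (x : ℤ)) ?_ ?_ ?_ ?_
    · intro x hx
      rw [mem_Icc] at hx
      rw [hX, mem_Icc]
      exact ⟨by exact_mod_cast hx.1, by exact_mod_cast hx.2⟩
    · intro a _ b _ hab
      exact_mod_cast hab
    · intro b hb
      rw [hX, mem_Icc] at hb
      refine ⟨b.toNat, ?_, by omega⟩
      rw [mem_Icc]; omega
    · intro a _
      push_cast; rfl
  set g : (Fin D → ℤ) → ℂ := fun v => ∑ y ∈ X, e (∑ j : Fin D, (α j * v j) * (y : ℝ) ^ (j.1 + 1))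
    with hg
  have hXc : X.card = Y := by rw [hX, Int.card_Icc]; omega
  have hTc : T.card = Y ^ (2 * t) := by
    rw [hT, card_product, tup, Fintype.card_piFinset, prod_const, hXc, card_univ, Fintype.card_fin,
      ← pow_add]
    congr 1; ring
  -- the double sum
  set B : ℂ := ∑ x ∈ Icc 1 Y, ∑ y ∈ Icc 1 Y, e (∑ j : Fin D, α j * ((x : ℝ) * y) ^ (j.1 + 1)) with hB
  set F : ℤ → ℂ := fun y => ∑ x ∈ X, e (∑ j : Fin D, (α j * (y : ℝ) ^ (j.1 + 1)) * (x : ℝ) ^ (j.1 + 1))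
    with hF
  have hBF : B = ∑ y ∈ X, F y := by
    rw [hB, sum_comm]
    have h1 : ∀ y : ℕ, ∑ x ∈ Icc 1 Y, e (∑ j : Fin D, α j * ((x : ℝ) * y) ^ (j.1 + 1)) =
        ∑ x ∈ X, e (∑ j : Fin D, α j * ((x : ℝ) * y) ^ (j.1 + 1)) := fun y =>
      hcast (fun x => e (∑ j : Fin D, α j * (x * y) ^ (j.1 + 1)))
    simp only [h1]
    rw [hcast (fun y => ∑ x ∈ X, e (∑ j : Fin D, α j * ((x : ℝ) * y) ^ (j.1 + 1)))]
    refine sum_congr rfl fun y _ => sum_congr rfl fun x _ => ?_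
    congr 1
    refine sum_congr rfl fun j _ => ?_
    rw [mul_pow]; ring
  -- step 1
  have s1 : ‖B‖ ^ (2 * t) ≤ (Y : ℝ) ^ (2 * t - 1) * ∑ q ∈ T, ‖g (B1_lam q)‖ := by
    have h1 : ‖B‖ ^ (2 * t) ≤ (∑ y ∈ X, ‖F y‖) ^ (2 * t) := by
      rw [hBF]; gcongr; exact norm_sum_le _ _
    have h2 := B1_power_mean X (fun y => ‖F y‖) (fun _ _ => norm_nonneg _) (2 * t) (by omega)
    rw [hXc] at h2
    refine h1.trans (h2.trans (mul_le_mul_of_nonneg_left ?_ (by positivity)))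
    have h3 : ((∑ y ∈ X, ‖F y‖ ^ (2 * t) : ℝ) : ℂ) = ∑ q ∈ T, g (B1_lam q) := by
      rw [Complex.ofReal_sum]
      simp only [hF, B1_expand]
      rw [sum_comm]
      refine sum_congr rfl fun q _ => sum_congr rfl fun y _ => ?_
      congr 1
      refine sum_congr rfl fun j _ => ?_
      ring
    calc ∑ y ∈ X, ‖F y‖ ^ (2 * t) = ‖((∑ y ∈ X, ‖F y‖ ^ (2 * t) : ℝ) : ℂ)‖ := by
          rw [Complex.norm_real, Real.norm_of_nonneg (sum_nonneg fun _ _ => by positivity)]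
      _ ≤ _ := by rw [h3]; exact norm_sum_le _ _
  -- step 2
  have s2 : (∑ q ∈ T, ‖g (B1_lam q)‖) ^ (2 * t) ≤ ((Y : ℝ) ^ (2 * t)) ^ (2 * t - 1) *
      (J D t X * ∑ v ∈ V, ‖g v‖ ^ (2 * t)) := by
    have h2 := B1_power_mean T (fun q => ‖g (B1_lam q)‖) (fun _ _ => norm_nonneg _) (2 * t) (by omega)
    rw [hTc] at h2
    push_cast at h2
    refine h2.trans (mul_le_mul_of_nonneg_left ?_ (by positivity))
    exact B1_fiber D t Y (fun v => ‖g v‖ ^ (2 * t)) (fun v => by positivity)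
  -- step 3
  have s3 : ∑ v ∈ V, ‖g v‖ ^ (2 * t) ≤ J D t X * ∏ j : Fin D, ∑ μ ∈ box (t * Y ^ (j.1 + 1)),
      ‖∑ ν ∈ box (t * Y ^ (j.1 + 1)), e (α j * ((ν : ℝ) * μ))‖ := by
    set K : (Fin D → ℤ) → ℂ := fun μ => ∑ v ∈ V, e (∑ j : Fin D, (α j * v j) * (μ j : ℝ)) with hK
    have h3 : ((∑ v ∈ V, ‖g v‖ ^ (2 * t) : ℝ) : ℂ) = ∑ q ∈ T, K (B1_lam q) := by
      rw [Complex.ofReal_sum]
      simp only [hg, B1_expand]
      rw [sum_comm]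
    have h4 : ∑ v ∈ V, ‖g v‖ ^ (2 * t) ≤ ∑ q ∈ T, ‖K (B1_lam q)‖ := by
      calc ∑ v ∈ V, ‖g v‖ ^ (2 * t) = ‖((∑ v ∈ V, ‖g v‖ ^ (2 * t) : ℝ) : ℂ)‖ := by
            rw [Complex.norm_real, Real.norm_of_nonneg (sum_nonneg fun _ _ => by positivity)]
        _ ≤ _ := by rw [h3]; exact norm_sum_le _ _
    refine h4.trans ((B1_fiber D t Y (fun v => ‖K v‖) (fun v => norm_nonneg _)).trans (le_of_eq ?_))
    congr 1
    rw [prod_univ_sum]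
    refine sum_congr rfl fun μ _ => ?_
    rw [← Complex.norm_prod, prod_univ_sum]
    congr 1
    refine sum_congr rfl fun v _ => ?_
    rw [B1_e_sum]
    refine prod_congr rfl fun j _ => ?_
    congr 1
    ring
  -- together
  set P := ∏ j : Fin D, ∑ μ ∈ box (t * Y ^ (j.1 + 1)),
      ‖∑ ν ∈ box (t * Y ^ (j.1 + 1)), e (α j * ((ν : ℝ) * μ))‖ with hP
  have hY0 : (0 : ℝ) < Y := by exact_mod_cast hY
  calc ‖B‖ ^ (4 * t ^ 2) = (‖B‖ ^ (2 * t)) ^ (2 * t) := by rw [← pow_mul]; congr 1; ring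
    _ ≤ ((Y : ℝ) ^ (2 * t - 1) * ∑ q ∈ T, ‖g (B1_lam q)‖) ^ (2 * t) := by gcongr
    _ = ((Y : ℝ) ^ (2 * t - 1)) ^ (2 * t) * (∑ q ∈ T, ‖g (B1_lam q)‖) ^ (2 * t) := mul_pow _ _ _
    _ ≤ ((Y : ℝ) ^ (2 * t - 1)) ^ (2 * t) * (((Y : ℝ) ^ (2 * t)) ^ (2 * t - 1) *
        (J D t X * (J D t X * P))) := by
        gcongr
        exact s2.trans (by gcongr)
    _ = _ := by
        rw [← pow_mul, ← pow_mul]
        have e1 : 8 * t ^ 2 - 4 * t = (2 * t - 1) * (2 * t) + 2 * t * (2 * t - 1) := by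
          obtain ⟨u, rfl⟩ : ∃ u, t = u + 1 := ⟨t - 1, by omega⟩
          have : 2 * (u + 1) - 1 = 2 * u + 1 := by omega
          rw [this]
          have h2 : 4 * (u + 1) ≤ 8 * (u + 1) ^ 2 := by nlinarith
          zify [h2]
          ring
        rw [e1, pow_add]
        ring

end Pool.Agent.Helper17.KW
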