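import Mathlib
import Pool.Agent.Helper17.KW.Defs

/-!
# KW-B2: linear sums with a rational coefficient

Proof.  Let `B = α.den`.  Cover `box L` by at most `K = (2 L + 1) / B + 1` (real: `K B ≤ 2 L + 1 + B`)
blocks of `B` consecutive integers.  For one block (a complete system of residues modulo `B`)
`∑_μ ‖∑_{ν ∈ box L} e (α ν μ)‖ ^ 2 = B * #{(ν, ν') | ν ≡ ν' mod B} ≤ B (2 L + 1) K`, by the
orthogonality relation `∑_{μ mod B} e (a c μ / B) = 0` unless `B ∣ c` (`gcd (a, B) = 1`).  So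
`∑_{μ ∈ box L} ‖...‖ ^ 2 ≤ K B K (2 L + 1) ≤ (2 L + 1) (2 L + 1 + B) ^ 2 / B`, and Cauchy's inequality
over the `2 L + 1` values of `μ` gives the claim.
-/

set_option autoImplicit false

open Finset

namespace Pool.Agent.Helper17.KW

private lemma B2_e_add (x y : ℝ) : e (x + y) = e x * e y := by
  unfold e
  rw [← Complex.exp_add]
  congr 1
  push_cast
  ring

private lemma B2_e_int (n : ℤ) : e n = 1 := by
  unfold e
  rw [Complex.exp_eq_one_iff]
  exact ⟨n, by push_cast; ring⟩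

private lemma B2_e_zero : e 0 = 1 := by
  have := B2_e_int 0
  simpa using this

private lemma B2_norm_e (y : ℝ) : ‖e y‖ = 1 := by
  unfold e
  have : 2 * (Real.pi : ℂ) * y * Complex.I = ((2 * Real.pi * y : ℝ) : ℂ) * Complex.I := by
    push_cast; ring
  rw [this, Complex.norm_exp_ofReal_mul_I]

private lemma B2_conj_e (y : ℝ) : (starRingEnd ℂ) (e y) = e (-y) := by
  unfold e
  rw [← Complex.exp_conj]
  congr 1
  simp only [map_mul, Complex.conj_ofReal, Complex.conj_I, map_ofNat]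
  push_cast
  ring

private lemma B2_e_nat_mul (y : ℝ) (n : ℕ) : e (y * n) = e y ^ n := by
  induction n with
  | zero => simp [B2_e_zero]
  | succ n ih =>
    rw [pow_succ, ← ih, ← B2_e_add]
    congr 1
    push_cast
    ring

private lemma B2_e_eq_one {y : ℝ} (h : e y = 1) : ∃ n : ℤ, y = n := by
  unfold e at h
  rw [Complex.exp_eq_one_iff] at h
  obtain ⟨n, hn⟩ := h
  refine ⟨n, ?_⟩
  have hpi : (2 * (Real.pi : ℂ) * Complex.I) ≠ 0 := Complex.two_pi_I_ne_zero
  have h1 : (2 * (Real.pi : ℂ) * Complex.I) * ((y : ℂ) - n) = 0 := by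
    linear_combination hn
  rcases mul_eq_zero.1 h1 with h2 | h2
  · exact absurd h2 hpi
  · have h3 : (y : ℂ) = ((n : ℝ) : ℂ) := by
      push_cast
      linear_combination h2
    exact_mod_cast h3

private lemma B2_card_box (L : ℕ) : (box L).card = 2 * L + 1 := by
  unfold box
  rw [Int.card_Icc]
  omega

/-- the number of elements of `box L` in a residue class -/
private lemma B2_count (L B : ℕ) (hB : 0 < B) (r : ℤ) :
    (((box L).filter fun μ : ℤ => (B : ℤ) ∣ μ - r).card : ℝ) ≤ (2 * L + 1 + B) / B := by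
  have hB' : (0 : ℤ) < B := by exact_mod_cast hB
  have h1 : ((box L).filter fun μ : ℤ => (B : ℤ) ∣ μ - r)
      = ((Finset.Ioc (-(L : ℤ) - 1) L).filter fun μ : ℤ => μ ≡ r [ZMOD B]) := by
    ext μ
    unfold box
    rw [Finset.mem_filter, Finset.mem_filter, Finset.mem_Icc, Finset.mem_Ioc]
    rw [Int.modEq_comm, Int.modEq_iff_dvd]
    constructor
    · rintro ⟨⟨a, b⟩, c⟩
      exact ⟨⟨by omega, b⟩, c⟩
    · rintro ⟨⟨a, b⟩, c⟩
      exact ⟨⟨by omega, b⟩, c⟩
  rw [h1]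
  have h2 := Int.Ioc_filter_modEq_card (-(L : ℤ) - 1) L hB' r
  have h3 : (((Finset.Ioc (-(L : ℤ) - 1) L).filter fun μ : ℤ => μ ≡ r [ZMOD B]).card : ℤ)
      = max (⌊((L : ℤ) - r) / ((B : ℤ) : ℚ)⌋ - ⌊((-(L : ℤ) - 1 : ℤ) - r) / ((B : ℤ) : ℚ)⌋) 0 := by
    rw [h2]
  have hBq : (0 : ℚ) < B := by exact_mod_cast hB
  have h4 := Int.floor_le (((L : ℤ) - r) / ((B : ℤ) : ℚ))
  have h5 := Int.lt_floor_add_one (((-(L : ℤ) - 1 : ℤ) - r) / ((B : ℤ) : ℚ))
  have h6 : ((⌊((L : ℤ) - r) / ((B : ℤ) : ℚ)⌋ - ⌊((-(L : ℤ) - 1 : ℤ) - r) / ((B : ℤ) : ℚ)⌋ : ℤ) : ℚ)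
      ≤ (2 * L + 1 + B) / B := by
    push_cast at h4 h5 ⊢
    have h7 : ((L : ℚ) - r) / B - (-(L : ℚ) - 1 - r) / B + 1 = (2 * L + 1 + B) / B := by
      field_simp
      ring
    linarith
  have h8 : ((((Finset.Ioc (-(L : ℤ) - 1) L).filter fun μ : ℤ => μ ≡ r [ZMOD B]).card : ℤ) : ℚ)
      ≤ (2 * L + 1 + B) / B := by
    rw [h3]
    rw [Int.cast_max]
    refine max_le h6 ?_
    rw [Int.cast_zero]
    positivity
  have h9 : ((((((Finset.Ioc (-(L : ℤ) - 1) L).filter fun μ : ℤ => μ ≡ r [ZMOD B]).card : ℤ) : ℚ)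
      : ℝ)) ≤ (((2 * L + 1 + B) / B : ℚ) : ℝ) := by exact_mod_cast h8
  push_cast at h9
  exact h9

/-- orthogonality -/
private lemma B2_orth (α : ℚ) (c : ℤ) :
    ∑ μ ∈ Finset.range α.den, e ((α : ℝ) * c) ^ μ = if (α.den : ℤ) ∣ c then (α.den : ℂ) else 0 := by
  have hden : (α.den : ℝ) ≠ 0 := by exact_mod_cast α.den_nz
  have hα : (α : ℝ) = (α.num : ℝ) / α.den := by
    exact_mod_cast (Rat.num_div_den α).symm
  split_ifs with h
  · obtain ⟨k, hk⟩ := h
    have h1 : e ((α : ℝ) * c) = 1 := by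
      have : (α : ℝ) * c = ((α.num * k : ℤ) : ℝ) := by
        rw [hα, hk]
        push_cast
        field_simp
      rw [this]
      exact B2_e_int _
    rw [h1]
    simp
  · have hz : e ((α : ℝ) * c) ≠ 1 := by
      intro h1
      obtain ⟨n, hn⟩ := B2_e_eq_one h1
      apply h
      rw [hα] at hn
      have h2 : (α.num : ℝ) * c = n * α.den := by
        field_simp at hn
        linarith
      have h3 : α.num * c = n * α.den := by exact_mod_cast h2
      have h4 : (α.den : ℤ) ∣ α.num * c := ⟨n, by rw [h3]; ring⟩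
      have h5 : IsCoprime (α.den : ℤ) α.num := by
        rw [Int.isCoprime_iff_gcd_eq_one]
        have := α.reduced
        rw [Int.gcd_comm]
        exact this
      exact h5.dvd_of_dvd_mul_left h4
    have hpow : e ((α : ℝ) * c) ^ α.den = 1 := by
      rw [← B2_e_nat_mul]
      have : (α : ℝ) * c * α.den = ((α.num * c : ℤ) : ℝ) := by
        rw [hα]
        push_cast
        field_simp
      rw [this]
      exact B2_e_int _
    have hgeom := geom_sum_eq hz α.den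
    rw [hgeom, hpow, sub_self, zero_div]

/-- the sum over `ν` -/
private noncomputable def B2_S (L : ℕ) (α : ℝ) (μ : ℤ) : ℂ :=
  ∑ ν ∈ box L, e (α * ((ν : ℝ) * μ))

private lemma B2_sq_sum (L : ℕ) (α : ℚ) :
    ∑ μ ∈ Finset.range α.den, ‖B2_S L α (μ : ℤ)‖ ^ 2
      ≤ (2 * L + 1) * ((2 * L + 1 + α.den) / α.den) * α.den := by
  have hB : 0 < α.den := α.den_pos
  have h1 : ∀ μ : ℕ, ((‖B2_S L α (μ : ℤ)‖ ^ 2 : ℝ) : ℂ)
      = ∑ ν ∈ box L, ∑ ν' ∈ box L, e ((α : ℝ) * ((ν - ν' : ℤ) : ℝ)) ^ μ := by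
    intro μ
    push_cast
    rw [← Complex.mul_conj']
    unfold B2_S
    rw [map_sum, Finset.sum_mul_sum]
    refine Finset.sum_congr rfl fun ν _ => Finset.sum_congr rfl fun ν' _ => ?_
    rw [B2_conj_e, ← B2_e_add, ← B2_e_nat_mul]
    congr 1
    push_cast
    ring
  have h2 : ((∑ μ ∈ Finset.range α.den, ‖B2_S L α (μ : ℤ)‖ ^ 2 : ℝ) : ℂ)
      = ((∑ ν ∈ box L, ∑ ν' ∈ box L, if (α.den : ℤ) ∣ ν - ν' then (α.den : ℝ) else 0 : ℝ) : ℂ) := by
    rw [Complex.ofReal_sum]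
    rw [Finset.sum_congr rfl fun μ _ => h1 μ]
    rw [Finset.sum_comm]
    rw [Complex.ofReal_sum]
    refine Finset.sum_congr rfl fun ν _ => ?_
    rw [Finset.sum_comm, Complex.ofReal_sum]
    refine Finset.sum_congr rfl fun ν' _ => ?_
    rw [B2_orth]
    split_ifs <;> simp
  have h3 : ∑ μ ∈ Finset.range α.den, ‖B2_S L α (μ : ℤ)‖ ^ 2
      = ∑ ν ∈ box L, ∑ ν' ∈ box L, if (α.den : ℤ) ∣ ν - ν' then (α.den : ℝ) else 0 := by
    exact_mod_cast h2
  rw [h3]
  have h4 : ∀ ν ∈ box L, (∑ ν' ∈ box L, if (α.den : ℤ) ∣ ν - ν' then (α.den : ℝ) else 0)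
      ≤ ((2 * L + 1 + α.den) / α.den) * α.den := by
    intro ν _
    rw [← Finset.sum_filter, Finset.sum_const, nsmul_eq_mul]
    apply mul_le_mul_of_nonneg_right _ (by positivity)
    have h5 := B2_count L α.den hB ν
    have h6 : ((box L).filter fun ν' : ℤ => (α.den : ℤ) ∣ ν - ν')
        = ((box L).filter fun ν' : ℤ => (α.den : ℤ) ∣ ν' - ν) := by
      apply Finset.filter_congr
      intro x _
      rw [← dvd_neg, neg_sub]
    rw [h6]
    exact h5
  calc ∑ ν ∈ box L, (∑ ν' ∈ box L, if (α.den : ℤ) ∣ ν - ν' then (α.den : ℝ) else 0)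
      ≤ ∑ ν ∈ box L, ((2 * L + 1 + α.den) / α.den) * (α.den : ℝ) := Finset.sum_le_sum h4
    _ = (2 * L + 1) * ((2 * L + 1 + α.den) / α.den) * α.den := by
      rw [Finset.sum_const, B2_card_box, nsmul_eq_mul]
      push_cast
      ring

private lemma B2_periodic (L : ℕ) (α : ℚ) (μ : ℤ) :
    B2_S L α μ = B2_S L α (((μ % (α.den : ℤ)).toNat : ℕ) : ℤ) := by
  have hB : (0 : ℤ) < α.den := by exact_mod_cast α.den_pos
  have hden : (α.den : ℝ) ≠ 0 := by exact_mod_cast α.den_nz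
  have hα : (α : ℝ) = (α.num : ℝ) / α.den := by
    exact_mod_cast (Rat.num_div_den α).symm
  have h1 : (((μ % (α.den : ℤ)).toNat : ℕ) : ℤ) = μ % α.den :=
    Int.toNat_of_nonneg (Int.emod_nonneg _ hB.ne')
  rw [h1]
  unfold B2_S
  refine Finset.sum_congr rfl fun ν _ => ?_
  have h2 : μ = μ % α.den + α.den * (μ / α.den) := (Int.emod_add_mul_ediv μ α.den).symm
  have h3 : (α : ℝ) * ((ν : ℝ) * μ)
      = (α : ℝ) * ((ν : ℝ) * ((μ % (α.den : ℤ) : ℤ) : ℝ)) + ((α.num * ν * (μ / α.den) : ℤ) : ℝ) := by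
    have h4 : (μ : ℝ) = ((μ % (α.den : ℤ) : ℤ) : ℝ) + α.den * ((μ / (α.den : ℤ) : ℤ) : ℝ) := by
      exact_mod_cast h2
    rw [h4, hα]
    push_cast
    field_simp
  rw [h3, B2_e_add, B2_e_int, mul_one]

theorem linear_sum (L : ℕ) (α : ℚ) :
    ∑ μ ∈ box L, ‖∑ ν ∈ box L, e ((α : ℝ) * ((ν : ℝ) * μ))‖ ≤
      (2 * L + 1) * (2 * L + 1 + α.den) / Real.sqrt α.den := by
  have hB : 0 < α.den := α.den_pos
  have hBZ : (0 : ℤ) < α.den := by exact_mod_cast hB
  have hBR : (0 : ℝ) < α.den := by exact_mod_cast hB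
  -- the sum of the squares over the box
  have h1 : ∑ μ ∈ box L, ‖B2_S L α μ‖ ^ 2
      ≤ ((2 * L + 1 + α.den) / α.den) * ((2 * L + 1) * ((2 * L + 1 + α.den) / α.den) * α.den) := by
    have hmaps : ∀ μ ∈ box L, (μ % (α.den : ℤ)).toNat ∈ Finset.range α.den := by
      intro μ _
      rw [Finset.mem_range]
      have a1 := Int.emod_nonneg μ hBZ.ne'
      have a2 := Int.emod_lt_of_pos μ hBZ
      omega
    rw [← Finset.sum_fiberwise_of_maps_to hmaps]
    calc ∑ j ∈ Finset.range α.den, ∑ μ ∈ (box L).filter (fun μ => (μ % (α.den : ℤ)).toNat = j),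
          ‖B2_S L α μ‖ ^ 2
        ≤ ∑ j ∈ Finset.range α.den, ((2 * L + 1 + α.den) / α.den) * ‖B2_S L α (j : ℤ)‖ ^ 2 := by
          refine Finset.sum_le_sum fun j hj => ?_
          have h2 : ∀ μ ∈ (box L).filter (fun μ => (μ % (α.den : ℤ)).toNat = j),
              ‖B2_S L α μ‖ ^ 2 = ‖B2_S L α (j : ℤ)‖ ^ 2 := by
            intro μ hμ
            rw [Finset.mem_filter] at hμ
            rw [B2_periodic L α μ, hμ.2]
          rw [Finset.sum_congr rfl h2, Finset.sum_const, nsmul_eq_mul]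
          apply mul_le_mul_of_nonneg_right _ (by positivity)
          refine le_trans ?_ (B2_count L α.den hB j)
          have h3 : (box L).filter (fun μ => (μ % (α.den : ℤ)).toNat = j)
              ⊆ (box L).filter fun μ : ℤ => (α.den : ℤ) ∣ μ - j := by
            intro μ hμ
            rw [Finset.mem_filter] at hμ ⊢
            refine ⟨hμ.1, ?_⟩
            have a1 := Int.emod_nonneg μ hBZ.ne'
            have a3 : μ % (α.den : ℤ) = j := by omega
            have a4 : μ - j = α.den * (μ / α.den) := by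
              have := Int.emod_add_mul_ediv μ α.den
              linarith
            rw [a4]
            exact dvd_mul_right _ _
          exact_mod_cast Finset.card_le_card h3
      _ = ((2 * L + 1 + α.den) / α.den) * ∑ j ∈ Finset.range α.den, ‖B2_S L α (j : ℤ)‖ ^ 2 := by
          rw [Finset.mul_sum]
      _ ≤ _ := by
          apply mul_le_mul_of_nonneg_left (B2_sq_sum L α)
          positivity
  -- Cauchy
  have h2 : (∑ μ ∈ box L, ‖B2_S L α μ‖) ^ 2 ≤ (2 * L + 1) * ∑ μ ∈ box L, ‖B2_S L α μ‖ ^ 2 := by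
    have := sq_sum_le_card_mul_sum_sq (s := box L) (f := fun μ => ‖B2_S L α μ‖)
    rw [B2_card_box] at this
    push_cast at this
    exact this
  have h3 : (∑ μ ∈ box L, ‖B2_S L α μ‖) ^ 2
      ≤ ((2 * L + 1) * (2 * L + 1 + α.den) / Real.sqrt α.den) ^ 2 := by
    refine h2.trans ?_
    have h4 : ((2 * (L : ℝ) + 1) * (2 * L + 1 + α.den) / Real.sqrt α.den) ^ 2
        = (2 * L + 1) * (((2 * L + 1 + α.den) / α.den)
          * ((2 * L + 1) * ((2 * L + 1 + α.den) / α.den) * α.den)) := by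
      rw [div_pow, Real.sq_sqrt hBR.le]
      field_simp
    rw [h4]
    exact mul_le_mul_of_nonneg_left h1 (by positivity)
  have h5 := abs_le_of_sq_le_sq h3 (by positivity)
  exact (le_abs_self _).trans h5

theorem linear_sum_trivial (L : ℕ) (α : ℝ) :
    ∑ μ ∈ box L, ‖∑ ν ∈ box L, e (α * ((ν : ℝ) * μ))‖ ≤ (2 * L + 1) ^ 2 := by
  have h1 : ∀ μ ∈ box L, ‖∑ ν ∈ box L, e (α * ((ν : ℝ) * μ))‖ ≤ 2 * L + 1 := by
    intro μ _
    refine (norm_sum_le _ _).trans ?_
    rw [Finset.sum_congr rfl fun ν _ => B2_norm_e _, Finset.sum_const, B2_card_box, nsmul_eq_mul]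
    push_cast
    linarith
  refine (Finset.sum_le_sum h1).trans ?_
  rw [Finset.sum_const, B2_card_box, nsmul_eq_mul]
  push_cast
  apply le_of_eq
  ring

end Pool.Agent.Helper17.KW
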