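import Mathlib

/-!
# KW-A1: Parseval: counting coincidences with additive characters

Proof.  Expand the square: the left side is
`∑_{a, a' ∈ A} ∑_α ∏_j χ (α j * (f a j - f a' j))`, `χ = ZMod.stdAddChar`, and the inner sum is the
product over `j` of `∑_{t : ZMod M} χ (t * c_j)` (`Finset.prod_univ_sum` / `Fintype.piFinset`), which
is `M` if `c_j = 0` in `ZMod M` and `0` otherwise (`AddChar.sum_mulShift`,
`ZMod.isPrimitive_stdAddChar`).  As `|f a j - f a' j| < M`, the difference is `0` in `ZMod M` iff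
`f a j = f a' j`.
-/

set_option autoImplicit false

open Finset

namespace Pool.Agent.Helper17.KW

open scoped ComplexConjugate

lemma A1_char (D M : ℕ) [NeZero M] (c : Fin D → ZMod M) :
    ∑ α : Fin D → ZMod M, ∏ j, (ZMod.stdAddChar (α j * c j) : ℂ) =
      if ∀ j, c j = 0 then (M : ℂ) ^ D else 0 := by
  classical
  have h1 := Finset.prod_univ_sum (fun _ : Fin D => (univ : Finset (ZMod M)))
    (fun j t => (ZMod.stdAddChar (t * c j) : ℂ))
  rw [Fintype.piFinset_univ] at h1
  rw [← h1]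
  have h2 : ∀ j, ∑ t : ZMod M, (ZMod.stdAddChar (t * c j) : ℂ) = if c j = 0 then (M : ℂ) else 0 := by
    intro j
    rw [AddChar.sum_mulShift (c j) (ZMod.isPrimitive_stdAddChar M), ZMod.card]
    split_ifs <;> simp
  rw [prod_congr rfl fun j _ => h2 j]
  by_cases h : ∀ j, c j = 0
  · rw [if_pos h, prod_congr rfl fun j _ => if_pos (h j)]
    simp
  · rw [if_neg h]
    push Not at h
    obtain ⟨j, hj⟩ := h
    exact prod_eq_zero (mem_univ j) (if_neg hj)

theorem parseval {ι : Type*} [DecidableEq ι] (D M : ℕ) [NeZero M] (A : Finset ι)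
    (f : ι → Fin D → ℤ) (hf : ∀ a ∈ A, ∀ j, 2 * |f a j| < M) :
    ∑ α : Fin D → ZMod M, ‖∑ a ∈ A, ∏ j, (ZMod.stdAddChar (α j * (f a j : ZMod M)) : ℂ)‖ ^ 2 =
      (M : ℝ) ^ D * (((A ×ˢ A).filter fun q : ι × ι => f q.1 = f q.2).card : ℝ) := by
  classical
  have key : ((∑ α : Fin D → ZMod M,
      ‖∑ a ∈ A, ∏ j, (ZMod.stdAddChar (α j * (f a j : ZMod M)) : ℂ)‖ ^ 2 : ℝ) : ℂ) =
      ((M : ℝ) ^ D * (((A ×ˢ A).filter fun q : ι × ι => f q.1 = f q.2).card : ℝ) : ℝ) := by
    push_cast
    have h1 : ∀ α : Fin D → ZMod M,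
        ((‖∑ a ∈ A, ∏ j, (ZMod.stdAddChar (α j * (f a j : ZMod M)) : ℂ)‖ : ℂ) ^ 2) =
        ∑ q ∈ A ×ˢ A, ∏ j, (ZMod.stdAddChar
          (α j * ((f q.1 j : ZMod M) - (f q.2 j : ZMod M))) : ℂ) := by
      intro α
      rw [← Complex.mul_conj', map_sum, sum_mul_sum, ← sum_product']
      refine sum_congr rfl fun q _ => ?_
      rw [map_prod, ← prod_mul_distrib]
      refine prod_congr rfl fun j _ => ?_
      rw [← AddChar.map_neg_eq_conj, ← AddChar.map_add_eq_mul]
      congr 1
      ring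
    rw [sum_congr rfl fun α _ => h1 α, sum_comm]
    rw [sum_congr rfl fun q _ => A1_char D M
      (fun j => (f q.1 j : ZMod M) - (f q.2 j : ZMod M))]
    rw [← sum_filter, sum_const, nsmul_eq_mul, mul_comm]
    congr 2
    congr 1
    refine filter_congr fun q hq => ?_
    rw [mem_product] at hq
    constructor
    · intro h
      funext j
      have h2 := h j
      rw [sub_eq_zero, ← sub_eq_zero, ← Int.cast_sub, ZMod.intCast_zmod_eq_zero_iff_dvd] at h2
      have h3 := hf q.1 hq.1 j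
      have h4 := hf q.2 hq.2 j
      have h5 : |f q.1 j - f q.2 j| < M := by
        have := abs_sub (f q.1 j) (f q.2 j)
        omega
      have h6 := Int.eq_zero_of_abs_lt_dvd h2 h5
      omega
    · intro h j
      rw [h, sub_self]
  exact_mod_cast key

end Pool.Agent.Helper17.KW
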