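import Mathlib
import Pool.Agent.Helper17.KW.Defs
import Pool.Agent.Helper17.KW.St.A1

/-!
# KW-A2: Hoelder: restriction of the free variables to one residue class

Proof.  Choose `M` larger than twice all the absolute values of `ps x j + ps z j` which occur
(`x ∈ T`, `z ∈ tup m X`, `1 ≤ j ≤ D`) and apply `parseval` to `A = T ×ˢ tup m Y`,
`f (x, z) j = ps x (j + 1) + ps z (j + 1)`, for `Y = X` and `Y = cls p u X`.  The inner sum factorises:
it is `G α * (S_Y α) ^ m` with `G α = ∑_{x ∈ T} ∏_j χ (α j * ps x (j + 1))` and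
`S_Y α = ∑_{z ∈ Y} ∏_j χ (α j * z ^ (j + 1))` (`Finset.sum_pow'`, `Finset.prod_univ_sum`).  So
`M ^ D * mix D m T Y = ∑_α ‖G α‖ ^ 2 ‖S_Y α‖ ^ (2 m)`.  Since `S_X = ∑_{u : ZMod p} S_{cls p u X}`,
`‖S_X‖ ^ (2 m) ≤ p ^ (2 m - 1) ∑_u ‖S_{cls p u X}‖ ^ (2 m)` (power mean,
`inner_le_nnorm_mul_nnorm` or `Real.pow_sum_div_card_le_sum_pow`), hence
`mix D m T X ≤ p ^ (2 m - 1) ∑_u mix D m T (cls p u X)`, and the `u` with the largest term works.
-/

set_option autoImplicit false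

open Finset

namespace Pool.Agent.Helper17.KW

/-- the function whose coincidences are counted by `mix` -/
def A2_f (D m : ℕ) (a : (Fin D → ℤ) × (Fin m → ℤ)) (j : Fin D) : ℤ :=
  ps a.1 (j + 1) + ps a.2 (j + 1)

/-- the one variable term -/
noncomputable def A2_g (D M : ℕ) [NeZero M] (α : Fin D → ZMod M) (z : ℤ) : ℂ :=
  ∏ j, (ZMod.stdAddChar (α j * ((z ^ ((j : ℕ) + 1) : ℤ) : ZMod M)) : ℂ)

/-- the sum over `T` -/
noncomputable def A2_G (D M : ℕ) [NeZero M] (T : Finset (Fin D → ℤ)) (α : Fin D → ZMod M) : ℂ :=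
  ∑ x ∈ T, ∏ j, (ZMod.stdAddChar (α j * ((ps x ((j : ℕ) + 1) : ℤ) : ZMod M)) : ℂ)

lemma A2_mix (D m : ℕ) (T : Finset (Fin D → ℤ)) (X : Finset ℤ) :
    mix D m T X = (((T ×ˢ tup m X) ×ˢ (T ×ˢ tup m X)).filter
      fun q : ((Fin D → ℤ) × (Fin m → ℤ)) × ((Fin D → ℤ) × (Fin m → ℤ)) =>
        A2_f D m q.1 = A2_f D m q.2).card := by
  classical
  unfold mix
  congr 1
  ext q
  simp only [mem_filter]
  refine and_congr_right fun _ => ?_
  constructor
  · intro h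
    funext j
    exact h (j + 1) (by rw [mem_Icc]; have := j.2; omega)
  · intro h j hj
    rw [mem_Icc] at hj
    have h1 := congrFun h ⟨j - 1, by omega⟩
    unfold A2_f at h1
    simp only [Nat.sub_add_cancel hj.1] at h1
    exact h1

lemma A2_factor (D m M : ℕ) [NeZero M] (T : Finset (Fin D → ℤ)) (Y : Finset ℤ)
    (α : Fin D → ZMod M) :
    ∑ a ∈ T ×ˢ tup m Y, ∏ j, (ZMod.stdAddChar (α j * (A2_f D m a j : ZMod M)) : ℂ) =
      A2_G D M T α * (∑ z ∈ Y, A2_g D M α z) ^ m := by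
  classical
  unfold A2_G tup
  rw [Finset.sum_pow', sum_mul_sum, ← sum_product']
  refine sum_congr rfl fun a _ => ?_
  unfold A2_g
  rw [prod_comm, ← prod_mul_distrib]
  refine prod_congr rfl fun j _ => ?_
  unfold A2_f
  push_cast
  rw [mul_add, AddChar.map_add_eq_mul]
  congr 1
  conv_lhs => rw [show ps a.2 ((j : ℕ) + 1) = ∑ i, a.2 i ^ ((j : ℕ) + 1) from rfl]
  push_cast
  rw [mul_sum]
  have hs : ∀ (s : Finset (Fin m)) (F : Fin m → ZMod M),
      (ZMod.stdAddChar (∑ i ∈ s, F i) : ℂ) = ∏ i ∈ s, ZMod.stdAddChar (F i) := by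
    intro s F
    induction s using Finset.induction_on with
    | empty => simp
    | insert i s hi ih => rw [sum_insert hi, prod_insert hi, AddChar.map_add_eq_mul, ih]
  exact hs univ _

lemma A2_parseval (D m M : ℕ) [NeZero M] (T : Finset (Fin D → ℤ)) (Y : Finset ℤ)
    (hM : ∀ a ∈ T ×ˢ tup m Y, ∀ j, 2 * |A2_f D m a j| < M) :
    ∑ α : Fin D → ZMod M, ‖A2_G D M T α‖ ^ 2 * ‖∑ z ∈ Y, A2_g D M α z‖ ^ (2 * m) =
      (M : ℝ) ^ D * (mix D m T Y : ℝ) := by
  classical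
  rw [A2_mix]
  have h := parseval D M (T ×ˢ tup m Y) (A2_f D m) hM
  refine Eq.trans (sum_congr rfl fun α _ => ?_) (h.trans ?_)
  · rw [A2_factor, norm_mul, mul_pow, norm_pow, ← pow_mul, mul_comm m 2]
  · congr!

theorem mix_le_cls (D m p : ℕ) [NeZero p] (hm : 1 ≤ m) (T : Finset (Fin D → ℤ)) (X : Finset ℤ) :
    ∃ u : ZMod p, mix D m T X ≤ p ^ (2 * m) * mix D m T (cls p u X) := by
  classical
  have hp : 0 < p := Nat.pos_of_ne_zero (NeZero.ne p)
  -- the bound M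
  set B : ℕ := ∑ a ∈ T ×ˢ tup m X, ∑ j, (A2_f D m a j).natAbs with hB
  set M : ℕ := 2 * B + 1 with hMdef
  have : NeZero M := ⟨by omega⟩
  have hM : ∀ a ∈ T ×ˢ tup m X, ∀ j, 2 * |A2_f D m a j| < M := by
    intro a ha j
    have h1 : (A2_f D m a j).natAbs ≤ B := by
      calc (A2_f D m a j).natAbs ≤ ∑ j, (A2_f D m a j).natAbs :=
            single_le_sum (f := fun j => (A2_f D m a j).natAbs) (fun _ _ => Nat.zero_le _)
              (mem_univ j)
        _ ≤ B := single_le_sum (f := fun a => ∑ j, (A2_f D m a j).natAbs)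
              (fun _ _ => Nat.zero_le _) ha
    rw [Int.abs_eq_natAbs]
    omega
  have hcls : ∀ u : ZMod p, ∀ a ∈ T ×ˢ tup m (cls p u X), ∀ j, 2 * |A2_f D m a j| < M := by
    intro u a ha
    refine hM a ?_
    rw [mem_product] at ha ⊢
    refine ⟨ha.1, ?_⟩
    have h2 := ha.2
    unfold tup at h2 ⊢
    rw [Fintype.mem_piFinset] at h2 ⊢
    intro i
    exact (mem_filter.mp (h2 i)).1
  have hX := A2_parseval D m M T X hM
  have hu := fun u : ZMod p => A2_parseval D m M T (cls p u X) (hcls u)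
  -- the power mean inequality
  obtain ⟨n, hn⟩ : ∃ n, 2 * m = n + 1 := ⟨2 * m - 1, by omega⟩
  have hpt : ∀ α : Fin D → ZMod M, ‖∑ z ∈ X, A2_g D M α z‖ ^ (2 * m) ≤
      (p : ℝ) ^ n * ∑ u : ZMod p, ‖∑ z ∈ cls p u X, A2_g D M α z‖ ^ (2 * m) := by
    intro α
    have h1 : ∑ z ∈ X, A2_g D M α z = ∑ u : ZMod p, ∑ z ∈ cls p u X, A2_g D M α z := by
      unfold cls
      exact (sum_fiberwise X (fun z : ℤ => (z : ZMod p)) _).symm
    have h2 := pow_sum_div_card_le_sum_pow (s := (univ : Finset (ZMod p)))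
      (f := fun u => ‖∑ z ∈ cls p u X, A2_g D M α z‖) (fun _ _ => norm_nonneg _) n
    rw [hn]
    have h3 : ‖∑ z ∈ X, A2_g D M α z‖ ≤ ∑ u : ZMod p, ‖∑ z ∈ cls p u X, A2_g D M α z‖ := by
      rw [h1]
      exact norm_sum_le _ _
    have h4 := pow_le_pow_left₀ (norm_nonneg _) h3 (n + 1)
    rw [card_univ, ZMod.card, div_le_iff₀ (by positivity)] at h2
    calc _ ≤ _ := h4
      _ ≤ _ := h2
      _ = _ := mul_comm _ _
  have hsum : (M : ℝ) ^ D * (mix D m T X : ℝ) ≤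
      (p : ℝ) ^ n * ∑ u : ZMod p, (M : ℝ) ^ D * (mix D m T (cls p u X) : ℝ) := by
    rw [← hX, sum_congr rfl fun u _ => (hu u).symm, sum_comm, mul_sum]
    refine sum_le_sum fun α _ => ?_
    rw [← mul_sum]
    calc _ ≤ ‖A2_G D M T α‖ ^ 2 * ((p : ℝ) ^ n *
          ∑ u : ZMod p, ‖∑ z ∈ cls p u X, A2_g D M α z‖ ^ (2 * m)) :=
          mul_le_mul_of_nonneg_left (hpt α) (by positivity)
      _ = _ := by ring
  have hM0 : (0 : ℝ) < (M : ℝ) ^ D := by
    have : (0 : ℝ) < M := by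
      have h0 : 0 < M := by omega
      exact_mod_cast h0
    positivity
  have hsum2 : (mix D m T X : ℝ) ≤ (p : ℝ) ^ n * ∑ u : ZMod p, (mix D m T (cls p u X) : ℝ) := by
    rw [← mul_sum] at hsum
    have h5 : (M : ℝ) ^ D * (mix D m T X : ℝ) ≤ (M : ℝ) ^ D *
        ((p : ℝ) ^ n * ∑ u : ZMod p, (mix D m T (cls p u X) : ℝ)) := by
      linarith [hsum]
    exact le_of_mul_le_mul_left h5 hM0
  -- the largest term
  obtain ⟨u, -, hmax⟩ := exists_max_image (univ : Finset (ZMod p))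
    (fun u => mix D m T (cls p u X)) ⟨0, mem_univ _⟩
  refine ⟨u, ?_⟩
  have h6 : ∑ v : ZMod p, (mix D m T (cls p v X) : ℝ) ≤ (p : ℝ) * (mix D m T (cls p u X) : ℝ) := by
    calc _ ≤ ∑ _v : ZMod p, (mix D m T (cls p u X) : ℝ) :=
          sum_le_sum fun v _ => by exact_mod_cast hmax v (mem_univ v)
      _ = _ := by rw [sum_const, card_univ, ZMod.card, nsmul_eq_mul]
  have h7 : (mix D m T X : ℝ) ≤ (p : ℝ) ^ (2 * m) * (mix D m T (cls p u X) : ℝ) := by
    calc _ ≤ _ := hsum2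
      _ ≤ (p : ℝ) ^ n * ((p : ℝ) * (mix D m T (cls p u X) : ℝ)) :=
          mul_le_mul_of_nonneg_left h6 (by positivity)
      _ = _ := by rw [hn, pow_succ]; ring
  exact_mod_cast h7

end Pool.Agent.Helper17.KW
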