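import Mathlib
import Pool.Agent.Helper17.KW.Defs

/-!
# KW-A4: Newton identities: equal power sums modulo a prime power

Proof.  Work in the commutative ring `R = ZMod (p ^ N)`.  By Newton's identities
(`MvPolynomial.mul_esymm_eq_sum`, evaluated at `x` and at `y`) and as `1, ..., D` are invertible in `R`
(`D < p`), induction gives that the elementary symmetric functions of `x` and of `y` agree in `R`.
By Vieta (`Multiset.prod_X_sub_X_eq_sum_esymm` or `MvPolynomial.prod_C_add_X_eq_sum_esymm` ...)
`∏ i, (X - C (x i)) = ∏ i, (X - C (y i))` in `R[X]`.  If `N = 0` the ring is trivial and there is nothing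
to prove; let `N ≥ 1`.  Reduce modulo `p`: in `(ZMod p)[X]` (a field) the multisets of roots agree, so,
the `x i` being distinct modulo `p`, there is a permutation `σ` with `y i ≡ x (σ i)` modulo `p`.
Evaluate the identity in `R[X]` at `y i`: `∏ j, (y i - x j) = 0` in `R`, and `y i - x j` is a unit of
`R` for `j ≠ σ i` (it is not divisible by `p`).  So `y i = x (σ i)` in `R`.
-/

set_option autoImplicit false

open Finset

namespace Pool.Agent.Helper17.KW

lemma A4_unit {p : ℕ} [hpf : Fact p.Prime] (N : ℕ) (z : ℤ) (hz : (z : ZMod p) ≠ 0) :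
    IsUnit ((z : ℤ) : ZMod (p ^ N)) := by
  rw [ZMod.coe_int_isUnit_iff_isCoprime]
  push_cast
  apply IsCoprime.pow_left
  have hp : Prime (p : ℤ) := Nat.prime_iff_prime_int.mp hpf.out
  rw [hp.coprime_iff_not_dvd]
  intro hd
  exact hz ((ZMod.intCast_zmod_eq_zero_iff_dvd z p).2 hd)

lemma A4_newton {R : Type} [CommRing R] {D : ℕ} (a : Fin D → R) (k : ℕ) :
    (k : R) * (univ.val.map a).esymm k = (-1) ^ (k + 1) *
      ∑ t ∈ antidiagonal k with t.1 < k, (-1) ^ t.1 * (univ.val.map a).esymm t.1 *
        ∑ i, a i ^ t.2 := by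
  have h := congrArg (MvPolynomial.aeval a) (MvPolynomial.mul_esymm_eq_sum (Fin D) R k)
  simp only [map_mul, map_natCast, map_pow, map_neg, map_one, map_sum,
    MvPolynomial.aeval_esymm_eq_multiset_esymm, MvPolynomial.psum, MvPolynomial.aeval_X] at h
  exact h

lemma A4_esymm {R : Type} [CommRing R] {D : ℕ} (a b : Fin D → R)
    (hu : ∀ k ∈ Icc 1 D, IsUnit ((k : ℕ) : R))
    (h : ∀ j ∈ Icc 1 D, ∑ i, a i ^ j = ∑ i, b i ^ j) (k : ℕ) (hk : k ≤ D) :
    (univ.val.map a).esymm k = (univ.val.map b).esymm k := by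
  induction k using Nat.strong_induction_on with
  | _ k ih =>
    rcases Nat.eq_zero_or_pos k with h0 | hpos
    · subst h0
      simp [Multiset.esymm]
    · have hu' := hu k (Finset.mem_Icc.2 ⟨hpos, hk⟩)
      apply hu'.mul_left_cancel
      rw [A4_newton a k, A4_newton b k]
      congr 1
      refine Finset.sum_congr rfl fun t ht => ?_
      rw [Finset.mem_filter, Finset.HasAntidiagonal.mem_antidiagonal] at ht
      rw [ih t.1 ht.2 (by omega), h t.2 (Finset.mem_Icc.2 (by omega))]

lemma A4_poly {R : Type} [CommRing R] {D : ℕ} (a b : Fin D → R)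
    (hu : ∀ k ∈ Icc 1 D, IsUnit ((k : ℕ) : R))
    (h : ∀ j ∈ Icc 1 D, ∑ i, a i ^ j = ∑ i, b i ^ j) :
    ((univ.val.map a).map fun t => Polynomial.X - Polynomial.C t).prod
      = ((univ.val.map b).map fun t => Polynomial.X - Polynomial.C t).prod := by
  rw [Multiset.prod_X_sub_X_eq_sum_esymm, Multiset.prod_X_sub_X_eq_sum_esymm]
  have hca : Multiset.card (univ.val.map a) = D := by simp
  have hcb : Multiset.card (univ.val.map b) = D := by simp
  rw [hca, hcb]
  refine Finset.sum_congr rfl fun j hj => ?_
  rw [A4_esymm a b hu h j (by have := Finset.mem_range.1 hj; omega)]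

theorem newton (D p N : ℕ) [Fact p.Prime] (hp : D < p) (x y : Fin D → ℤ)
    (hx : Function.Injective fun i => (x i : ZMod p))
    (h : ∀ j ∈ Icc 1 D, (ps x j : ZMod (p ^ N)) = (ps y j : ZMod (p ^ N))) :
    ∃ σ : Equiv.Perm (Fin D), ∀ i, (y i : ZMod (p ^ N)) = (x (σ i) : ZMod (p ^ N)) := by
  classical
  rcases Nat.eq_zero_or_pos N with hN | hN
  · subst hN
    refine ⟨Equiv.refl _, fun i => ?_⟩
    have : Subsingleton (ZMod (p ^ 0)) := by
      rw [pow_zero]
      infer_instance
    exact Subsingleton.elim _ _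
  set a : Fin D → ZMod (p ^ N) := fun i => (x i : ZMod (p ^ N)) with ha
  set b : Fin D → ZMod (p ^ N) := fun i => (y i : ZMod (p ^ N)) with hb
  have hu : ∀ k ∈ Icc 1 D, IsUnit ((k : ℕ) : ZMod (p ^ N)) := by
    intro k hk
    rw [Finset.mem_Icc] at hk
    have h1 := A4_unit (p := p) N (k : ℤ) (by
      rw [Int.cast_natCast]
      intro h0
      have := Nat.le_of_dvd (by omega) ((ZMod.natCast_eq_zero_iff k p).1 h0)
      omega)
    simpa using h1
  have hps : ∀ j ∈ Icc 1 D, ∑ i, a i ^ j = ∑ i, b i ^ j := by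
    intro j hj
    have := h j hj
    unfold ps at this
    push_cast at this
    exact this
  have hpoly := A4_poly a b hu hps
  have hpa : ∀ c : Fin D → ZMod (p ^ N), ((univ.val.map c).map
      fun t => Polynomial.X - Polynomial.C t).prod = ∏ i, (Polynomial.X - Polynomial.C (c i)) := by
    intro c
    rw [Multiset.map_map]
    rfl
  rw [hpa, hpa] at hpoly
  -- reduction modulo `p`
  let φ : ZMod (p ^ N) →+* ZMod p := ZMod.castHom (dvd_pow_self p (by omega)) (ZMod p)
  have hred : ∏ i, (Polynomial.X - Polynomial.C ((x i : ZMod p)))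
      = ∏ i, (Polynomial.X - Polynomial.C ((y i : ZMod p))) := by
    have h1 := congrArg (Polynomial.map φ) hpoly
    have h2 : ∀ z : ℤ, φ (z : ZMod (p ^ N)) = (z : ZMod p) := fun z => map_intCast φ z
    rw [Polynomial.map_prod, Polynomial.map_prod] at h1
    simp only [Polynomial.map_sub, Polynomial.map_X, Polynomial.map_C] at h1
    simp only [ha, hb, h2] at h1
    exact h1
  have hms : univ.val.map (fun i => (x i : ZMod p)) = univ.val.map (fun i => (y i : ZMod p)) := by
    have e1 : ∀ c : Fin D → ZMod p, (∏ i, (Polynomial.X - Polynomial.C (c i))).roots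
        = univ.val.map c := by
      intro c
      have e2 : ∏ i, (Polynomial.X - Polynomial.C (c i))
          = ((univ.val.map c).map fun t => Polynomial.X - Polynomial.C t).prod := by
        rw [Multiset.map_map]
        rfl
      rw [e2, Polynomial.roots_multiset_prod_X_sub_C]
    rw [← e1, ← e1, hred]
  have hyinj : Function.Injective fun i => (y i : ZMod p) := by
    have h1 : (univ.val.map (fun i => (y i : ZMod p))).Nodup := by
      rw [← hms]
      exact (Finset.nodup _).map hx
    intro i j hij
    exact (Multiset.nodup_map_iff_inj_on (Finset.nodup univ)).1 h1 i (Finset.mem_univ i) j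
      (Finset.mem_univ j) hij
  have hex : ∀ i, ∃ j, (y i : ZMod p) = (x j : ZMod p) := by
    intro i
    have h1 : (y i : ZMod p) ∈ univ.val.map (fun i => (y i : ZMod p)) :=
      Multiset.mem_map.2 ⟨i, Finset.mem_univ i, rfl⟩
    rw [← hms] at h1
    obtain ⟨j, _, hj⟩ := Multiset.mem_map.1 h1
    exact ⟨j, hj.symm⟩
  choose τ hτ using hex
  have hτinj : Function.Injective τ := by
    intro i j hij
    apply hyinj
    change (y i : ZMod p) = (y j : ZMod p)
    rw [hτ i, hτ j, hij]
  refine ⟨Equiv.ofBijective τ (Finite.injective_iff_bijective.1 hτinj), fun i => ?_⟩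
  have heval : ∏ j, (b i - a j) = 0 := by
    have h1 := congrArg (Polynomial.eval (b i)) hpoly
    simp only [Polynomial.eval_prod, Polynomial.eval_sub, Polynomial.eval_X,
      Polynomial.eval_C] at h1
    rw [h1]
    exact Finset.prod_eq_zero (Finset.mem_univ i) (sub_self _)
  rw [← Finset.mul_prod_erase univ _ (Finset.mem_univ (τ i))] at heval
  have hunit : IsUnit (∏ j ∈ univ.erase (τ i), (b i - a j)) := by
    apply (Finset.prod_induction (p := fun z => IsUnit z) (fun j => b i - a j)
      (fun _ _ => IsUnit.mul) isUnit_one)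
    intro j hj
    have hne : j ≠ τ i := (Finset.mem_erase.1 hj).1
    have h1 := A4_unit (p := p) N (y i - x j) (by
      rw [Int.cast_sub]
      intro h0
      apply hne
      apply hx
      change (x j : ZMod p) = (x (τ i) : ZMod p)
      rw [← hτ i]
      exact (sub_eq_zero.1 h0).symm)
    rw [Int.cast_sub] at h1
    exact h1
  have hz : b i - a (τ i) = 0 := by
    apply hunit.mul_right_cancel
    rw [heval, zero_mul]
  exact sub_eq_zero.1 hz

end Pool.Agent.Helper17.KW
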