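import Mathlib
import Pool.Agent.Helper17.KW.St.A4

/-!
# KW-A5: the lemma of Linnik

Proof.  Map `x` in the set on the left to the vector `(ps x j : ZMod (p ^ D))`, `1 ≤ j ≤ D`.  Its
`j`-th coordinate reduces to the given class of `c j` modulo `p ^ j`, so there are at most
`∏_{j = 1}^{D} p ^ (D - j) = p ^ (D (D - 1) / 2)` possible vectors.  If `x` and `y` are in the
same fibre then `newton` (with `N = D`) gives a permutation `σ` with `y i ≡ x (σ i)` modulo `p ^ D`, so
`y = x ∘ σ` by `hX`: every fibre has at most `D!` elements.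
-/

set_option autoImplicit false

open Finset

namespace Pool.Agent.Helper17.KW

/-- the number of classes modulo `p ^ D` in a given class modulo `p ^ k` -/
lemma A5_card_fibre (D p k : ℕ) [Fact p.Prime] (hk : k ≤ D) (a : ℤ) :
    (Finset.univ.filter fun v : ZMod (p ^ D) => (v.val : ℤ) ≡ a [ZMOD (p ^ k : ℕ)]).card ≤
      p ^ (D - k) := by
  have hp0 : 0 < p := (Fact.out : p.Prime).pos
  have hD : NeZero (p ^ D) := ⟨(pow_pos hp0 D).ne'⟩
  have hpk : 0 < p ^ k := pow_pos hp0 k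
  rw [← Finset.card_range (p ^ (D - k))]
  refine Finset.card_le_card_of_injOn (fun v => v.val / p ^ k) ?_ ?_
  · intro v _
    rw [Finset.coe_range, Set.mem_Iio, Nat.div_lt_iff_lt_mul hpk, ← pow_add, Nat.sub_add_cancel hk]
    exact ZMod.val_lt v
  · intro v hv w hw hvw
    simp only [Finset.coe_filter, Finset.mem_univ, true_and] at hv hw
    have h1 : (v.val : ℤ) ≡ w.val [ZMOD (p ^ k : ℕ)] := Int.ModEq.trans hv (Int.ModEq.symm hw)
    rw [Int.natCast_modEq_iff] at h1
    have h2 : v.val % p ^ k = w.val % p ^ k := h1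
    have h3 : v.val / p ^ k = w.val / p ^ k := hvw
    apply ZMod.val_injective
    rw [← Nat.div_add_mod v.val (p ^ k), ← Nat.div_add_mod w.val (p ^ k), h2, h3]

open Classical in
theorem linnik (D p : ℕ) [Fact p.Prime] (hp : D < p) (X : Finset ℤ)
    (hX : ∀ x ∈ X, ∀ y ∈ X, (x : ZMod (p ^ D)) = (y : ZMod (p ^ D)) → x = y) (c : ℕ → ℤ) :
    ((dis D p X).filter fun x : Fin D → ℤ =>
      ∀ j ∈ Icc 1 D, (ps x j : ZMod (p ^ j)) = (c j : ZMod (p ^ j))).card ≤
        D.factorial * p ^ (D * (D - 1) / 2) := by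
  have hp0 : 0 < p := (Fact.out : p.Prime).pos
  have hDz : NeZero (p ^ D) := ⟨(pow_pos hp0 D).ne'⟩
  set S := (dis D p X).filter fun x : Fin D → ℤ =>
      ∀ j ∈ Icc 1 D, (ps x j : ZMod (p ^ j)) = (c j : ZMod (p ^ j)) with hS
  set f : (Fin D → ℤ) → (Fin D → ZMod (p ^ D)) := fun x j => (ps x ((j : ℕ) + 1) : ZMod (p ^ D))
    with hf
  have hmem : ∀ x ∈ S, (∀ i, x i ∈ X) ∧ Function.Injective (fun i => (x i : ZMod p)) ∧
      ∀ j ∈ Icc 1 D, (ps x j : ZMod (p ^ j)) = (c j : ZMod (p ^ j)) := by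
    intro x hx
    simp only [hS, dis, tup, Finset.mem_filter, Fintype.mem_piFinset] at hx
    exact ⟨hx.1.1, hx.1.2, hx.2⟩
  -- the fibres
  have hfib : ∀ b ∈ S.image f, (S.filter fun x => f x = b).card ≤ D.factorial := by
    intro b _
    rcases (S.filter fun x => f x = b).eq_empty_or_nonempty with he | ⟨x, hx⟩
    · rw [he]; simp
    rw [Finset.mem_filter] at hx
    obtain ⟨hxX, hxi, -⟩ := hmem x hx.1
    have hsub : (S.filter fun x => f x = b) ⊆
        (Finset.univ : Finset (Equiv.Perm (Fin D))).image fun σ => fun i => x (σ i) := by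
      intro y hy
      rw [Finset.mem_filter] at hy
      obtain ⟨hyX, -, -⟩ := hmem y hy.1
      have hxy : f x = f y := hx.2.trans hy.2.symm
      obtain ⟨σ, hσ⟩ := newton D p D hp x y hxi (fun j hj => by
        rw [Finset.mem_Icc] at hj
        have h1 := congrFun hxy ⟨j - 1, by omega⟩
        simp only [hf] at h1
        rwa [Nat.sub_add_cancel hj.1] at h1)
      rw [Finset.mem_image]
      refine ⟨σ, Finset.mem_univ _, ?_⟩
      funext i
      exact (hX _ (hyX i) _ (hxX (σ i)) (hσ i)).symm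
    refine (Finset.card_le_card hsub).trans (Finset.card_image_le.trans ?_)
    rw [Finset.card_univ, Fintype.card_perm, Fintype.card_fin]
  refine (Finset.card_le_mul_card_image S _ hfib).trans (Nat.mul_le_mul_left _ ?_)
  -- the image
  have himg : S.image f ⊆ Fintype.piFinset fun j : Fin D =>
      Finset.univ.filter fun v : ZMod (p ^ D) =>
        (v.val : ℤ) ≡ c ((j : ℕ) + 1) [ZMOD (p ^ ((j : ℕ) + 1) : ℕ)] := by
    intro b hb
    rw [Finset.mem_image] at hb
    obtain ⟨x, hx, rfl⟩ := hb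
    obtain ⟨-, -, hxc⟩ := hmem x hx
    rw [Fintype.mem_piFinset]
    intro j
    rw [Finset.mem_filter]
    refine ⟨Finset.mem_univ _, ?_⟩
    have h1 := hxc ((j : ℕ) + 1) (Finset.mem_Icc.2 ⟨by omega, by omega⟩)
    rw [ZMod.intCast_eq_intCast_iff] at h1
    have h2 : (((f x j).val : ℕ) : ℤ) ≡ ps x ((j : ℕ) + 1) [ZMOD (p ^ D : ℕ)] := by
      rw [← ZMod.intCast_eq_intCast_iff, Int.cast_natCast, ZMod.natCast_zmod_val]
    have h3 : ((p ^ ((j : ℕ) + 1) : ℕ) : ℤ) ∣ ((p ^ D : ℕ) : ℤ) :=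
      Int.natCast_dvd_natCast.2 (pow_dvd_pow p (by omega))
    exact (h2.of_dvd h3).trans h1
  refine (Finset.card_le_card himg).trans ?_
  rw [Fintype.card_piFinset]
  have h4 : ∀ j ∈ (Finset.univ : Finset (Fin D)), (Finset.univ.filter fun v : ZMod (p ^ D) =>
      (v.val : ℤ) ≡ c ((j : ℕ) + 1) [ZMOD (p ^ ((j : ℕ) + 1) : ℕ)]).card ≤
        p ^ (D - ((j : ℕ) + 1)) := fun j _ => A5_card_fibre D p _ (by omega) _
  refine (Finset.prod_le_prod' h4).trans ?_
  rw [Finset.prod_pow_eq_pow_sum]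
  refine le_of_eq (congrArg _ ?_)
  rw [Fin.sum_univ_eq_sum_range (fun j => D - (j + 1)) D]
  have h5 := Finset.sum_range_reflect (fun i => i) D
  rw [Finset.sum_range_id] at h5
  rw [← h5]
  refine Finset.sum_congr rfl fun j _ => ?_
  omega

end Pool.Agent.Helper17.KW
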