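import Mathlib
import Pool.Agent.Helper17.KW.St.A5
import Pool.Agent.Helper17.KW.St.A6

/-!
# KW-A7: the mixed system with free variables in one residue class

Proof.  Let `u0` be an integer representative of `u`.  If `((x, z), (x', z'))` is a solution then
(`shift_ps` applied to the tuples `Fin.append x z`, `Fin.append x' z'` and `a = - u0`)
`∑ (x_i - u0) ^ j + ∑ (z_i - u0) ^ j = ∑ (x'_i - u0) ^ j + ∑ (z'_i - u0) ^ j`, and `p ∣ z_i - u0`,
so `∑ (x_i - u0) ^ j ≡ ∑ (x'_i - u0) ^ j` modulo `p ^ j`.  For given `x'` (at most `P ^ D` choices) the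
number of `x` is at most `D! p ^ (D (D - 1) / 2)` by `linnik`, applied to the set
`{x - u0 | x ∈ Icc 1 P}` (its elements are distinct modulo `p ^ D` as `P ≤ p ^ D`).  For given `x, x'`
the number of `(z, z')` is at most `J D m (cls p u (Icc 1 P))` (`card_diff_le`), which is at most
`J D m (Icc 1 (P / p + 1))` by `J_cls`.
-/

set_option autoImplicit false

open Finset

namespace Pool.Agent.Helper17.KW

lemma A7_ps_append {a b : ℕ} (x : Fin a → ℤ) (z : Fin b → ℤ) (c : ℤ) (j : ℕ) :
    ps (fun i => Fin.append x z i + c) j = ps (fun i => x i + c) j + ps (fun i => z i + c) j := by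
  unfold ps
  rw [Fin.sum_univ_add]
  simp only [Fin.append_left, Fin.append_right]

lemma A7_ps_append' {a b : ℕ} (x : Fin a → ℤ) (z : Fin b → ℤ) (j : ℕ) :
    ps (Fin.append x z) j = ps x j + ps z j := by
  unfold ps
  rw [Fin.sum_univ_add]
  simp only [Fin.append_left, Fin.append_right]

lemma A7_ps_zero {p m : ℕ} (z : Fin m → ℤ) (c : ℤ) (h : ∀ i, ((z i + c : ℤ) : ZMod p) = 0) (j : ℕ) :
    ((ps (fun i => z i + c) j : ℤ) : ZMod (p ^ j)) = 0 := by
  rw [ZMod.intCast_zmod_eq_zero_iff_dvd]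
  unfold ps
  refine Finset.dvd_sum fun i _ => ?_
  have h1 := (ZMod.intCast_zmod_eq_zero_iff_dvd _ p).1 (h i)
  rw [Nat.cast_pow]
  exact pow_dvd_pow_of_dvd h1 j

theorem mix_cls_le (D m P p : ℕ) [Fact p.Prime] (hp : D < p) (hP : P ≤ p ^ D) (u : ZMod p) :
    mix D m (dis D p (Icc 1 (P : ℤ))) (cls p u (Icc 1 (P : ℤ))) ≤
      P ^ D * (D.factorial * p ^ (D * (D - 1) / 2)) * J D m (Icc 1 ((P / p + 1 : ℕ) : ℤ)) := by
  classical
  have hp0 : 0 < p := (Fact.out : p.Prime).pos
  have hpz : NeZero p := ⟨hp0.ne'⟩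
  obtain ⟨u0, hu0⟩ : ∃ u0 : ℤ, (u0 : ZMod p) = u := ⟨u.val, by simp⟩
  set T := dis D p (Icc 1 (P : ℤ)) with hT
  set X := cls p u (Icc 1 (P : ℤ)) with hX
  set X' : Finset ℤ := (Icc 1 (P : ℤ)).image fun x => x + (-u0) with hX'
  have hXX : ∀ x ∈ X', ∀ y ∈ X', (x : ZMod (p ^ D)) = (y : ZMod (p ^ D)) → x = y := by
    intro x hx y hy hxy
    rw [hX', Finset.mem_image] at hx hy
    obtain ⟨x1, hx1, rfl⟩ := hx
    obtain ⟨y1, hy1, rfl⟩ := hy
    rw [Finset.mem_Icc] at hx1 hy1
    rw [ZMod.intCast_eq_intCast_iff_dvd_sub] at hxy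
    have h1 : ((p ^ D : ℕ) : ℤ) ∣ y1 - x1 := by
      have : y1 + -u0 - (x1 + -u0) = y1 - x1 := by ring
      rwa [this] at hxy
    have h2 : (P : ℤ) ≤ ((p ^ D : ℕ) : ℤ) := by exact_mod_cast hP
    have h3 : |y1 - x1| < ((p ^ D : ℕ) : ℤ) := by
      rw [abs_lt]
      constructor <;> omega
    have h4 := Int.eq_zero_of_abs_lt_dvd h1 h3
    have : x1 = y1 := by omega
    rw [this]
  -- the pairs `(x', x)`
  set G := (T ×ˢ T).filter fun r : (Fin D → ℤ) × (Fin D → ℤ) =>
    ∀ j ∈ Icc 1 D, ((ps (fun i => r.2 i + (-u0)) j : ℤ) : ZMod (p ^ j)) =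
      ((ps (fun i => r.1 i + (-u0)) j : ℤ) : ZMod (p ^ j)) with hG
  have hGcard : G.card ≤ P ^ D * (D.factorial * p ^ (D * (D - 1) / 2)) := by
    have hTc : T.card ≤ P ^ D := by
      refine (Finset.card_filter_le _ _).trans ?_
      unfold tup
      rw [Fintype.card_piFinset]
      simp
    have hfib : ∀ b ∈ G.image Prod.fst, (G.filter fun r => r.1 = b).card ≤
        D.factorial * p ^ (D * (D - 1) / 2) := by
      intro b _
      refine le_trans ?_ (linnik D p hp X' hXX fun j => ps (fun i => b i + (-u0)) j)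
      refine Finset.card_le_card_of_injOn (fun r => fun i => r.2 i + (-u0)) ?_ ?_
      · intro r hr
        simp only [hG, Finset.mem_coe, Finset.mem_filter, Finset.mem_product] at hr
        obtain ⟨⟨⟨h1, h2⟩, h3⟩, h4⟩ := hr
        simp only [Finset.mem_coe, Finset.mem_filter]
        refine ⟨?_, ?_⟩
        · rw [hT] at h2
          simp only [dis, tup, Finset.mem_filter, Fintype.mem_piFinset] at h2 ⊢
          refine ⟨fun i => Finset.mem_image_of_mem _ (h2.1 i), fun i i' hii => h2.2 ?_⟩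
          simp only [Int.cast_add] at hii
          exact add_right_cancel hii
        · intro j hj
          rw [← h4]
          exact h3 j hj
      · intro r hr r' hr' hrr
        simp only [Finset.mem_coe, Finset.mem_filter] at hr hr'
        have h5 : r.2 = r'.2 := by
          funext i
          have := congrFun hrr i
          simp only at this
          omega
        exact Prod.ext (hr.2.trans hr'.2.symm) h5
    have h6 := Finset.card_le_mul_card_image G _ hfib
    have h7 : (G.image Prod.fst).card ≤ T.card := by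
      refine Finset.card_le_card ?_
      intro b hb
      rw [Finset.mem_image] at hb
      obtain ⟨r, hr, rfl⟩ := hb
      simp only [hG, Finset.mem_filter, Finset.mem_product] at hr
      exact hr.1.1
    calc G.card ≤ D.factorial * p ^ (D * (D - 1) / 2) * (G.image Prod.fst).card := h6
      _ ≤ D.factorial * p ^ (D * (D - 1) / 2) * P ^ D := Nat.mul_le_mul_left _ (h7.trans hTc)
      _ = _ := Nat.mul_comm _ _
  -- the fibres
  unfold mix
  set S := (((T ×ˢ tup m X) ×ˢ (T ×ˢ tup m X)).filter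
    fun q : ((Fin D → ℤ) × (Fin m → ℤ)) × ((Fin D → ℤ) × (Fin m → ℤ)) =>
      ∀ j ∈ Icc 1 D, ps q.1.1 j + ps q.1.2 j = ps q.2.1 j + ps q.2.2 j) with hS
  have hmap : ∀ q ∈ S, (q.2.1, q.1.1) ∈ G := by
    intro q hq
    simp only [hS, Finset.mem_filter, Finset.mem_product] at hq
    obtain ⟨⟨⟨h1, h2⟩, h3, h4⟩, h5⟩ := hq
    simp only [hG, Finset.mem_filter, Finset.mem_product]
    refine ⟨⟨h3, h1⟩, fun j hj => ?_⟩
    have h6 := shift_ps (D := D) (Fin.append q.1.1 q.1.2) (Fin.append q.2.1 q.2.2) (-u0)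
      (fun j hj => by rw [A7_ps_append', A7_ps_append']; exact h5 j hj) j hj
    rw [A7_ps_append, A7_ps_append] at h6
    have hz : ∀ z ∈ tup m X, ∀ i, ((z i + -u0 : ℤ) : ZMod p) = 0 := by
      intro z hz i
      rw [tup, Fintype.mem_piFinset] at hz
      have h7 := hz i
      rw [hX, cls, Finset.mem_filter] at h7
      rw [Int.cast_add, h7.2, Int.cast_neg, hu0, add_neg_cancel]
    have h8 := congrArg (fun t : ℤ => (t : ZMod (p ^ j))) h6
    simp only [Int.cast_add] at h8
    rw [A7_ps_zero _ _ (hz _ h2), A7_ps_zero _ _ (hz _ h4), add_zero, add_zero] at h8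
    exact h8
  have hfib : ∀ b ∈ S.image (fun q => (q.2.1, q.1.1)),
      (S.filter fun q => (q.2.1, q.1.1) = b).card ≤ J D m (Icc 1 ((P / p + 1 : ℕ) : ℤ)) := by
    intro b _
    refine le_trans ?_ ((card_diff_le D m X fun j => ps b.1 j - ps b.2 j).trans (J_cls D m P p hp0 u))
    refine Finset.card_le_card_of_injOn (fun q => (q.1.2, q.2.2)) ?_ ?_
    · intro q hq
      simp only [hS, Finset.mem_coe, Finset.mem_filter, Finset.mem_product] at hq
      obtain ⟨⟨⟨⟨h1, h2⟩, h3, h4⟩, h5⟩, h6⟩ := hq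
      simp only [Finset.mem_coe, Finset.mem_filter, Finset.mem_product]
      refine ⟨⟨h2, h4⟩, fun j hj => ?_⟩
      rw [← h6]
      have := h5 j hj
      show ps q.1.2 j = ps q.2.2 j + (ps q.2.1 j - ps q.1.1 j)
      omega
    · intro q hq q' hq' hqq
      simp only [Finset.mem_coe, Finset.mem_filter] at hq hq'
      have h1 := hq.2.trans hq'.2.symm
      simp only [Prod.mk.injEq] at h1 hqq
      exact Prod.ext (Prod.ext h1.2 hqq.1) (Prod.ext h1.1 hqq.2)
  have h1 := Finset.card_le_mul_card_image S _ hfib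
  have h2 : (S.image (fun q => (q.2.1, q.1.1))).card ≤ G.card := by
    refine Finset.card_le_card ?_
    intro b hb
    rw [Finset.mem_image] at hb
    obtain ⟨q, hq, rfl⟩ := hb
    exact hmap q hq
  calc S.card ≤ J D m (Icc 1 ((P / p + 1 : ℕ) : ℤ)) * (S.image (fun q => (q.2.1, q.1.1))).card := h1
    _ ≤ J D m (Icc 1 ((P / p + 1 : ℕ) : ℤ)) * (P ^ D * (D.factorial * p ^ (D * (D - 1) / 2))) :=
        Nat.mul_le_mul_left _ (h2.trans hGcard)
    _ = _ := Nat.mul_comm _ _

end Pool.Agent.Helper17.KW
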