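import Mathlib
import Pool.Agent.Helper17.KW.Defs

/-!
# KW-A8: tuples with at least `D` different residues

Proof.  If `x : Fin (m + D) → ℤ` has `D ≤ nres p x` there is an injection `ι : Fin D → Fin (m + D)`
such that the `x (ι i)` are distinct modulo `p`.  For an injection `ι` let
`R ι v = #{x ∈ tup (m + D) X | x ∘ ι ∈ dis D p X, ps x j = v j (1 ≤ j ≤ D)}`.  The left side is
at most `∑_v (∑_ι R ι v) ^ 2 ≤ #ι * ∑_ι ∑_v (R ι v) ^ 2`, the number of `ι` is at most
`(m + D) ^ D`, and `∑_v (R ι v) ^ 2 = mix D m (dis D p X) X`: choose a bijection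
`Fin (m + D) ≃ Fin D ⊕ Fin m` which carries `ι` to `Sum.inl` (the complement of the range of `ι` has
`m` elements) and note `ps x j = ps (x ∘ ι) j + ps (rest) j`.  (In the definition of `mix` the first
component is the `D`-tuple.)
-/

set_option autoImplicit false

open Finset

namespace Pool.Agent.Helper17.KW

/-- an injection whose coordinates have distinct residues -/
theorem A8_exists_emb (D b p : ℕ) (x : Fin b → ℤ) (h : D ≤ nres p x) :
    ∃ ι : Fin D ↪ Fin b, Function.Injective fun i => (x (ι i) : ZMod p) := by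
  classical
  unfold nres at h
  obtain ⟨t, ht, hc⟩ := Finset.exists_subset_card_eq h
  have hpre : ∀ u : t, ∃ i : Fin b, (x i : ZMod p) = u.1 := by
    intro u
    have := ht u.2
    simpa using this
  choose g hg using hpre
  let eqv : Fin D ≃ t := (finCongr hc.symm).trans t.equivFin.symm
  refine ⟨⟨fun i => g (eqv i), ?_⟩, ?_⟩
  · intro i i' hii
    have h1 := hg (eqv i)
    have h2 := hg (eqv i')
    have hii' : g (eqv i) = g (eqv i') := hii
    rw [hii', h2] at h1
    exact eqv.injective (Subtype.ext h1.symm)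
  · intro i i' hii
    have h1 := hg (eqv i)
    have h2 := hg (eqv i')
    have hii' : (x (g (eqv i)) : ZMod p) = (x (g (eqv i')) : ZMod p) := hii
    rw [h1, h2] at hii'
    exact eqv.injective (Subtype.ext hii')

/-- an equivalence which extends an injection -/
theorem A8_exists_equiv (D m : ℕ) (ι : Fin D ↪ Fin (m + D)) :
    ∃ σ : Fin D ⊕ Fin m ≃ Fin (m + D), ∀ i, σ (Sum.inl i) = ι i := by
  classical
  have h0 : Fintype.card (Set.range ι) = D := by
    rw [Set.card_range_of_injective ι.injective, Fintype.card_fin]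
  have h1 : Fintype.card ((Set.range ι)ᶜ : Set (Fin (m + D))) = m := by
    rw [Fintype.card_compl_set, h0, Fintype.card_fin]
    omega
  let e1 : Fin m ≃ ((Set.range ι)ᶜ : Set (Fin (m + D))) := (Fintype.equivFinOfCardEq h1).symm
  refine ⟨(Equiv.sumCongr (Equiv.ofInjective ι ι.injective) e1).trans (Equiv.Set.sumCompl _), ?_⟩
  intro i
  simp

/-- pairs with equal values: the mixed count is at most the mean of the two pure counts -/
theorem A8_cauchy {α β : Type*} [DecidableEq β] (A B : Finset α) (f : α → β) :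
    2 * ((A ×ˢ B).filter fun q => f q.1 = f q.2).card ≤
      ((A ×ˢ A).filter fun q => f q.1 = f q.2).card +
        ((B ×ˢ B).filter fun q => f q.1 = f q.2).card := by
  classical
  have key : ∀ (A B S : Finset α), A ⊆ S → ((A ×ˢ B).filter fun q => f q.1 = f q.2).card =
      ∑ v ∈ S.image f, (A.filter fun x => f x = v).card * (B.filter fun x => f x = v).card := by
    intro A B S hS
    rw [Finset.card_eq_sum_card_fiberwise (f := fun q : α × α => f q.1) (t := S.image f)]
    · refine Finset.sum_congr rfl fun v _ => ?_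
      rw [← Finset.card_product]
      congr 1
      ext ⟨x, y⟩
      simp only [Finset.mem_filter, Finset.mem_product]
      constructor
      · rintro ⟨⟨⟨hx, hy⟩, hxy⟩, hv⟩
        exact ⟨⟨hx, hv⟩, hy, hxy ▸ hv⟩
      · rintro ⟨⟨hx, hv⟩, hy, hv'⟩
        exact ⟨⟨⟨hx, hy⟩, hv.trans hv'.symm⟩, hv⟩
    · rintro ⟨x, y⟩ hxy
      simp only [Finset.coe_filter, Finset.mem_product, Set.mem_ofPred_eq] at hxy
      simp only [Finset.coe_image, Set.mem_image, Finset.mem_coe]
      exact ⟨x, hS hxy.1.1, rfl⟩
  rw [key A B (A ∪ B) Finset.subset_union_left, key A A (A ∪ B) Finset.subset_union_left,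
    key B B (A ∪ B) Finset.subset_union_right, ← Finset.sum_add_distrib, Finset.mul_sum]
  refine Finset.sum_le_sum fun v _ => ?_
  generalize (A.filter fun x => f x = v).card = a
  generalize (B.filter fun x => f x = v).card = b
  rcases le_total a b with h | h
  · obtain ⟨c, rfl⟩ := Nat.exists_eq_add_of_le h
    nlinarith [Nat.zero_le (c * c)]
  · obtain ⟨c, rfl⟩ := Nat.exists_eq_add_of_le h
    nlinarith [Nat.zero_le (c * c)]

open Classical in
/-- the pure count of one injection is at most the mixed count of the definition -/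
theorem A8_pure (D m p : ℕ) (X : Finset ℤ) (ι : Fin D ↪ Fin (m + D)) :
    (((((tup (m + D) X).filter fun x => Function.Injective fun i => (x (ι i) : ZMod p)) ×ˢ
      ((tup (m + D) X).filter fun x => Function.Injective fun i => (x (ι i) : ZMod p))).filter
        fun q => (fun j : Fin D => ps q.1 (j + 1)) = fun j : Fin D => ps q.2 (j + 1)).card) ≤
      mix D m (dis D p X) X := by
  obtain ⟨σ, hσ⟩ := A8_exists_equiv D m ι
  have hps : ∀ (x : Fin (m + D) → ℤ) (j : ℕ), ps x j =
      ps (fun i => x (σ (Sum.inl i))) j + ps (fun i => x (σ (Sum.inr i))) j := by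
    intro x j
    unfold ps
    rw [← Equiv.sum_comp σ, Fintype.sum_sum_type]
  unfold mix
  refine Finset.card_le_card_of_injOn (fun q => (((fun i => q.1 (σ (Sum.inl i))),
    (fun i => q.1 (σ (Sum.inr i)))), ((fun i => q.2 (σ (Sum.inl i))),
    (fun i => q.2 (σ (Sum.inr i)))))) ?_ ?_
  · rintro ⟨x, y⟩ hxy
    simp only [Finset.coe_filter, Finset.mem_product, Set.mem_ofPred_eq, Finset.mem_filter, tup,
      Fintype.mem_piFinset] at hxy
    obtain ⟨⟨⟨hx, hx'⟩, hy, hy'⟩, hf⟩ := hxy
    simp only [Finset.coe_filter, Finset.mem_product, Set.mem_ofPred_eq, Finset.mem_filter, tup,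
      Fintype.mem_piFinset, dis]
    refine ⟨⟨⟨⟨fun i => hx _, ?_⟩, fun i => hx _⟩, ⟨fun i => hy _, ?_⟩, fun i => hy _⟩, ?_⟩
    · simpa only [hσ] using hx'
    · simpa only [hσ] using hy'
    · intro j hj
      rw [Finset.mem_Icc] at hj
      have h1 := congrFun hf ⟨j - 1, by omega⟩
      simp only [Nat.sub_add_cancel hj.1] at h1
      rw [← hps, ← hps]
      exact h1
  · rintro ⟨x, y⟩ _ ⟨x', y'⟩ _ h
    simp only [Prod.mk.injEq] at h
    obtain ⟨⟨h1, h2⟩, h3, h4⟩ := h
    have hx : x = x' := by
      funext i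
      obtain ⟨s, rfl⟩ := σ.surjective i
      rcases s with i | i
      · exact congrFun h1 i
      · exact congrFun h2 i
    have hy : y = y' := by
      funext i
      obtain ⟨s, rfl⟩ := σ.surjective i
      rcases s with i | i
      · exact congrFun h3 i
      · exact congrFun h4 i
    rw [hx, hy]

theorem N_class_one (D m p : ℕ) (X : Finset ℤ) :
    N D (m + D) X {x | D ≤ nres p x} ≤ (m + D) ^ (2 * D) * mix D m (dis D p X) X := by
  classical
  set M := mix D m (dis D p X) X with hM
  let S : (Fin D ↪ Fin (m + D)) → Finset (Fin (m + D) → ℤ) := fun ι =>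
    (tup (m + D) X).filter fun x => Function.Injective fun i => (x (ι i) : ZMod p)
  let f : (Fin (m + D) → ℤ) → (Fin D → ℤ) := fun x j => ps x (j + 1)
  have hE : ∀ ι κ : Fin D ↪ Fin (m + D),
      (((S ι) ×ˢ (S κ)).filter fun q => f q.1 = f q.2).card ≤ M := by
    intro ι κ
    have h1 := A8_cauchy (S ι) (S κ) f
    have h2 : (((S ι) ×ˢ (S ι)).filter fun q => f q.1 = f q.2).card ≤ M := by
      have := A8_pure D m p X ι
      convert this using 2
    have h3 : (((S κ) ×ˢ (S κ)).filter fun q => f q.1 = f q.2).card ≤ M := by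
      have := A8_pure D m p X κ
      convert this using 2
    omega
  have hcard : Fintype.card (Fin D ↪ Fin (m + D)) ≤ (m + D) ^ D := by
    rw [Fintype.card_embedding_eq, Fintype.card_fin, Fintype.card_fin]
    exact Nat.descFactorial_le_pow _ _
  have hN : N D (m + D) X {x | D ≤ nres p x} ≤
      ((univ : Finset ((Fin D ↪ Fin (m + D)) × (Fin D ↪ Fin (m + D)))).biUnion fun w =>
        ((S w.1) ×ˢ (S w.2)).filter fun q => f q.1 = f q.2).card := by
    unfold N
    refine Finset.card_le_card ?_
    rintro ⟨x, y⟩ hxy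
    simp only [Finset.mem_filter, Finset.mem_product, Set.mem_ofPred_eq] at hxy
    obtain ⟨⟨hx, hy⟩, hx', hy', hps⟩ := hxy
    obtain ⟨ι, hι⟩ := A8_exists_emb D (m + D) p x hx'
    obtain ⟨κ, hκ⟩ := A8_exists_emb D (m + D) p y hy'
    simp only [Finset.mem_biUnion, Finset.mem_univ, true_and, Finset.mem_filter,
      Finset.mem_product, Prod.exists]
    refine ⟨ι, κ, ⟨?_, ?_⟩, ?_⟩
    · simp only [S, Finset.mem_filter]
      exact ⟨hx, hι⟩
    · simp only [S, Finset.mem_filter]
      exact ⟨hy, hκ⟩
    · funext j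
      exact hps _ (by rw [Finset.mem_Icc]; omega)
  refine hN.trans (Finset.card_biUnion_le.trans ?_)
  calc ∑ w : (Fin D ↪ Fin (m + D)) × (Fin D ↪ Fin (m + D)),
        (((S w.1) ×ˢ (S w.2)).filter fun q => f q.1 = f q.2).card
      ≤ ∑ _w : (Fin D ↪ Fin (m + D)) × (Fin D ↪ Fin (m + D)), M :=
        Finset.sum_le_sum fun w _ => hE w.1 w.2
    _ = Fintype.card (Fin D ↪ Fin (m + D)) * Fintype.card (Fin D ↪ Fin (m + D)) * M := by
        rw [Finset.sum_const, Finset.card_univ, Fintype.card_prod, smul_eq_mul]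
    _ ≤ (m + D) ^ D * (m + D) ^ D * M :=
        Nat.mul_le_mul_right _ (Nat.mul_le_mul hcard hcard)
    _ = (m + D) ^ (2 * D) * M := by rw [two_mul, pow_add]

end Pool.Agent.Helper17.KW
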