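import Mathlib
import Pool.Agent.Helper17.KW.Defs
import Pool.Agent.Helper17.KW.St.A1

/-!
# KW-A3: Hoelder for tuples with coordinates in given sets

Proof.  As in A2: by `parseval` (with `A = Fintype.piFinset X`, `f x j = ps x (j + 1)`, `M` large)
the left side times `M ^ D` is `∑_α ∏_i ‖S_{X i} α‖ ^ 2`, with
`S_Y α = ∑_{z ∈ Y} ∏_j χ (α j * z ^ (j + 1))`, and `M ^ D * J D b Y = ∑_α ‖S_Y α‖ ^ (2 b)`.  By the
inequality of the arithmetic and geometric means (`Real.inner_le_nnorm_mul_nnorm` is not needed;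
`Real.geom_mean_le_arith_mean_weighted` or `inner_mul_le_norm_mul_norm`; or
`∏_i a_i ≤ b⁻¹ ∑_i a_i ^ b` for `a_i ≥ 0`), `∏_i ‖S_{X i} α‖ ^ 2 ≤ b⁻¹ ∑_i ‖S_{X i} α‖ ^ (2 b)`,
so the left side is at most the mean of the `J D b (X i)`.
-/

set_option autoImplicit false

open Finset

namespace Pool.Agent.Helper17.KW

private noncomputable def A3_S (D M : ℕ) [NeZero M] (Y : Finset ℤ) (α : Fin D → ZMod M) : ℂ :=
  ∑ z ∈ Y, ∏ j : Fin D, (ZMod.stdAddChar (α j * ((z ^ (j.1 + 1) : ℤ) : ZMod M)) : ℂ)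

private lemma A3_prod (D b M : ℕ) [NeZero M] (X : Fin b → Finset ℤ) (α : Fin D → ZMod M) :
    ∑ a ∈ Fintype.piFinset X,
      ∏ j : Fin D, (ZMod.stdAddChar (α j * ((ps a (j.1 + 1) : ℤ) : ZMod M)) : ℂ) =
      ∏ i, A3_S D M (X i) α := by
  classical
  unfold A3_S
  rw [Finset.prod_univ_sum]
  refine sum_congr rfl fun a _ => ?_
  rw [prod_comm]
  refine prod_congr rfl fun j _ => ?_
  unfold ps
  rw [Int.cast_sum, mul_sum]
  have h : ∀ (s : Finset (Fin b)) (g : Fin b → ZMod M),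
      (ZMod.stdAddChar (∑ i ∈ s, g i) : ℂ) = ∏ i ∈ s, (ZMod.stdAddChar (g i) : ℂ) := by
    intro s g
    induction s using Finset.induction_on with
    | empty => simp
    | insert a s ha ih => rw [sum_insert ha, prod_insert ha, AddChar.map_add_eq_mul, ih]
  exact h univ _

open Classical in
private lemma A3_count (D b M : ℕ) [NeZero M] (X : Fin b → Finset ℤ)
    (hM : ∀ a ∈ Fintype.piFinset X, ∀ j : Fin D, 2 * |ps a (j.1 + 1)| < M) :
    ∑ α : Fin D → ZMod M, ∏ i, ‖A3_S D M (X i) α‖ ^ 2 =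
      (M : ℝ) ^ D * (((Fintype.piFinset X ×ˢ Fintype.piFinset X).filter
      fun q : (Fin b → ℤ) × (Fin b → ℤ) => ∀ j ∈ Icc 1 D, ps q.1 j = ps q.2 j).card : ℝ) := by
  have h := parseval D M (Fintype.piFinset X) (fun a (j : Fin D) => ps a (j.1 + 1)) hM
  have h1 : ∀ α : Fin D → ZMod M, ∏ i, ‖A3_S D M (X i) α‖ ^ 2 =
      ‖∑ a ∈ Fintype.piFinset X,
        ∏ j : Fin D, (ZMod.stdAddChar (α j * ((ps a (j.1 + 1) : ℤ) : ZMod M)) : ℂ)‖ ^ 2 := by
    intro α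
    rw [A3_prod, norm_prod, prod_pow]
  rw [sum_congr rfl fun α _ => h1 α, h]
  congr 2
  refine congrArg Finset.card (Finset.ext fun q => ?_)
  simp only [mem_filter]
  refine and_congr_right fun _ => ?_
  constructor
  · intro h2 j hj
    rw [mem_Icc] at hj
    have h3 := congrFun h2 ⟨j - 1, by omega⟩
    simp only at h3
    rwa [Nat.sub_add_cancel hj.1] at h3
  · intro h2
    funext j
    exact h2 (j.1 + 1) (mem_Icc.2 ⟨by omega, by omega⟩)

private lemma A3_amgm {b : ℕ} (hb : 1 ≤ b) (y : Fin b → ℝ) (hy : ∀ i, 0 ≤ y i) :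
    (b : ℝ) * ∏ i, y i ≤ ∑ i, y i ^ b := by
  have hb0 : (b : ℝ) ≠ 0 := by
    have : b ≠ 0 := by omega
    exact_mod_cast this
  have hbpos : (0 : ℝ) < b := lt_of_le_of_ne (Nat.cast_nonneg b) (Ne.symm hb0)
  have h := Real.geom_mean_le_arith_mean_weighted (univ : Finset (Fin b))
    (fun _ => (b : ℝ)⁻¹) (fun i => y i ^ b) (fun i _ => inv_nonneg.2 hbpos.le)
    (by rw [sum_const, card_univ, Fintype.card_fin, nsmul_eq_mul, mul_inv_cancel₀ hb0])
    (fun i _ => pow_nonneg (hy i) b)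
  have h2 : ∀ i, (y i ^ b) ^ ((b : ℝ)⁻¹) = y i :=
    fun i => Real.pow_rpow_inv_natCast (hy i) (by omega)
  rw [prod_congr rfl fun i _ => h2 i, ← mul_sum] at h
  calc (b : ℝ) * ∏ i, y i ≤ b * ((b : ℝ)⁻¹ * ∑ i, y i ^ b) :=
        mul_le_mul_of_nonneg_left h hbpos.le
    _ = ∑ i, y i ^ b := by rw [← mul_assoc, mul_inv_cancel₀ hb0, one_mul]

open Classical in
theorem card_le_J (D b : ℕ) (hb : 1 ≤ b) (X : Fin b → Finset ℤ) :
    ∃ i, ((Fintype.piFinset X ×ˢ Fintype.piFinset X).filter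
      fun q : (Fin b → ℤ) × (Fin b → ℤ) => ∀ j ∈ Icc 1 D, ps q.1 j = ps q.2 j).card ≤
        J D b (X i) := by
  set U : Finset ℤ := univ.biUnion X with hU
  obtain ⟨S, hS⟩ : ∃ S : ℕ, S = ∑ a ∈ tup b U, ∑ j : Fin D, (ps a (j.1 + 1)).natAbs := ⟨_, rfl⟩
  obtain ⟨M, hM⟩ : ∃ M : ℕ, M = 2 * S + 1 := ⟨_, rfl⟩
  have : NeZero M := ⟨by omega⟩
  have hbound : ∀ a ∈ tup b U, ∀ j : Fin D, 2 * |ps a (j.1 + 1)| < M := by
    intro a ha j
    have h1 : (ps a (j.1 + 1)).natAbs ≤ ∑ j : Fin D, (ps a (j.1 + 1)).natAbs :=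
      single_le_sum (f := fun j : Fin D => (ps a (j.1 + 1)).natAbs) (fun _ _ => Nat.zero_le _)
        (mem_univ j)
    have h2 : ∑ j : Fin D, (ps a (j.1 + 1)).natAbs ≤
        ∑ a ∈ tup b U, ∑ j : Fin D, (ps a (j.1 + 1)).natAbs :=
      single_le_sum (f := fun a : Fin b → ℤ => ∑ j : Fin D, (ps a (j.1 + 1)).natAbs)
        (fun _ _ => Nat.zero_le _) ha
    have h3 := h1.trans h2
    rw [← hS] at h3
    rw [Int.abs_eq_natAbs]
    omega
  have hsub : ∀ Y : Fin b → Finset ℤ, (∀ i, Y i ⊆ U) →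
      ∀ a ∈ Fintype.piFinset Y, ∀ j : Fin D, 2 * |ps a (j.1 + 1)| < M := by
    intro Y hY a ha j
    refine hbound a ?_ j
    rw [Fintype.mem_piFinset] at ha
    exact Fintype.mem_piFinset.2 fun i => hY i (ha i)
  have hXU : ∀ i, X i ⊆ U := fun i => subset_biUnion_of_mem X (mem_univ i)
  have e1 := A3_count D b M X (hsub X hXU)
  have e2 : ∀ i, ∑ α : Fin D → ZMod M, (‖A3_S D M (X i) α‖ ^ 2) ^ b =
      (M : ℝ) ^ D * (J D b (X i) : ℝ) := by
    intro i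
    have h := A3_count D b M (fun _ => X i) (hsub _ fun _ => hXU i)
    simp only [prod_const, card_univ, Fintype.card_fin] at h
    rw [h]
    rfl
  have hMpos : (0 : ℝ) < (M : ℝ) ^ D := by
    have : (0 : ℝ) < M := by exact_mod_cast Nat.pos_of_ne_zero (NeZero.ne M)
    positivity
  have key : (b : ℝ) * (((Fintype.piFinset X ×ˢ Fintype.piFinset X).filter
      fun q : (Fin b → ℤ) × (Fin b → ℤ) => ∀ j ∈ Icc 1 D, ps q.1 j = ps q.2 j).card : ℝ) ≤
      ∑ i, (J D b (X i) : ℝ) := by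
    rw [← mul_le_mul_iff_right₀ hMpos]
    calc (M : ℝ) ^ D * ((b : ℝ) * (((Fintype.piFinset X ×ˢ Fintype.piFinset X).filter
          fun q : (Fin b → ℤ) × (Fin b → ℤ) => ∀ j ∈ Icc 1 D, ps q.1 j = ps q.2 j).card : ℝ))
        = (b : ℝ) * ∑ α : Fin D → ZMod M, ∏ i, ‖A3_S D M (X i) α‖ ^ 2 := by rw [e1]; ring
      _ = ∑ α : Fin D → ZMod M, (b : ℝ) * ∏ i, ‖A3_S D M (X i) α‖ ^ 2 := by rw [mul_sum]
      _ ≤ ∑ α : Fin D → ZMod M, ∑ i, (‖A3_S D M (X i) α‖ ^ 2) ^ b :=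
          sum_le_sum fun α _ => A3_amgm hb _ fun i => by positivity
      _ = ∑ i, ∑ α : Fin D → ZMod M, (‖A3_S D M (X i) α‖ ^ 2) ^ b := sum_comm
      _ = (M : ℝ) ^ D * ∑ i, (J D b (X i) : ℝ) := by
          rw [mul_sum]
          exact sum_congr rfl fun i _ => e2 i
  have hne : (univ : Finset (Fin b)).Nonempty := ⟨⟨0, by omega⟩, mem_univ _⟩
  have h3 : ∑ _i : Fin b, (((Fintype.piFinset X ×ˢ Fintype.piFinset X).filter
      fun q : (Fin b → ℤ) × (Fin b → ℤ) => ∀ j ∈ Icc 1 D, ps q.1 j = ps q.2 j).card : ℝ) ≤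
      ∑ i, (J D b (X i) : ℝ) := by
    rw [sum_const, card_univ, Fintype.card_fin, nsmul_eq_mul]
    exact key
  obtain ⟨i, _, hi⟩ := exists_le_of_sum_le hne h3
  exact ⟨i, by exact_mod_cast hi⟩

end Pool.Agent.Helper17.KW
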