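import Mathlib
import Pool.Agent.Helper17.KW.St.A3
import Pool.Agent.Helper17.KW.St.A6

/-!
# KW-A9: tuples with few different residues

Proof.
* `card_few`: if `b = 0` or `D = 1` this is clear (for `D = 1`, `b ≥ 1` there is no such `u`).
  Otherwise every such `u` is a composition `g ∘ t` with `g : Fin (D - 1) → ZMod p` and
  `t : Fin b → Fin (D - 1)`, so there are at most `p ^ (D - 1) (D - 1) ^ b` of them.
* `N_class_two`: let `W` be the set of `card_few`.  For `u ∈ W` and a vector `v` let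
  `R u v = #{x ∈ tup b (Icc 1 P) | x i ≡ u i, ps x j = v j (1 ≤ j ≤ D)}`.  The left side is
  `∑_v (∑_{u ∈ W} R u v) ^ 2 ≤ #W * ∑_{u ∈ W} ∑_v (R u v) ^ 2`.  By `card_le_J` (with
  `X i = cls p (u i) (Icc 1 P)`) and `J_cls`, `∑_v (R u v) ^ 2 ≤ J D b (Icc 1 (P / p + 1))`.
-/

set_option autoImplicit false

open Finset

namespace Pool.Agent.Helper17.KW

theorem card_few (D b p : ℕ) [NeZero p] (hD : 1 ≤ D) :
    ((univ : Finset (Fin b → ZMod p)).filter fun u => (univ.image u).card < D).card ≤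
      D ^ b * p ^ (D - 1) := by
  have hsub : ((univ : Finset (Fin b → ZMod p)).filter fun u => (univ.image u).card < D) ⊆
      (univ : Finset ((Fin (D - 1) → ZMod p) × (Fin b → Fin (D - 1)))).image
        fun q => q.1 ∘ q.2 := by
    intro u hu
    rw [mem_filter] at hu
    have hc : (univ.image u).card ≤ D - 1 := by omega
    have hc' : Fintype.card ↥(univ.image u) ≤ Fintype.card (Fin (D - 1)) := by
      rw [Fintype.card_coe, Fintype.card_fin]
      exact hc
    obtain ⟨e⟩ := Function.Embedding.nonempty_of_card_le hc'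
    let t : Fin b → Fin (D - 1) := fun i => e ⟨u i, mem_image_of_mem u (mem_univ i)⟩
    have ht : u.FactorsThrough t := by
      intro a a' h
      have h1 := e.injective h
      exact congrArg Subtype.val h1
    rw [mem_image]
    refine ⟨(Function.extend t u 0, t), mem_univ _, ?_⟩
    funext i
    simp only [Function.comp]
    exact ht.extend_apply 0 i
  refine (card_le_card hsub).trans (card_image_le.trans ?_)
  rw [card_univ, Fintype.card_prod, Fintype.card_fun, Fintype.card_fun, Fintype.card_fin,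
    Fintype.card_fin, ZMod.card, mul_comm]
  exact Nat.mul_le_mul_right _ (Nat.pow_le_pow_left (Nat.sub_le D 1) b)

theorem A9_pair_sum {α β : Type*} [DecidableEq β] (A B : Finset α) (F : α → β) (T : Finset β)
    (hA : ∀ a ∈ A, F a ∈ T) :
    ((A ×ˢ B).filter fun q : α × α => F q.1 = F q.2).card =
      ∑ v ∈ T, (A.filter fun a => F a = v).card * (B.filter fun a => F a = v).card := by
  rw [card_eq_sum_card_fiberwise (f := fun q : α × α => F q.1) (t := T)]
  · refine sum_congr rfl fun v _ => ?_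
    rw [← card_product]
    congr 1
    ext q
    simp only [mem_filter, mem_product]
    constructor
    · rintro ⟨⟨⟨h1, h2⟩, h3⟩, h4⟩
      exact ⟨⟨h1, h4⟩, h2, h3 ▸ h4⟩
    · rintro ⟨⟨h1, h4⟩, h2, h3⟩
      exact ⟨⟨⟨h1, h2⟩, h4.trans h3.symm⟩, h4⟩
  · intro q hq
    have hq' := (mem_filter.1 (mem_coe.1 hq)).1
    exact mem_coe.2 (hA _ (mem_product.1 hq').1)

theorem A9_pair_le {α β : Type*} [DecidableEq β] (A B : Finset α) (F : α → β) :
    2 * ((A ×ˢ B).filter fun q : α × α => F q.1 = F q.2).card ≤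
      ((A ×ˢ A).filter fun q : α × α => F q.1 = F q.2).card +
        ((B ×ˢ B).filter fun q : α × α => F q.1 = F q.2).card := by
  have hA : ∀ a ∈ A, F a ∈ A.image F ∪ B.image F := fun a ha =>
    mem_union_left _ (mem_image_of_mem F ha)
  have hB : ∀ a ∈ B, F a ∈ A.image F ∪ B.image F := fun a ha =>
    mem_union_right _ (mem_image_of_mem F ha)
  rw [A9_pair_sum A B F _ hA, A9_pair_sum A A F _ hA, A9_pair_sum B B F _ hB, mul_sum,
    ← sum_add_distrib]
  refine sum_le_sum fun v _ => ?_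
  have h := two_mul_le_add_sq (A.filter fun a => F a = v).card (B.filter fun a => F a = v).card
  nlinarith [h]

theorem A9_class_two (D b P p : ℕ) [NeZero p] (hD : 1 ≤ D) (hb : 1 ≤ b)
    (C : Set (Fin b → ℤ)) (hC : ∀ x ∈ C, nres p x < D) :
    N D b (Icc 1 (P : ℤ)) C ≤
      (D ^ b * p ^ (D - 1)) ^ 2 * J D b (Icc 1 ((P / p + 1 : ℕ) : ℤ)) := by
  classical
  set W : Finset (Fin b → ZMod p) :=
    (univ : Finset (Fin b → ZMod p)).filter fun u => (univ.image u).card < D with hW
  set M := J D b (Icc 1 ((P / p + 1 : ℕ) : ℤ)) with hM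
  have hp : 0 < p := Nat.pos_of_ne_zero (NeZero.ne p)
  let F : (Fin b → ℤ) → (↥(Icc 1 D) → ℤ) := fun x j => ps x j
  have hF : ∀ x y : Fin b → ℤ, (∀ j ∈ Icc 1 D, ps x j = ps y j) ↔ F x = F y := by
    intro x y
    constructor
    · intro h
      funext j
      exact h j j.2
    · intro h j hj
      exact congrFun h ⟨j, hj⟩
  let A : (Fin b → ZMod p) → Finset (Fin b → ℤ) := fun u =>
    Fintype.piFinset fun i => cls p (u i) (Icc 1 (P : ℤ))
  have hA : ∀ u, ((A u ×ˢ A u).filter fun q : (Fin b → ℤ) × (Fin b → ℤ) =>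
      F q.1 = F q.2).card ≤ M := by
    intro u
    obtain ⟨i, hi⟩ := card_le_J D b hb fun i => cls p (u i) (Icc 1 (P : ℤ))
    refine le_trans (le_of_eq ?_) (hi.trans (J_cls D b P p hp (u i)))
    congr 1
    ext q
    simp only [mem_filter, hF, A]
  have hAB : ∀ u u', ((A u ×ˢ A u').filter fun q : (Fin b → ℤ) × (Fin b → ℤ) =>
      F q.1 = F q.2).card ≤ M := by
    intro u u'
    have h1 := A9_pair_le (A u) (A u') F
    have h2 := hA u
    have h3 := hA u'
    omega
  have key : N D b (Icc 1 (P : ℤ)) C ≤ M * (W ×ˢ W).card := by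
    have hN : N D b (Icc 1 (P : ℤ)) C = ((tup b (Icc 1 (P : ℤ)) ×ˢ tup b (Icc 1 (P : ℤ))).filter
        fun q : (Fin b → ℤ) × (Fin b → ℤ) => q.1 ∈ C ∧ q.2 ∈ C ∧ F q.1 = F q.2).card := by
      unfold N
      congr 1
      ext q
      simp only [mem_filter, hF]
    rw [hN]
    refine card_le_mul_card_image_of_maps_to
      (f := fun q : (Fin b → ℤ) × (Fin b → ℤ) =>
        ((fun i => (q.1 i : ZMod p)), fun i => (q.2 i : ZMod p))) ?_ M ?_
    · intro q hq
      rw [mem_filter] at hq
      obtain ⟨-, h1, h2, -⟩ := hq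
      rw [mem_product]
      constructor
      · rw [hW, mem_filter]
        exact ⟨mem_univ _, hC _ h1⟩
      · rw [hW, mem_filter]
        exact ⟨mem_univ _, hC _ h2⟩
    · rintro ⟨u, u'⟩ -
      refine (card_le_card ?_).trans (hAB u u')
      intro q hq
      rw [mem_filter, mem_filter, mem_product, Prod.mk.injEq] at hq
      obtain ⟨⟨⟨h1, h2⟩, -, -, h3⟩, h4, h5⟩ := hq
      rw [mem_filter, mem_product]
      refine ⟨⟨?_, ?_⟩, h3⟩
      · rw [Fintype.mem_piFinset]
        intro i
        rw [cls, mem_filter]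
        exact ⟨(Fintype.mem_piFinset.1 h1) i, congrFun h4 i⟩
      · rw [Fintype.mem_piFinset]
        intro i
        rw [cls, mem_filter]
        exact ⟨(Fintype.mem_piFinset.1 h2) i, congrFun h5 i⟩
  have hWc : W.card ≤ D ^ b * p ^ (D - 1) := card_few D b p hD
  calc N D b (Icc 1 (P : ℤ)) C ≤ M * (W ×ˢ W).card := key
    _ = (W.card) ^ 2 * M := by rw [card_product]; ring
    _ ≤ (D ^ b * p ^ (D - 1)) ^ 2 * M := Nat.mul_le_mul_right _ (Nat.pow_le_pow_left hWc 2)

theorem N_class_two (D b P p : ℕ) [NeZero p] (hD : 1 ≤ D) (hb : 1 ≤ b) :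
    N D b (Icc 1 (P : ℤ)) {x | nres p x < D} ≤
      (D ^ b * p ^ (D - 1)) ^ 2 * J D b (Icc 1 ((P / p + 1 : ℕ) : ℤ)) :=
  A9_class_two D b P p hD hb {x | nres p x < D} fun _ hx => hx

end Pool.Agent.Helper17.KW
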