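import Mathlib
import Pool.Agent.Helper17.KW.St.A2
import Pool.Agent.Helper17.KW.St.A7
import Pool.Agent.Helper17.KW.St.A8
import Pool.Agent.Helper17.KW.St.A9

/-!
# KW-A10: the recursive inequality

Proof.
* `J_le_N`: with `r v`, `r' v` the numbers of tuples in `C`, not in `C`, with power sums `v`:
  `∑ (r + r') ^ 2 ≤ 2 ∑ r ^ 2 + 2 ∑ r' ^ 2`.
* `recursion`: put `b = m + D`, `C = {x | D ≤ nres p x}`, `Y = Icc 1 (P / p + 1)`.  By
  `N_class_one`, `mix_le_cls`, `mix_cls_le` the first term of `J_le_N` is at most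
  `2 b ^ (2 D) p ^ (2 m) P ^ D D! p ^ (D (D - 1) / 2) J D m Y`.  By `N_class_two` and `J_add_le` (the set
  `Y` has `P / p + 1` elements) the second is at most
  `2 (D ^ b p ^ (D - 1)) ^ 2 (P / p + 1) ^ (2 D) J D m Y`, and as `p (P / p + 1) ≤ P + p ≤ 2 P` and
  `P ^ D ≤ p ^ (D ^ 2) ≤ p ^ (2 m)`:
  `p ^ (2 (D - 1)) (P / p + 1) ^ (2 D) ≤ (2 P) ^ (2 D) ≤ 4 ^ D P ^ D p ^ (2 m)`.
  Finally `2 b ^ (2 D) D! + 2 D ^ (2 b) 4 ^ D ≤ (4 b) ^ (4 b)` (`D ≤ b`, `D! ≤ b ^ D`).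
-/

set_option autoImplicit false

open Finset

namespace Pool.Agent.Helper17.KW

theorem J_le_N (D b : ℕ) (X : Finset ℤ) (C : Set (Fin b → ℤ)) :
    J D b X ≤ 2 * N D b X C + 2 * N D b X Cᶜ := by
  classical
  let F : (Fin b → ℤ) → (↥(Icc 1 D) → ℤ) := fun x j => ps x j
  have hF : ∀ x y : Fin b → ℤ, (∀ j ∈ Icc 1 D, ps x j = ps y j) ↔ F x = F y := by
    intro x y
    constructor
    · intro h
      funext j
      exact h j j.2
    · intro h j hj
      exact congrFun h ⟨j, hj⟩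
  set A : Finset (Fin b → ℤ) := (tup b X).filter fun x => x ∈ C with hA
  set B : Finset (Fin b → ℤ) := (tup b X).filter fun x => x ∉ C with hB
  have hNA : N D b X C = ((A ×ˢ A).filter fun q : (Fin b → ℤ) × (Fin b → ℤ) =>
      F q.1 = F q.2).card := by
    unfold N
    congr 1
    ext q
    simp only [mem_filter, mem_product, hF, hA]
    tauto
  have hNB : N D b X Cᶜ = ((B ×ˢ B).filter fun q : (Fin b → ℤ) × (Fin b → ℤ) =>
      F q.1 = F q.2).card := by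
    unfold N
    congr 1
    ext q
    simp only [mem_filter, mem_product, hF, hB, Set.mem_compl_iff]
    tauto
  have hJ : J D b X ≤ ((A ×ˢ A).filter fun q : (Fin b → ℤ) × (Fin b → ℤ) =>
      F q.1 = F q.2).card + ((B ×ˢ B).filter fun q : (Fin b → ℤ) × (Fin b → ℤ) =>
      F q.1 = F q.2).card + (((A ×ˢ B).filter fun q : (Fin b → ℤ) × (Fin b → ℤ) =>
      F q.1 = F q.2).card + ((B ×ˢ A).filter fun q : (Fin b → ℤ) × (Fin b → ℤ) =>
      F q.1 = F q.2).card) := by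
    refine le_trans (card_le_card (t := (((A ×ˢ A).filter fun q : (Fin b → ℤ) × (Fin b → ℤ) =>
      F q.1 = F q.2) ∪ ((B ×ˢ B).filter fun q : (Fin b → ℤ) × (Fin b → ℤ) =>
      F q.1 = F q.2)) ∪ (((A ×ˢ B).filter fun q : (Fin b → ℤ) × (Fin b → ℤ) =>
      F q.1 = F q.2) ∪ ((B ×ˢ A).filter fun q : (Fin b → ℤ) × (Fin b → ℤ) =>
      F q.1 = F q.2))) ?_) ?_
    · intro q hq
      simp only [mem_filter, mem_product, hF] at hq
      simp only [mem_union, mem_filter, mem_product, hA, hB]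
      tauto
    · exact (card_union_le _ _).trans (Nat.add_le_add (card_union_le _ _) (card_union_le _ _))
  have h1 := A9_pair_le A B F
  have h2 := A9_pair_le B A F
  rw [hNA, hNB]
  omega

theorem recursion (D m P p : ℕ) [Fact p.Prime] (hD : 2 ≤ D) (hp : D < p) (hpP : p ≤ P)
    (hP : P ≤ p ^ D) (hm : D ^ 2 ≤ m) :
    J D (m + D) (Icc 1 (P : ℤ)) ≤ (4 * (m + D)) ^ (4 * (m + D)) *
      (p ^ (2 * m + D * (D - 1) / 2) * P ^ D) * J D m (Icc 1 ((P / p + 1 : ℕ) : ℤ)) := by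
  classical
  have hp0 : 0 < p := (Fact.out : p.Prime).pos
  have : NeZero p := ⟨hp0.ne'⟩
  have hD0 : 0 < D := by omega
  have hm1 : 1 ≤ m := le_trans (Nat.one_le_pow 2 D hD0) hm
  set M := J D m (Icc 1 ((P / p + 1 : ℕ) : ℤ)) with hM
  set K := D * (D - 1) / 2 with hK
  -- the first class
  have h1 : N D (m + D) (Icc 1 (P : ℤ)) {x | D ≤ nres p x} ≤
      (m + D) ^ (2 * D) * (p ^ (2 * m) * (P ^ D * (D.factorial * p ^ K) * M)) := by
    refine (N_class_one D m p _).trans (Nat.mul_le_mul_left _ ?_)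
    obtain ⟨u, hu⟩ := mix_le_cls D m p hm1 (dis D p (Icc 1 (P : ℤ))) (Icc 1 (P : ℤ))
    exact hu.trans (Nat.mul_le_mul_left _ (mix_cls_le D m P p hp hP u))
  -- the second class
  have h2 : N D (m + D) (Icc 1 (P : ℤ)) {x | nres p x < D} ≤
      (D ^ (m + D) * p ^ (D - 1)) ^ 2 * ((P / p + 1) ^ (2 * D) * M) := by
    refine (N_class_two D (m + D) P p hD0 (by omega)).trans (Nat.mul_le_mul_left _ ?_)
    have h := J_add_le D m D (Icc 1 ((P / p + 1 : ℕ) : ℤ))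
    rwa [Int.card_Icc, add_sub_cancel_right, Int.toNat_natCast] at h
  have hcompl : ({x | D ≤ nres p x} : Set (Fin (m + D) → ℤ))ᶜ = {x | nres p x < D} := by
    ext x
    simp only [Set.mem_compl_iff, Set.mem_ofPred_eq, not_le]
  have h0 := J_le_N D (m + D) (Icc 1 (P : ℤ)) {x | D ≤ nres p x}
  rw [hcompl] at h0
  -- arithmetic
  have ha : p * (P / p + 1) ≤ 2 * P := by
    have := Nat.mul_div_le P p
    rw [mul_add, mul_one]
    omega
  have hb : (p ^ (D - 1)) ^ 2 * (P / p + 1) ^ (2 * D) ≤ 4 ^ D * (p ^ (2 * m) * P ^ D) := by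
    calc (p ^ (D - 1)) ^ 2 * (P / p + 1) ^ (2 * D)
        ≤ p ^ (2 * D) * (P / p + 1) ^ (2 * D) := by
          refine Nat.mul_le_mul_right _ ?_
          rw [← pow_mul]
          exact Nat.pow_le_pow_right hp0 (by omega)
      _ = (p * (P / p + 1)) ^ (2 * D) := by rw [mul_pow]
      _ ≤ (2 * P) ^ (2 * D) := Nat.pow_le_pow_left ha _
      _ = 4 ^ D * (P ^ D * P ^ D) := by
          rw [mul_pow, pow_mul, ← pow_add, two_mul D]; norm_num
      _ ≤ 4 ^ D * (p ^ (2 * m) * P ^ D) := by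
          refine Nat.mul_le_mul_left _ (Nat.mul_le_mul_right _ ?_)
          calc P ^ D ≤ (p ^ D) ^ D := Nat.pow_le_pow_left hP _
            _ = p ^ (D ^ 2) := by rw [← pow_mul, sq]
            _ ≤ p ^ (2 * m) := Nat.pow_le_pow_right hp0 (by omega)
  have hpK : p ^ (2 * m + K) = p ^ (2 * m) * p ^ K := pow_add _ _ _
  have hpK1 : 1 ≤ p ^ K := Nat.one_le_pow _ _ hp0
  -- the constant
  have hconst : 2 * ((m + D) ^ (2 * D) * D.factorial) + 2 * ((D ^ (m + D)) ^ 2 * 4 ^ D) ≤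
      (4 * (m + D)) ^ (4 * (m + D)) := by
    set b := m + D with hb'
    have hDb : D ≤ b := by omega
    have hb1 : 1 ≤ b := by omega
    have e1 : b ^ (2 * D) * D.factorial ≤ 4 ^ b * b ^ (3 * b) := by
      calc b ^ (2 * D) * D.factorial ≤ b ^ (2 * b) * b ^ b := by
            refine Nat.mul_le_mul (Nat.pow_le_pow_right hb1 (by omega)) ?_
            calc D.factorial ≤ D ^ D := Nat.factorial_le_pow D
              _ ≤ b ^ D := Nat.pow_le_pow_left hDb _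
              _ ≤ b ^ b := Nat.pow_le_pow_right hb1 hDb
        _ = 1 * b ^ (3 * b) := by rw [← pow_add, one_mul]; congr 1; ring
        _ ≤ 4 ^ b * b ^ (3 * b) := Nat.mul_le_mul_right _ (Nat.one_le_pow _ _ (by norm_num))
    have e2 : (D ^ b) ^ 2 * 4 ^ D ≤ 4 ^ b * b ^ (3 * b) := by
      calc (D ^ b) ^ 2 * 4 ^ D ≤ (b ^ b) ^ 2 * 4 ^ b :=
            Nat.mul_le_mul (Nat.pow_le_pow_left (Nat.pow_le_pow_left hDb _) _)
              (Nat.pow_le_pow_right (by norm_num) hDb)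
        _ = 4 ^ b * b ^ (b * 2) := by rw [← pow_mul, mul_comm]
        _ ≤ 4 ^ b * b ^ (3 * b) :=
            Nat.mul_le_mul_left _ (Nat.pow_le_pow_right hb1 (by omega))
    calc 2 * (b ^ (2 * D) * D.factorial) + 2 * ((D ^ b) ^ 2 * 4 ^ D)
        ≤ 4 * (4 ^ b * b ^ (3 * b)) := by omega
      _ = 4 ^ (b + 1) * b ^ (3 * b) := by rw [pow_succ]; ring
      _ ≤ 4 ^ (4 * b) * b ^ (4 * b) :=
          Nat.mul_le_mul (Nat.pow_le_pow_right (by norm_num) (by omega))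
            (Nat.pow_le_pow_right hb1 (by omega))
      _ = (4 * b) ^ (4 * b) := by rw [mul_pow]
  have hQ : (p ^ (D - 1)) ^ 2 * (P / p + 1) ^ (2 * D) ≤
      4 ^ D * (p ^ (2 * m + K) * P ^ D) := by
    refine hb.trans (Nat.mul_le_mul_left _ (Nat.mul_le_mul_right _ ?_))
    exact Nat.pow_le_pow_right hp0 (by omega)
  calc J D (m + D) (Icc 1 (P : ℤ))
      ≤ 2 * ((m + D) ^ (2 * D) * (p ^ (2 * m) * (P ^ D * (D.factorial * p ^ K) * M))) +
        2 * ((D ^ (m + D) * p ^ (D - 1)) ^ 2 * ((P / p + 1) ^ (2 * D) * M)) :=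
          h0.trans (Nat.add_le_add (Nat.mul_le_mul_left _ h1) (Nat.mul_le_mul_left _ h2))
    _ = (2 * ((m + D) ^ (2 * D) * D.factorial)) * (p ^ (2 * m + K) * P ^ D) * M +
        (2 * (D ^ (m + D)) ^ 2) * ((p ^ (D - 1)) ^ 2 * (P / p + 1) ^ (2 * D)) * M := by
          rw [hpK]; ring
    _ ≤ (2 * ((m + D) ^ (2 * D) * D.factorial)) * (p ^ (2 * m + K) * P ^ D) * M +
        (2 * (D ^ (m + D)) ^ 2) * (4 ^ D * (p ^ (2 * m + K) * P ^ D)) * M :=
          Nat.add_le_add_left (Nat.mul_le_mul_right _ (Nat.mul_le_mul_left _ hQ)) _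
    _ = (2 * ((m + D) ^ (2 * D) * D.factorial) + 2 * ((D ^ (m + D)) ^ 2 * 4 ^ D)) *
        (p ^ (2 * m + K) * P ^ D) * M := by ring
    _ ≤ (4 * (m + D)) ^ (4 * (m + D)) * (p ^ (2 * m + K) * P ^ D) * M :=
          Nat.mul_le_mul_right _ (Nat.mul_le_mul_right _ hconst)

end Pool.Agent.Helper17.KW
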