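import Mathlib
import Pool.Agent.Helper17.KW.St.A10

/-!
# KW-A11: the mean value theorem

Proof of `vmvt`, by induction on `τ`; write `b = D ^ 2 + D τ`, `b' = b + D`, `δ = Δ D τ`,
`δ' = Δ D (τ + 1) = (D + 1) / 2 + (1 - 1 / D) δ`; `0 ≤ δ, δ' ≤ D (D + 1) / 2 ≤ D ^ 2`.
For `τ = 0`: `δ = 0` and `J D b (Icc 1 P) ≤ P ^ (2 b)` (trivial bound, number of pairs of tuples).
Step: if `P < D ^ D` then `J D b' (Icc 1 P) ≤ P ^ (2 b') = P ^ (2 b' - δ') P ^ δ'` and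
`P ^ δ' ≤ D ^ (D * D ^ 2)`.  Let `P ≥ D ^ D` and let `r` be the least natural number with
`P ≤ r ^ D`; so `D ≤ r`, `r ≤ P ^ (1 / D) + 1 ≤ 2 P ^ (1 / D)`.  By Bertrand
(`Nat.exists_prime_lt_and_le_two_mul`) there is a prime `p` with `r < p ≤ 2 r ≤ 4 P ^ (1 / D)`; then
`D < p`, `P ≤ p ^ D`, `p ≤ P` (as `D ≥ 8`).  By `recursion` (with `m = b`) and the induction hypothesis for
`P / p + 1 ≤ 2 P / p` (real division):
`J D b' (Icc 1 P) ≤ (4 b') ^ (4 b') p ^ (2 b + D (D - 1) / 2) P ^ D C_τ (2 P / p) ^ (2 b - δ)`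
`≤ (4 b') ^ (4 b') C_τ 4 ^ b p ^ (D (D - 1) / 2 + δ) P ^ (D + 2 b - δ)`, and
`p ^ (D (D - 1) / 2 + δ) ≤ 4 ^ (D ^ 2) P ^ ((D - 1) / 2 + δ / D)`.  The exponent of `P` is
`D + 2 b - δ + (D - 1) / 2 + δ / D = 2 b' - δ'`, and the constant is
`(4 b') ^ (4 b') 4 ^ (b + D ^ 2) C_τ ≤ (8 b') ^ (8 b') C_τ ≤ C_{τ + 1}`.
Proof of `vmvt'`: `τ = D ^ 2`, `(1 - 1 / D) ^ (D ^ 2) ≤ exp (- D)` and
`D (D + 1) / 2 * exp (- D) ≤ 1 / 16` for `D ≥ 8`;
`D ^ (D ^ 3) * (8 (D ^ 2 + D ^ 3)) ^ (8 (D ^ 2 + D ^ 3) (D ^ 2 + 1)) ≤ (16 D ^ 3) ^ (32 D ^ 5)`.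
-/

set_option autoImplicit false

open Finset

namespace Pool.Agent.Helper17.KW

theorem A11_J_le (D b P : ℕ) : J D b (Icc 1 (P : ℤ)) ≤ P ^ (2 * b) := by
  have h0 : J D b (Icc 1 (P : ℤ)) ≤ (tup b (Icc 1 (P : ℤ)) ×ˢ tup b (Icc 1 (P : ℤ))).card := by
    unfold J
    exact Finset.card_le_card
      (@Finset.filter_subset _ _ (fun _ => Classical.propDecidable _) _)
  refine h0.trans ?_
  rw [Finset.card_product]
  unfold tup
  rw [Fintype.card_piFinset]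
  simp only [Int.card_Icc, Finset.prod_const, Finset.card_univ, Fintype.card_fin]
  have h : ((P : ℤ) + 1 - 1).toNat = P := by simp
  rw [h, ← pow_add, two_mul]

theorem A11_Δ_zero (D : ℕ) : Δ D 0 = 0 := by
  simp [Δ]

theorem A11_Δ_succ (D τ : ℕ) (hD : 8 ≤ D) :
    Δ D (τ + 1) = ((D : ℝ) + 1) / 2 + (1 - 1 / (D : ℝ)) * Δ D τ := by
  have h : (D : ℝ) ≠ 0 := by positivity
  unfold Δ
  rw [pow_succ]
  field_simp
  ring

theorem A11_Δ_nonneg (D τ : ℕ) (hD : 8 ≤ D) : 0 ≤ Δ D τ := by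
  have h8 : (8 : ℝ) ≤ D := by exact_mod_cast hD
  unfold Δ
  have h1 : 0 ≤ 1 - 1 / (D : ℝ) := by
    rw [sub_nonneg, div_le_one (by linarith)]
    linarith
  have h2 : 1 - 1 / (D : ℝ) ≤ 1 := by
    have : 0 ≤ 1 / (D : ℝ) := by positivity
    linarith
  have h3 : (1 - 1 / (D : ℝ)) ^ τ ≤ 1 := pow_le_one₀ h1 h2
  have h4 : 0 ≤ (D : ℝ) * (D + 1) / 2 := by positivity
  exact mul_nonneg h4 (by linarith)

theorem A11_Δ_le (D τ : ℕ) (hD : 8 ≤ D) : Δ D τ ≤ (D : ℝ) * (D + 1) / 2 := by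
  have h8 : (8 : ℝ) ≤ D := by exact_mod_cast hD
  unfold Δ
  have h1 : 0 ≤ 1 - 1 / (D : ℝ) := by
    rw [sub_nonneg, div_le_one (by linarith)]
    linarith
  have h3 : 0 ≤ (1 - 1 / (D : ℝ)) ^ τ := pow_nonneg h1 _
  have h4 : 0 ≤ (D : ℝ) * (D + 1) / 2 := by positivity
  nlinarith

/-- the prime of the recursion -/
theorem A11_prime (D P : ℕ) (hD : 8 ≤ D) (hP : D ^ D ≤ P) :
    ∃ p : ℕ, p.Prime ∧ D < p ∧ P ≤ p ^ D ∧ p ≤ P ∧ (p : ℝ) ≤ 4 * (P : ℝ) ^ (1 / (D : ℝ)) := by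
  classical
  have hD0 : D ≠ 0 := by omega
  have hDR : (0 : ℝ) < D := by positivity
  have hP1 : 1 ≤ P := le_trans (Nat.one_le_pow _ _ (by omega)) hP
  have hex : ∃ r : ℕ, P ≤ r ^ D := ⟨P, Nat.le_self_pow hD0 P⟩
  set r := Nat.find hex with hr
  have hr1 : P ≤ r ^ D := Nat.find_spec hex
  have hr2 : D ≤ r := by
    by_contra hlt
    push Not at hlt
    have : r ^ D < D ^ D := Nat.pow_lt_pow_left hlt hD0
    omega
  have hr3 : (r - 1) ^ D < P := by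
    have := Nat.find_min hex (m := r - 1) (by omega)
    omega
  have hr4 : ((r : ℝ) - 1) ≤ (P : ℝ) ^ (1 / (D : ℝ)) := by
    have h1 : (((r - 1 : ℕ) : ℝ)) ^ D ≤ (P : ℝ) := by exact_mod_cast hr3.le
    have h2 : (((r - 1 : ℕ) : ℝ)) = (((((r - 1 : ℕ) : ℝ)) ^ D) ^ (1 / (D : ℝ))) := by
      rw [← Real.rpow_natCast, ← Real.rpow_mul (by positivity), mul_one_div_cancel hDR.ne',
        Real.rpow_one]
    have h3 : ((r : ℝ) - 1) = (((r - 1 : ℕ) : ℝ)) := by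
      rw [Nat.cast_sub (by omega)]; simp
    rw [h3, h2]
    exact Real.rpow_le_rpow (by positivity) h1 (by positivity)
  have hP1' : (1 : ℝ) ≤ (P : ℝ) ^ (1 / (D : ℝ)) :=
    Real.one_le_rpow (by exact_mod_cast hP1) (by positivity)
  obtain ⟨p, hp1, hp2, hp3⟩ := Nat.exists_prime_lt_and_le_two_mul r (by omega)
  have hp4 : (p : ℝ) ≤ 2 * r := by exact_mod_cast hp3
  have hp5 : (p : ℝ) ≤ 4 * (P : ℝ) ^ (1 / (D : ℝ)) := by linarith
  refine ⟨p, hp1, by omega, hr1.trans (Nat.pow_le_pow_left hp2.le _), ?_, hp5⟩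
  -- p ≤ 2 r, (r-1)^D < P
  have h1 : (r - 1) ^ 2 ≤ (r - 1) ^ D := Nat.pow_le_pow_right (by omega) (by omega)
  have h2 : 2 * r ≤ (r - 1) ^ 2 := by
    obtain ⟨s, hs⟩ : ∃ s, r = s + 8 := ⟨r - 8, by omega⟩
    rw [hs]
    have : s + 8 - 1 = s + 7 := by omega
    rw [this]
    nlinarith
  omega

theorem A11_const (D τ : ℕ) (hD : 8 ≤ D) :
    (4 * ((D ^ 2 + D * τ) + D)) ^ (4 * ((D ^ 2 + D * τ) + D)) * 4 ^ ((D ^ 2 + D * τ) + D ^ 2) *
      ((8 * (D ^ 2 + D * τ)) ^ (8 * (D ^ 2 + D * τ) * (τ + 1))) ≤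
      (8 * (D ^ 2 + D * (τ + 1))) ^ (8 * (D ^ 2 + D * (τ + 1)) * ((τ + 1) + 1)) := by
  set b := D ^ 2 + D * τ with hb
  have hb' : D ^ 2 + D * (τ + 1) = b + D := by rw [hb]; ring
  rw [hb']
  have hbD : D ^ 2 ≤ b := by rw [hb]; omega
  have h1 : (8 * (b + D)) ^ (8 * (b + D) * ((τ + 1) + 1)) =
      (8 * (b + D)) ^ (4 * (b + D)) * (8 * (b + D)) ^ (4 * (b + D)) *
        (8 * (b + D)) ^ (8 * (b + D) * (τ + 1)) := by
    rw [← pow_add, ← pow_add]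
    congr 1
    ring
  rw [h1]
  refine Nat.mul_le_mul (Nat.mul_le_mul ?_ ?_) ?_
  · exact Nat.pow_le_pow_left (by omega) _
  · calc 4 ^ (b + D ^ 2) ≤ 4 ^ (4 * (b + D)) := Nat.pow_le_pow_right (by omega) (by omega)
      _ ≤ (8 * (b + D)) ^ (4 * (b + D)) := Nat.pow_le_pow_left (by omega) _
  · calc (8 * b) ^ (8 * b * (τ + 1)) ≤ (8 * (b + D)) ^ (8 * b * (τ + 1)) :=
        Nat.pow_le_pow_left (by omega) _
      _ ≤ (8 * (b + D)) ^ (8 * (b + D) * (τ + 1)) :=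
        Nat.pow_le_pow_right (by omega) (Nat.mul_le_mul_right _ (by omega))

theorem vmvt (D τ P : ℕ) (hD : 8 ≤ D) (hP : 1 ≤ P) :
    (J D (D ^ 2 + D * τ) (Icc 1 (P : ℤ)) : ℝ) ≤
      (D : ℝ) ^ (D ^ 3) * (8 * (D ^ 2 + D * τ) : ℝ) ^ (8 * (D ^ 2 + D * τ) * (τ + 1)) *
        (P : ℝ) ^ (2 * ((D : ℝ) ^ 2 + D * τ) - Δ D τ) := by
  have hD8 : (8 : ℝ) ≤ D := by exact_mod_cast hD
  have hDpos : (0 : ℝ) < D := by linarith
  induction τ generalizing P with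
  | zero =>
    have hP1 : (1 : ℝ) ≤ P := by exact_mod_cast hP
    rw [A11_Δ_zero]
    have h1 : (J D (D ^ 2 + D * 0) (Icc 1 (P : ℤ)) : ℝ) ≤ (P : ℝ) ^ (2 * (D ^ 2 + D * 0)) := by
      exact_mod_cast A11_J_le D (D ^ 2 + D * 0) P
    have h2 : (P : ℝ) ^ (2 * (D ^ 2 + D * 0)) =
        (P : ℝ) ^ (2 * ((D : ℝ) ^ 2 + D * ((0 : ℕ) : ℝ)) - 0) := by
      rw [← Real.rpow_natCast]
      congr 1
      push_cast
      ring
    rw [h2] at h1
    refine h1.trans ?_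
    have h3 : (1 : ℝ) ≤ (D : ℝ) ^ (D ^ 3) := one_le_pow₀ (by linarith)
    have h4 : (1 : ℝ) ≤ (8 * ((D : ℝ) ^ 2 + D * ((0 : ℕ) : ℝ)) : ℝ) ^
        (8 * (D ^ 2 + D * 0) * (0 + 1)) := by
      refine one_le_pow₀ ?_
      simp only [Nat.cast_zero, mul_zero, add_zero]
      nlinarith
    have h5 : (0 : ℝ) ≤ (P : ℝ) ^ (2 * ((D : ℝ) ^ 2 + D * ((0 : ℕ) : ℝ)) - 0) := by positivity
    exact le_mul_of_one_le_left h5 (one_le_mul_of_one_le_of_one_le h3 h4)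
  | succ τ ih =>
    have hP1 : (1 : ℝ) ≤ P := by exact_mod_cast hP
    have hP0 : (0 : ℝ) < P := by linarith
    set b : ℕ := D ^ 2 + D * τ with hb
    have hb' : D ^ 2 + D * (τ + 1) = b + D := by rw [hb]; ring
    have hbR : (b : ℝ) = (D : ℝ) ^ 2 + D * τ := by rw [hb]; push_cast; ring
    set δ : ℝ := Δ D τ with hδ
    set δ' : ℝ := Δ D (τ + 1) with hδ'
    have hδ0 : 0 ≤ δ := A11_Δ_nonneg D τ hD
    have hδ1 : δ ≤ (D : ℝ) * (D + 1) / 2 := A11_Δ_le D τ hD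
    have hδ'0 : 0 ≤ δ' := A11_Δ_nonneg D (τ + 1) hD
    have hδ'1 : δ' ≤ (D : ℝ) * (D + 1) / 2 := A11_Δ_le D (τ + 1) hD
    have hδs : δ' = ((D : ℝ) + 1) / 2 + (1 - 1 / (D : ℝ)) * δ := A11_Δ_succ D τ hD
    have hK1 : (1 : ℝ) ≤ (8 * ((D : ℝ) ^ 2 + D * ((τ + 1 : ℕ) : ℝ)) : ℝ) ^
        (8 * (D ^ 2 + D * (τ + 1)) * ((τ + 1) + 1)) := by
      refine one_le_pow₀ ?_
      have : (0 : ℝ) ≤ D * ((τ + 1 : ℕ) : ℝ) := by positivity
      nlinarith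
    rcases lt_or_ge P (D ^ D) with hlt | hge
    · -- small P
      have h1 : (J D (D ^ 2 + D * (τ + 1)) (Icc 1 (P : ℤ)) : ℝ) ≤
          (P : ℝ) ^ (2 * (D ^ 2 + D * (τ + 1))) := by
        exact_mod_cast A11_J_le D (D ^ 2 + D * (τ + 1)) P
      have h2 : (P : ℝ) ^ (2 * (D ^ 2 + D * (τ + 1))) =
          (P : ℝ) ^ δ' * (P : ℝ) ^ (2 * ((D : ℝ) ^ 2 + D * ((τ + 1 : ℕ) : ℝ)) - δ') := by
        rw [← Real.rpow_natCast, ← Real.rpow_add hP0]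
        congr 1
        push_cast
        ring
      have h3 : (P : ℝ) ^ δ' ≤ (D : ℝ) ^ (D ^ 3) := by
        have hPD : (P : ℝ) ≤ (D : ℝ) ^ D := by exact_mod_cast hlt.le
        calc (P : ℝ) ^ δ' ≤ ((D : ℝ) ^ D) ^ δ' := Real.rpow_le_rpow hP0.le hPD hδ'0
          _ ≤ ((D : ℝ) ^ D) ^ ((D : ℝ) ^ 2) := by
              refine Real.rpow_le_rpow_of_exponent_le (one_le_pow₀ (by linarith)) ?_
              nlinarith
          _ = (D : ℝ) ^ (D ^ 3) := by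
              have : ((D : ℝ) ^ 2) = ((D ^ 2 : ℕ) : ℝ) := by push_cast; ring
              rw [this, Real.rpow_natCast, ← pow_mul]
              congr 1
              ring
      have h5 : (0 : ℝ) ≤ (P : ℝ) ^ (2 * ((D : ℝ) ^ 2 + D * ((τ + 1 : ℕ) : ℝ)) - δ') := by
        positivity
      calc (J D (D ^ 2 + D * (τ + 1)) (Icc 1 (P : ℤ)) : ℝ) ≤ _ := h1
        _ = _ := h2
        _ ≤ (D : ℝ) ^ (D ^ 3) *
            (P : ℝ) ^ (2 * ((D : ℝ) ^ 2 + D * ((τ + 1 : ℕ) : ℝ)) - δ') :=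
            mul_le_mul_of_nonneg_right h3 h5
        _ ≤ _ := by
            refine mul_le_mul_of_nonneg_right ?_ h5
            exact le_mul_of_one_le_right (by positivity) hK1
    · -- large P
      obtain ⟨p, hp, hDp, hPp, hpP, hp4⟩ := A11_prime D P hD hge
      have : Fact p.Prime := ⟨hp⟩
      have hp0 : (0 : ℝ) < p := by exact_mod_cast hp.pos
      have hrec := recursion D b P p (by omega) hDp hpP hPp (by rw [hb]; omega)
      have hrec' : (J D (b + D) (Icc 1 (P : ℤ)) : ℝ) ≤ ((4 * (b + D) : ℕ) : ℝ) ^ (4 * (b + D)) *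
          ((p : ℝ) ^ (2 * b + D * (D - 1) / 2) * (P : ℝ) ^ D) *
            (J D b (Icc 1 ((P / p + 1 : ℕ) : ℤ)) : ℝ) := by
        exact_mod_cast hrec
      have hih := ih (P / p + 1) (Nat.le_add_left 1 _)
      have hq : ((P / p + 1 : ℕ) : ℝ) ≤ 2 * (P : ℝ) / p := by
        have h1 : ((P / p : ℕ) : ℝ) ≤ (P : ℝ) / p := Nat.cast_div_le
        have h2 : (1 : ℝ) ≤ (P : ℝ) / p := by
          rw [one_le_div hp0]
          exact_mod_cast hpP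
        push_cast
        have h3 : 2 * (P : ℝ) / p = (P : ℝ) / p + (P : ℝ) / p := by ring
        rw [h3]
        linarith
      have hexp0 : 0 ≤ 2 * ((D : ℝ) ^ 2 + D * τ) - δ := by
        have : (0 : ℝ) ≤ D * τ := by positivity
        nlinarith
      have hq2 : ((P / p + 1 : ℕ) : ℝ) ^ (2 * ((D : ℝ) ^ 2 + D * τ) - δ) ≤
          (2 * (P : ℝ) / p) ^ (2 * ((D : ℝ) ^ 2 + D * τ) - δ) :=
        Real.rpow_le_rpow (by positivity) hq hexp0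
      have hq3 : (2 * (P : ℝ) / p) ^ (2 * ((D : ℝ) ^ 2 + D * τ) - δ) ≤
          (4 : ℝ) ^ b * (P : ℝ) ^ (2 * (b : ℝ) - δ) * (p : ℝ) ^ (δ - 2 * (b : ℝ)) := by
        rw [← hbR, mul_div_assoc, Real.mul_rpow (by norm_num) (by positivity),
          Real.div_rpow hP0.le hp0.le]
        have h1 : (2 : ℝ) ^ (2 * (b : ℝ) - δ) ≤ (4 : ℝ) ^ b := by
          calc (2 : ℝ) ^ (2 * (b : ℝ) - δ) ≤ (2 : ℝ) ^ (2 * (b : ℝ)) :=
                Real.rpow_le_rpow_of_exponent_le (by norm_num) (by linarith)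
            _ = (4 : ℝ) ^ b := by
                rw [Real.rpow_mul (by norm_num), Real.rpow_natCast]
                norm_num
        have h2 : (P : ℝ) ^ (2 * (b : ℝ) - δ) / (p : ℝ) ^ (2 * (b : ℝ) - δ) =
            (P : ℝ) ^ (2 * (b : ℝ) - δ) * (p : ℝ) ^ (δ - 2 * (b : ℝ)) := by
          rw [div_eq_mul_inv, ← Real.rpow_neg hp0.le, neg_sub]
        rw [h2, mul_assoc]
        exact mul_le_mul_of_nonneg_right h1 (by positivity)
      have hpe : (p : ℝ) ^ (2 * b + D * (D - 1) / 2) * (p : ℝ) ^ (δ - 2 * (b : ℝ)) =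
          (p : ℝ) ^ ((D : ℝ) * (D - 1) / 2 + δ) := by
        rw [← Real.rpow_natCast, ← Real.rpow_add hp0]
        congr 1
        have h2 : 2 ∣ D * (D - 1) := (Nat.even_mul_pred_self D).two_dvd
        rw [Nat.cast_add, Nat.cast_div h2 (by norm_num), Nat.cast_mul, Nat.cast_mul,
          Nat.cast_sub (by omega)]
        push_cast
        ring
      have hpe2 : (p : ℝ) ^ ((D : ℝ) * (D - 1) / 2 + δ) ≤
          (4 : ℝ) ^ (D ^ 2) * (P : ℝ) ^ (((D : ℝ) - 1) / 2 + δ / D) := by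
        have hnn : 0 ≤ (D : ℝ) * (D - 1) / 2 + δ := by
          have : 0 ≤ (D : ℝ) * (D - 1) / 2 := by
            have : (0 : ℝ) ≤ D - 1 := by linarith
            positivity
          linarith
        calc (p : ℝ) ^ ((D : ℝ) * (D - 1) / 2 + δ) ≤
              (4 * (P : ℝ) ^ (1 / (D : ℝ))) ^ ((D : ℝ) * (D - 1) / 2 + δ) :=
              Real.rpow_le_rpow hp0.le hp4 hnn
          _ = (4 : ℝ) ^ ((D : ℝ) * (D - 1) / 2 + δ) *
                (P : ℝ) ^ (((D : ℝ) - 1) / 2 + δ / D) := by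
              rw [Real.mul_rpow (by norm_num) (by positivity), ← Real.rpow_mul hP0.le]
              congr 2
              field_simp
          _ ≤ _ := by
              refine mul_le_mul_of_nonneg_right ?_ (by positivity)
              rw [← Real.rpow_natCast]
              refine Real.rpow_le_rpow_of_exponent_le (by norm_num) ?_
              push_cast
              nlinarith
      have hconst := A11_const D τ hD
      rw [← hb] at hconst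
      rw [hb'] at hconst
      have hconst' : ((4 * (b + D) : ℕ) : ℝ) ^ (4 * (b + D)) * (4 : ℝ) ^ (b + D ^ 2) *
          (8 * ((D : ℝ) ^ 2 + D * τ)) ^ (8 * b * (τ + 1)) ≤
          (8 * ((D : ℝ) ^ 2 + D * ((τ + 1 : ℕ) : ℝ))) ^ (8 * (b + D) * ((τ + 1) + 1)) := by
        have h1 : (8 * ((D : ℝ) ^ 2 + D * τ)) = ((8 * b : ℕ) : ℝ) := by
          rw [← hbR]; push_cast; ring
        have h2 : (8 * ((D : ℝ) ^ 2 + D * ((τ + 1 : ℕ) : ℝ))) = ((8 * (b + D) : ℕ) : ℝ) := by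
          push_cast
          rw [hbR]
          ring
        rw [h1, h2]
        exact_mod_cast hconst
      have hfin : (P : ℝ) ^ D * (P : ℝ) ^ (2 * (b : ℝ) - δ) *
          (P : ℝ) ^ (((D : ℝ) - 1) / 2 + δ / D) =
          (P : ℝ) ^ (2 * ((D : ℝ) ^ 2 + D * ((τ + 1 : ℕ) : ℝ)) - δ') := by
        rw [← Real.rpow_natCast, ← Real.rpow_add hP0, ← Real.rpow_add hP0]
        congr 1
        rw [hδs, hbR]
        push_cast
        field_simp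
        ring
      rw [hb']
      calc (J D (b + D) (Icc 1 (P : ℤ)) : ℝ) ≤ ((4 * (b + D) : ℕ) : ℝ) ^ (4 * (b + D)) *
            ((p : ℝ) ^ (2 * b + D * (D - 1) / 2) * (P : ℝ) ^ D) *
              (J D b (Icc 1 ((P / p + 1 : ℕ) : ℤ)) : ℝ) := hrec'
        _ ≤ ((4 * (b + D) : ℕ) : ℝ) ^ (4 * (b + D)) *
            ((p : ℝ) ^ (2 * b + D * (D - 1) / 2) * (P : ℝ) ^ D) *
              ((D : ℝ) ^ (D ^ 3) * (8 * ((D : ℝ) ^ 2 + D * τ)) ^ (8 * b * (τ + 1)) *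
                ((4 : ℝ) ^ b * (P : ℝ) ^ (2 * (b : ℝ) - δ) * (p : ℝ) ^ (δ - 2 * (b : ℝ)))) := by
            refine mul_le_mul_of_nonneg_left ?_ (by positivity)
            refine hih.trans ?_
            refine mul_le_mul_of_nonneg_left (hq2.trans hq3) (by positivity)
        _ = (D : ℝ) ^ (D ^ 3) * (((4 * (b + D) : ℕ) : ℝ) ^ (4 * (b + D)) * (4 : ℝ) ^ b *
              (8 * ((D : ℝ) ^ 2 + D * τ)) ^ (8 * b * (τ + 1))) *
              ((P : ℝ) ^ D * (P : ℝ) ^ (2 * (b : ℝ) - δ)) *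
              ((p : ℝ) ^ (2 * b + D * (D - 1) / 2) * (p : ℝ) ^ (δ - 2 * (b : ℝ))) := by ring
        _ ≤ (D : ℝ) ^ (D ^ 3) * (((4 * (b + D) : ℕ) : ℝ) ^ (4 * (b + D)) * (4 : ℝ) ^ b *
              (8 * ((D : ℝ) ^ 2 + D * τ)) ^ (8 * b * (τ + 1))) *
              ((P : ℝ) ^ D * (P : ℝ) ^ (2 * (b : ℝ) - δ)) *
              ((4 : ℝ) ^ (D ^ 2) * (P : ℝ) ^ (((D : ℝ) - 1) / 2 + δ / D)) := by
            rw [hpe]
            refine mul_le_mul_of_nonneg_left hpe2 (by positivity)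
        _ = (D : ℝ) ^ (D ^ 3) * (((4 * (b + D) : ℕ) : ℝ) ^ (4 * (b + D)) *
              (4 : ℝ) ^ (b + D ^ 2) * (8 * ((D : ℝ) ^ 2 + D * τ)) ^ (8 * b * (τ + 1))) *
              ((P : ℝ) ^ D * (P : ℝ) ^ (2 * (b : ℝ) - δ) *
                (P : ℝ) ^ (((D : ℝ) - 1) / 2 + δ / D)) := by
            rw [pow_add (4 : ℝ) b (D ^ 2)]
            ring
        _ ≤ (D : ℝ) ^ (D ^ 3) *
              (8 * ((D : ℝ) ^ 2 + D * ((τ + 1 : ℕ) : ℝ))) ^ (8 * (b + D) * ((τ + 1) + 1)) *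
              ((P : ℝ) ^ D * (P : ℝ) ^ (2 * (b : ℝ) - δ) *
                (P : ℝ) ^ (((D : ℝ) - 1) / 2 + δ / D)) := by
            refine mul_le_mul_of_nonneg_right ?_ (by positivity)
            exact mul_le_mul_of_nonneg_left hconst' (by positivity)
        _ = _ := by rw [hfin]

theorem A11_exp (D : ℕ) (hD : 8 ≤ D) : 8 * ((D : ℝ) * (D + 1)) ≤ Real.exp D := by
  have h1 : 8 * ((D : ℝ) * (D + 1)) ≤ (5 / 2 : ℝ) ^ D := by
    induction D, hD using Nat.le_induction with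
    | base => norm_num
    | succ n hn ih =>
      have h8 : (8 : ℝ) ≤ n := by exact_mod_cast hn
      rw [pow_succ]
      push_cast
      nlinarith
  have h2 : (5 / 2 : ℝ) ^ D ≤ (Real.exp 1) ^ D := by
    refine pow_le_pow_left₀ (by norm_num) ?_ _
    have := Real.exp_one_gt_d9
    linarith
  have h3 : (Real.exp 1) ^ D = Real.exp D := by
    rw [← Real.exp_nat_mul, mul_one]
  rw [← h3]
  exact h1.trans h2

theorem vmvt' (D P : ℕ) (hD : 8 ≤ D) (hP : 1 ≤ P) :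
    (J D (D ^ 2 + D ^ 3) (Icc 1 (P : ℤ)) : ℝ) ≤
      (16 * D ^ 3 : ℝ) ^ (32 * D ^ 5) *
        (P : ℝ) ^ (2 * ((D : ℝ) ^ 2 + D ^ 3) - D * (D + 1) / 2 + 1 / 16) := by
  have hD8 : (8 : ℝ) ≤ D := by exact_mod_cast hD
  have hDpos : (0 : ℝ) < D := by linarith
  have hP1 : (1 : ℝ) ≤ P := by exact_mod_cast hP
  have h := vmvt D (D ^ 2) P hD hP
  have hb : D ^ 2 + D * D ^ 2 = D ^ 2 + D ^ 3 := by ring
  rw [hb] at h
  refine h.trans ?_
  refine mul_le_mul ?_ ?_ (by positivity) (by positivity)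
  · have h1 : D ^ (D ^ 3) * (8 * (D ^ 2 + D ^ 3)) ^ (8 * (D ^ 2 + D ^ 3) * (D ^ 2 + 1)) ≤
        (16 * D ^ 3) ^ (32 * D ^ 5) := by
      have hA : D ≤ 16 * D ^ 3 := by
        calc D ≤ D ^ 3 := Nat.le_self_pow (by norm_num) D
          _ ≤ 16 * D ^ 3 := by omega
      have hB : 8 * (D ^ 2 + D ^ 3) ≤ 16 * D ^ 3 := by
        have : D ^ 2 ≤ D ^ 3 := Nat.pow_le_pow_right (by omega) (by norm_num)
        omega
      have hC : D ^ 3 + 8 * (D ^ 2 + D ^ 3) * (D ^ 2 + 1) ≤ 32 * D ^ 5 := by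
        have e1 : D ^ 2 ≤ D ^ 5 := Nat.pow_le_pow_right (by omega) (by norm_num)
        have e2 : D ^ 4 * 8 ≤ D ^ 5 := by
          rw [pow_succ D 4]
          exact Nat.mul_le_mul_left _ hD
        have e3 : D ^ 3 ≤ D ^ 5 := Nat.pow_le_pow_right (by omega) (by norm_num)
        have e4 : 8 * (D ^ 2 + D ^ 3) * (D ^ 2 + 1) =
          8 * D ^ 5 + 8 * D ^ 4 + 8 * D ^ 3 + 8 * D ^ 2 := by ring
        rw [e4]
        have e5 : D ^ 2 * 8 ≤ D ^ 3 := by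
          rw [pow_succ D 2]
          exact Nat.mul_le_mul_left _ hD
        omega
      calc D ^ (D ^ 3) * (8 * (D ^ 2 + D ^ 3)) ^ (8 * (D ^ 2 + D ^ 3) * (D ^ 2 + 1))
          ≤ (16 * D ^ 3) ^ (D ^ 3) * (16 * D ^ 3) ^ (8 * (D ^ 2 + D ^ 3) * (D ^ 2 + 1)) :=
            Nat.mul_le_mul (Nat.pow_le_pow_left hA _) (Nat.pow_le_pow_left hB _)
        _ = (16 * D ^ 3) ^ (D ^ 3 + 8 * (D ^ 2 + D ^ 3) * (D ^ 2 + 1)) := by rw [pow_add]
        _ ≤ (16 * D ^ 3) ^ (32 * D ^ 5) := Nat.pow_le_pow_right (by positivity) hC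
    have h2 : (8 * ((D : ℝ) ^ 2 + D * ((D ^ 2 : ℕ) : ℝ))) = ((8 * (D ^ 2 + D ^ 3) : ℕ) : ℝ) := by
      push_cast
      ring
    rw [h2]
    exact_mod_cast h1
  · refine Real.rpow_le_rpow_of_exponent_le hP1 ?_
    have hE : (1 - 1 / (D : ℝ)) ^ (D ^ 2) ≤ Real.exp (-(D : ℝ)) := by
      have h1 : 1 - 1 / (D : ℝ) ≤ Real.exp (-(1 / (D : ℝ))) := Real.one_sub_le_exp_neg _
      have h0 : 0 ≤ 1 - 1 / (D : ℝ) := by
        rw [sub_nonneg, div_le_one hDpos]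
        linarith
      calc (1 - 1 / (D : ℝ)) ^ (D ^ 2) ≤ (Real.exp (-(1 / (D : ℝ)))) ^ (D ^ 2) :=
            pow_le_pow_left₀ h0 h1 _
        _ = Real.exp (-(D : ℝ)) := by
            rw [← Real.exp_nat_mul]
            congr 1
            push_cast
            field_simp
    have hF : (D : ℝ) * (D + 1) / 2 * (1 - 1 / (D : ℝ)) ^ (D ^ 2) ≤ 1 / 16 := by
      have h1 := A11_exp D hD
      have h2 : Real.exp (-(D : ℝ)) * Real.exp D = 1 := by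
        rw [← Real.exp_add]
        simp
      have h3 : 0 < Real.exp (-(D : ℝ)) := Real.exp_pos _
      have h4 : 0 ≤ (D : ℝ) * (D + 1) / 2 := by positivity
      calc (D : ℝ) * (D + 1) / 2 * (1 - 1 / (D : ℝ)) ^ (D ^ 2) ≤
            (D : ℝ) * (D + 1) / 2 * Real.exp (-(D : ℝ)) := mul_le_mul_of_nonneg_left hE h4
        _ = (8 * ((D : ℝ) * (D + 1))) * Real.exp (-(D : ℝ)) / 16 := by ring
        _ ≤ Real.exp D * Real.exp (-(D : ℝ)) / 16 := by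
            gcongr
        _ = 1 / 16 := by rw [mul_comm, h2]
    have hG : Δ D (D ^ 2) = (D : ℝ) * (D + 1) / 2 -
        (D : ℝ) * (D + 1) / 2 * (1 - 1 / (D : ℝ)) ^ (D ^ 2) := by
      unfold Δ
      ring
    rw [hG]
    push_cast
    nlinarith

end Pool.Agent.Helper17.KW
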