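import Mathlib
import Pool.Agent.Helper17.KW.St.A11

/-!
# KW-G1: the mean value theorem with about `D ^ 2 log D` variables

Proof.  `vmvt` with `τ = D (2 L + 5)`, `L = Nat.log 2 D`, so `D ^ 2 + D τ = D ^ 2 (2 L + 6) =: b`.
`2 * b - Δ D τ = 2 b - D (D + 1) / 2 + D (D + 1) / 2 * (1 - 1 / D) ^ τ` and
`(1 - 1 / D) ^ τ ≤ exp (- (2 L + 5)) ≤ exp (- 3) / D ^ 2` (as `2 ^ (L + 1) > D` and
`exp (2 (L + 1)) ≥ 2 ^ (2 (L + 1)) ≥ D ^ 2`), so `D (D + 1) / 2 * (1 - 1 / D) ^ τ ≤ (9 / 16) exp (- 3) ≤ 1 / 16`.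
The constant: `8 b = 8 D ^ 2 (2 L + 6) ≤ 16 D ^ 3` because `2 L + 6 ≤ 2 D` for `D ≥ 8`; and
`D ^ 3 + 8 b (τ + 1) ≤ D ^ 3 + 8 D ^ 3 (2 L + 6) ^ 2 ≤ 9 D ^ 3 (2 L + 6) ^ 2`.
-/

set_option autoImplicit false

open Finset

namespace Pool.Agent.Helper17.KW

theorem G1_exp (D L : ℕ) (h : D < 2 ^ (L + 1)) :
    8 * ((D : ℝ) * (D + 1)) ≤ Real.exp ((2 * L + 5 : ℕ) : ℝ) := by
  have h1 : ((D : ℝ) + 1) ≤ 2 ^ (L + 1) := by exact_mod_cast h
  have h0 : (0 : ℝ) ≤ D := Nat.cast_nonneg D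
  have he : (2 : ℝ) ≤ Real.exp 1 := by
    have := Real.exp_one_gt_d9
    linarith
  have h2 : (2 : ℝ) ^ (2 * L + 5) ≤ Real.exp ((2 * L + 5 : ℕ) : ℝ) := by
    have h3 : Real.exp ((2 * L + 5 : ℕ) : ℝ) = (Real.exp 1) ^ (2 * L + 5) := by
      rw [← Real.exp_nat_mul, mul_one]
    rw [h3]
    exact pow_le_pow_left₀ (by norm_num) he _
  calc 8 * ((D : ℝ) * (D + 1)) ≤ 8 * ((2 : ℝ) ^ (L + 1) * 2 ^ (L + 1)) := by
        gcongr
        linarith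
    _ = (2 : ℝ) ^ (2 * L + 5) := by ring
    _ ≤ _ := h2

theorem vmvt_log (D P : ℕ) (hD : 8 ≤ D) (hP : 1 ≤ P) :
    (J D (D ^ 2 * (2 * Nat.log 2 D + 6)) (Icc 1 (P : ℤ)) : ℝ) ≤
      (16 * (D : ℝ) ^ 3) ^ (9 * D ^ 3 * (2 * Nat.log 2 D + 6) ^ 2) *
        (P : ℝ) ^ (2 * ((D : ℝ) ^ 2 * (2 * Nat.log 2 D + 6)) - D * (D + 1) / 2 + 1 / 16) := by
  have hD8 : (8 : ℝ) ≤ D := by exact_mod_cast hD
  have hDpos : (0 : ℝ) < D := by linarith
  have hP1 : (1 : ℝ) ≤ P := by exact_mod_cast hP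
  set L := Nat.log 2 D with hL
  have hL1 : D < 2 ^ (L + 1) := Nat.lt_pow_succ_log_self (by norm_num) D
  have hL2 : 2 ^ L ≤ D := Nat.pow_log_le_self 2 (by omega)
  have hL3 : 3 ≤ L := by
    by_contra hcon
    have h1 : (2 : ℕ) ^ (L + 1) ≤ 2 ^ 3 := Nat.pow_le_pow_right (by norm_num) (by omega)
    omega
  have hL4 : L + 3 ≤ D := by
    refine le_trans ?_ hL2
    clear_value L
    clear hL1 hL2 hL
    induction L, hL3 using Nat.le_induction with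
    | base => norm_num
    | succ n hn ih =>
      rw [pow_succ]
      omega
  clear_value L
  have h := vmvt D (D * (2 * L + 5)) P hD hP
  have hb : D ^ 2 + D * (D * (2 * L + 5)) = D ^ 2 * (2 * L + 6) := by ring
  rw [hb] at h
  refine h.trans ?_
  refine mul_le_mul ?_ ?_ (by positivity) (by positivity)
  · have h1 : D ^ (D ^ 3) * (8 * (D ^ 2 * (2 * L + 6))) ^
        (8 * (D ^ 2 * (2 * L + 6)) * (D * (2 * L + 5) + 1)) ≤
        (16 * D ^ 3) ^ (9 * D ^ 3 * (2 * L + 6) ^ 2) := by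
      have hA : D ≤ 16 * D ^ 3 := by
        calc D ≤ D ^ 3 := Nat.le_self_pow (by norm_num) D
          _ ≤ 16 * D ^ 3 := by omega
      have hB : 8 * (D ^ 2 * (2 * L + 6)) ≤ 16 * D ^ 3 := by
        calc 8 * (D ^ 2 * (2 * L + 6)) ≤ 8 * (D ^ 2 * (2 * D)) := by
              gcongr
              omega
          _ = 16 * D ^ 3 := by ring
      have hC : D ^ 3 + 8 * (D ^ 2 * (2 * L + 6)) * (D * (2 * L + 5) + 1) ≤
          9 * D ^ 3 * (2 * L + 6) ^ 2 := by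
        calc D ^ 3 + 8 * (D ^ 2 * (2 * L + 6)) * (D * (2 * L + 5) + 1)
            ≤ D ^ 3 * (2 * L + 6) ^ 2 + 8 * (D ^ 2 * (2 * L + 6)) * (D * (2 * L + 6)) := by
              refine Nat.add_le_add ?_ (Nat.mul_le_mul_left _ ?_)
              · exact Nat.le_mul_of_pos_right _ (by positivity)
              · nlinarith
          _ = 9 * D ^ 3 * (2 * L + 6) ^ 2 := by ring
      calc D ^ (D ^ 3) * (8 * (D ^ 2 * (2 * L + 6))) ^
            (8 * (D ^ 2 * (2 * L + 6)) * (D * (2 * L + 5) + 1))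
          ≤ (16 * D ^ 3) ^ (D ^ 3) * (16 * D ^ 3) ^
            (8 * (D ^ 2 * (2 * L + 6)) * (D * (2 * L + 5) + 1)) :=
            Nat.mul_le_mul (Nat.pow_le_pow_left hA _) (Nat.pow_le_pow_left hB _)
        _ = (16 * D ^ 3) ^ (D ^ 3 + 8 * (D ^ 2 * (2 * L + 6)) * (D * (2 * L + 5) + 1)) := by
            rw [pow_add]
        _ ≤ (16 * D ^ 3) ^ (9 * D ^ 3 * (2 * L + 6) ^ 2) :=
            Nat.pow_le_pow_right (by positivity) hC
    have h2 : (8 * ((D : ℝ) ^ 2 + D * ((D * (2 * L + 5) : ℕ) : ℝ))) =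
        ((8 * (D ^ 2 * (2 * L + 6)) : ℕ) : ℝ) := by
      push_cast
      ring
    rw [h2]
    exact_mod_cast h1
  · refine Real.rpow_le_rpow_of_exponent_le hP1 ?_
    have hE : (1 - 1 / (D : ℝ)) ^ (D * (2 * L + 5)) ≤ Real.exp (-((2 * L + 5 : ℕ) : ℝ)) := by
      have h1 : 1 - 1 / (D : ℝ) ≤ Real.exp (-(1 / (D : ℝ))) := Real.one_sub_le_exp_neg _
      have h0 : 0 ≤ 1 - 1 / (D : ℝ) := by
        rw [sub_nonneg, div_le_one hDpos]
        linarith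
      calc (1 - 1 / (D : ℝ)) ^ (D * (2 * L + 5)) ≤
            (Real.exp (-(1 / (D : ℝ)))) ^ (D * (2 * L + 5)) := pow_le_pow_left₀ h0 h1 _
        _ = Real.exp (-((2 * L + 5 : ℕ) : ℝ)) := by
            rw [← Real.exp_nat_mul]
            congr 1
            push_cast
            field_simp
    have hF : (D : ℝ) * (D + 1) / 2 * (1 - 1 / (D : ℝ)) ^ (D * (2 * L + 5)) ≤ 1 / 16 := by
      have h1 := G1_exp D L hL1
      have h2 : Real.exp (-((2 * L + 5 : ℕ) : ℝ)) * Real.exp ((2 * L + 5 : ℕ) : ℝ) = 1 := by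
        rw [← Real.exp_add]
        simp
      have h3 : 0 < Real.exp (-((2 * L + 5 : ℕ) : ℝ)) := Real.exp_pos _
      have h4 : 0 ≤ (D : ℝ) * (D + 1) / 2 := by positivity
      calc (D : ℝ) * (D + 1) / 2 * (1 - 1 / (D : ℝ)) ^ (D * (2 * L + 5)) ≤
            (D : ℝ) * (D + 1) / 2 * Real.exp (-((2 * L + 5 : ℕ) : ℝ)) :=
              mul_le_mul_of_nonneg_left hE h4
        _ = (8 * ((D : ℝ) * (D + 1))) * Real.exp (-((2 * L + 5 : ℕ) : ℝ)) / 16 := by ring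
        _ ≤ Real.exp ((2 * L + 5 : ℕ) : ℝ) * Real.exp (-((2 * L + 5 : ℕ) : ℝ)) / 16 := by
            gcongr
        _ = 1 / 16 := by rw [mul_comm (Real.exp ((2 * L + 5 : ℕ) : ℝ)), h2]
    have hG : Δ D (D * (2 * L + 5)) = (D : ℝ) * (D + 1) / 2 -
        (D : ℝ) * (D + 1) / 2 * (1 - 1 / (D : ℝ)) ^ (D * (2 * L + 5)) := by
      unfold Δ
      ring
    have hH : 2 * ((D : ℝ) ^ 2 + D * ((D * (2 * L + 5) : ℕ) : ℝ)) =
        2 * ((D : ℝ) ^ 2 * (2 * L + 6)) := by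
      push_cast
      ring
    rw [hG, hH]
    linarith

end Pool.Agent.Helper17.KW
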