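import Mathlib
import Pool.Agent.Helper17.KW.St.G3

/-!
# KW-G4: the Korobov window of exponent `γ < 3 / 2`

The proof of `korobov` (piece C5) with other parameters.  We may assume `η ≤ 1` and `1 ≤ γ` (the
hypothesis `n ≤ q ^ γ` is weaker for larger `γ`, `q ≥ 1`).  Let `ε = η / 4`.
Case `n ≤ q / 2`: `complete_sum` (with `exists_exponent` for `s = n - 1 ≥ 3`), as in C5.
Case `q / 2 < n ≤ q ^ γ`: now `h = ⌈n / q⌉₊ ≥ 1` DEPENDS ON `n`, so `h ≤ q ^ (γ - 1) + 1 ≤ 2 q ^ (γ - 1)`,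
`s = ⌈n / (8 h)⌉` (so `n ≤ 8 h s < n + 8 h`), `y = (q - s) / 2 - c` (natural numbers) with a constant `c`
such that `2 p ^ (- 2 c) ≤ η / 4`.  `n / (8 h) ≤ q / 8`, so `s ≤ q / 8 + 1`; and `s ≥ n / (8 h) ≥ q / 16` (if
`h = 1` because `n > q / 2`; if `h ≥ 2` because `n > (h - 1) q ≥ h q / 2`).  For large `q`: `8 h ≤ s` (as
`γ - 1 < 1`), `4 ≤ s ≤ y`, `y ≤ q / 2`, `2 p ^ (s + 2 y) ≤ 2 p ^ (q - 2 c) ≤ (η / 4) p ^ q`.  For `hK` of
`korobov_step_log` take logarithms; with `D = 8 h`, `l = 2 * Nat.log 2 D + 6`, `t = D ^ 2 l` and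
`2 h ^ 2 s ≥ h ^ 2 q / 8` it is enough that
`19 D ^ 3 l ^ 2 log (16 D ^ 3) + 8 h ^ 2 log p + (q / 16) log p + 4 t ^ 2 log (4 / η) ≤ (h ^ 2 q / 8) log p`.
Divide by `h ^ 2`: the terms on the left are `O (h l ^ 3) = O (q ^ (γ - 1) (log q) ^ 3)`, `O (1)`,
at most `(q / 16) log p`, and `O (h ^ 2 l ^ 2) = O (q ^ (2 (γ - 1)) (log q) ^ 2) = o (q)` since
`2 (γ - 1) < 1`.
-/

set_option autoImplicit false

open Finset

namespace Pool.Agent.Helper17.KW

/-- the numerical condition -/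
lemma G4_cond (lp L h q s y l lg G Q : ℝ) (hlp : 1 / 2 ≤ lp) (hlp2 : lp ≤ 2) (hL : 0 ≤ L)
    (hh : 1 ≤ h) (hG : 1 ≤ G) (hQ : 1 ≤ Q) (hhQ : h ≤ 2 * Q) (hl0 : 0 ≤ l) (hl : l ≤ 18 * G)
    (hlg : lg ≤ 16 * G) (hsq : q ≤ 16 * s) (hy : y ≤ q / 2)
    (hK : (100859920 + 21233664 * L) * G ^ 3 * Q ^ 2 ≤ q / 32) :
    19 * (8 * h) ^ 3 * l ^ 2 * lg + 8 * h ^ 2 * lp + y / 8 * lp + 4 * ((8 * h) ^ 2 * l) ^ 2 * L ≤
      2 * h ^ 2 * s * lp := by
  have hG0 : 0 ≤ G := by linarith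
  have hG23 : G ^ 2 ≤ G ^ 3 := pow_le_pow_right₀ hG (by norm_num)
  have hG3 : 1 ≤ G ^ 3 := one_le_pow₀ hG
  have hQ2 : 1 ≤ Q ^ 2 := one_le_pow₀ hQ
  have hQ12 : Q ≤ Q ^ 2 := by nlinarith only [hQ2, hQ]
  have h1 : 19 * (8 * h) ^ 3 * l ^ 2 * lg ≤ h ^ 2 * (100859904 * G ^ 3 * Q ^ 2) := by
    calc 19 * (8 * h) ^ 3 * l ^ 2 * lg ≤ 19 * (8 * h) ^ 3 * l ^ 2 * (16 * G) := by gcongr
      _ ≤ 19 * (8 * h) ^ 3 * (18 * G) ^ 2 * (16 * G) := by gcongr
      _ = h ^ 2 * (50429952 * G ^ 3 * h) := by ring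
      _ ≤ h ^ 2 * (50429952 * G ^ 3 * (2 * Q)) := by gcongr
      _ = h ^ 2 * (100859904 * G ^ 3 * Q) := by ring
      _ ≤ h ^ 2 * (100859904 * G ^ 3 * Q ^ 2) := by gcongr
  have h2 : 8 * h ^ 2 * lp ≤ h ^ 2 * (16 * G ^ 3 * Q ^ 2) := by
    calc 8 * h ^ 2 * lp ≤ 8 * h ^ 2 * 2 := by gcongr
      _ = h ^ 2 * (16 * 1 * 1) := by ring
      _ ≤ h ^ 2 * (16 * G ^ 3 * Q ^ 2) := by gcongr
  have h3 : 4 * ((8 * h) ^ 2 * l) ^ 2 * L ≤ h ^ 2 * (21233664 * L * G ^ 3 * Q ^ 2) := by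
    calc 4 * ((8 * h) ^ 2 * l) ^ 2 * L ≤ 4 * ((8 * h) ^ 2 * (18 * G)) ^ 2 * L := by gcongr
      _ = h ^ 2 * (5308416 * L * G ^ 2 * h ^ 2) := by ring
      _ ≤ h ^ 2 * (5308416 * L * G ^ 3 * (2 * Q) ^ 2) := by gcongr
      _ = h ^ 2 * (21233664 * L * G ^ 3 * Q ^ 2) := by ring
  have hq0 : 0 ≤ q := by
    have : 0 ≤ (100859920 + 21233664 * L) * G ^ 3 * Q ^ 2 := by positivity
    linarith
  have hh2 : 1 ≤ h ^ 2 := one_le_pow₀ hh
  have h4 : y / 8 * lp ≤ h ^ 2 * (q / 16 * lp) := by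
    calc y / 8 * lp ≤ q / 2 / 8 * lp := by gcongr
      _ = 1 * (q / 16 * lp) := by ring
      _ ≤ h ^ 2 * (q / 16 * lp) := by gcongr
  have h5 : h ^ 2 * (q / 8 * lp) ≤ 2 * h ^ 2 * s * lp := by
    calc h ^ 2 * (q / 8 * lp) ≤ h ^ 2 * (16 * s / 8 * lp) := by gcongr
      _ = 2 * h ^ 2 * s * lp := by ring
  have h6 : (100859920 + 21233664 * L) * G ^ 3 * Q ^ 2 ≤ q / 16 * lp := by
    calc (100859920 + 21233664 * L) * G ^ 3 * Q ^ 2 ≤ q / 32 := hK
      _ = q / 16 * (1 / 2) := by ring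
      _ ≤ q / 16 * lp := by gcongr
  have h7 : h ^ 2 * ((100859920 + 21233664 * L) * G ^ 3 * Q ^ 2) ≤ h ^ 2 * (q / 16 * lp) := by
    gcongr
  nlinarith only [h1, h2, h3, h4, h5, h7]

/-- the logarithm is small -/
lemma G4_large (C β : ℝ) (hβ : β < 1 / 2) :
    ∃ q₁ : ℕ, ∀ q : ℕ, q₁ ≤ q → C * Real.log q ^ 3 * ((q : ℝ) ^ β) ^ 2 ≤ (q : ℝ) / 32 := by
  have h1 : (fun x : ℝ => Real.log x ^ (3 : ℝ)) =o[Filter.atTop] fun x : ℝ => x ^ (1 - 2 * β) :=
    isLittleO_log_rpow_rpow_atTop 3 (by linarith)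
  have h2 := h1.def (c := 1 / (32 * (|C| + 1))) (by positivity)
  have h3 := (h2.and (Filter.eventually_ge_atTop (1 : ℝ)))
  have h4 := tendsto_natCast_atTop_atTop (R := ℝ) |>.eventually h3
  obtain ⟨q₁, hq₁⟩ := Filter.eventually_atTop.1 h4
  refine ⟨q₁, fun q hq => ?_⟩
  obtain ⟨h5, h6⟩ := hq₁ q hq
  have hq0 : (0 : ℝ) < q := by linarith
  have hlog : 0 ≤ Real.log q := Real.log_nonneg h6
  rw [Real.norm_of_nonneg (by positivity), Real.norm_of_nonneg (by positivity),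
    show ((3 : ℝ)) = ((3 : ℕ) : ℝ) by norm_num, Real.rpow_natCast] at h5
  have h7 : (q : ℝ) ^ (1 - 2 * β) * ((q : ℝ) ^ β) ^ 2 = q := by
    rw [← Real.rpow_natCast, ← Real.rpow_mul hq0.le, ← Real.rpow_add hq0]
    rw [show 1 - 2 * β + β * ((2 : ℕ) : ℝ) = 1 by push_cast; ring, Real.rpow_one]
  have hC : C ≤ |C| + 1 := by linarith [le_abs_self C]
  calc C * Real.log q ^ 3 * ((q : ℝ) ^ β) ^ 2
      ≤ (|C| + 1) * Real.log q ^ 3 * ((q : ℝ) ^ β) ^ 2 := by gcongr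
    _ ≤ (|C| + 1) * (1 / (32 * (|C| + 1)) * (q : ℝ) ^ (1 - 2 * β)) * ((q : ℝ) ^ β) ^ 2 := by
        gcongr
    _ = ((|C| + 1) * (1 / (32 * (|C| + 1)))) * ((q : ℝ) ^ (1 - 2 * β) * ((q : ℝ) ^ β) ^ 2) := by
        ring
    _ = (q : ℝ) / 32 := by
        rw [h7]
        have : |C| + 1 ≠ 0 := by positivity
        field_simp

theorem korobov_gen (p g : ℕ) (hpg : (p = 2 ∧ g = 3) ∨ (p = 3 ∧ g = 2)) (γ : ℝ) (hγ : γ < 3 / 2)
    (η : ℝ) (hη : 0 < η) :
    ∃ q₀ : ℕ, ∀ q : ℕ, q₀ ≤ q → ∀ n : ℕ, 4 ≤ n → (n : ℝ) ≤ (q : ℝ) ^ γ →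
      ∀ d : ℤ, ¬ (p : ℤ) ∣ d →
        ‖∑ k ∈ range (p ^ q), e ((d : ℝ) * (g : ℝ) ^ k / (p : ℝ) ^ n)‖ ≤ η * (p : ℝ) ^ q := by
  have hp : p.Prime := by
    rcases hpg with ⟨rfl, -⟩ | ⟨rfl, -⟩
    · exact Nat.prime_two
    · exact Nat.prime_three
  have hp2 : (2 : ℝ) ≤ p := by exact_mod_cast hp.two_le
  have hp3 : (p : ℝ) ≤ 3 := by
    rcases hpg with ⟨rfl, -⟩ | ⟨rfl, -⟩ <;> norm_num
  have hp0 : (0 : ℝ) < p := by linarith
  have hlog2 := Real.log_two_gt_d9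
  have hlog2' := Real.log_two_lt_d9
  have hlp : 1 / 2 ≤ Real.log p := by
    have h2 : Real.log 2 ≤ Real.log p := Real.log_le_log (by norm_num) hp2
    linarith
  have hlp2 : Real.log p ≤ 2 := by
    have := Real.log_le_sub_one_of_pos hp0
    linarith
  set ε : ℝ := min η 1 / 4 with hε
  have hε0 : 0 < ε := by rw [hε]; positivity
  have hε1 : ε ≤ η / 4 := by
    have := min_le_left η 1
    rw [hε]; linarith
  have hε2 : ε ≤ 1 := by
    have := min_le_right η 1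
    rw [hε]; linarith
  set L : ℝ := - Real.log ε with hL
  have hL0 : 0 ≤ L := by
    have := Real.log_nonpos hε0.le hε2
    rw [hL]; linarith
  obtain ⟨c, hc⟩ := pow_unbounded_of_one_lt (8 / η) (show (1 : ℝ) < 2 by norm_num)
  set β : ℝ := max γ 1 - 1 with hβ
  have hβ0 : 0 ≤ β := by
    have := le_max_right γ 1
    rw [hβ]; linarith
  have hβ1 : β < 1 / 2 := by
    have : max γ 1 < 3 / 2 := max_lt hγ (by norm_num)
    rw [hβ]; linarith
  obtain ⟨q₁, hq₁⟩ := G4_large (100859920 + 21233664 * L) β hβ1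
  refine ⟨q₁ + 4 * c + 6, fun q hq n hn hnq d hd => ?_⟩
  have hq3 : 4 * c + 6 ≤ q := by omega
  have hη2 : 8 / η ≤ (p : ℝ) ^ c :=
    hc.le.trans (pow_le_pow_left₀ (by norm_num) hp2 c)
  have hη3 : 8 ≤ (p : ℝ) ^ c * η := by
    rwa [div_le_iff₀ hη] at hη2
  rcases le_or_gt (2 * n) q with hcase | hcase
  · obtain ⟨T, w, hT1, hT2, hgT, hw⟩ := exists_exponent p g hpg (n - 1) (by omega)
    have h1 := complete_sum p g n T w d hp (by omega) hT1 hT2 hgT hw hd (p ^ q)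
    refine h1.trans ?_
    have h2 : (p : ℝ) ^ n * (p : ℝ) ^ c ≤ (p : ℝ) ^ q := by
      rw [← pow_add]
      exact pow_le_pow_right₀ (by linarith) (by omega)
    have h3 : 0 < (p : ℝ) ^ n := by positivity
    nlinarith only [hη, h2, hlog2, h3, hlog2', hη3]
  · have hlarge := hq₁ q (by omega)
    set Q : ℝ := (q : ℝ) ^ β with hQ
    set G : ℝ := Real.log q with hG
    have hq6 : (6 : ℝ) ≤ q := by exact_mod_cast (by omega : 6 ≤ q)
    have hq0 : (0 : ℝ) < q := by linarith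
    have hG1 : 1 ≤ G := by
      rw [hG, Real.le_log_iff_exp_le hq0]
      have := Real.exp_one_lt_d9
      linarith
    have hQ1 : 1 ≤ Q := Real.one_le_rpow (by linarith) hβ0
    set h : ℕ := (n + (q - 1)) / q with hh
    have hqpos : 0 < q := by omega
    have hh1 : q * h ≤ n + (q - 1) := Nat.mul_div_le _ _
    have hh2 : n ≤ q * h := by
      have h1 := Nat.lt_mul_div_succ (n + (q - 1)) hqpos
      rw [← hh] at h1
      have h2 : q * (h + 1) = q * h + q := by ring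
      omega
    have hh3 : 1 ≤ h := by
      by_contra hcon
      have : h = 0 := Nat.eq_zero_of_not_pos hcon
      rw [this, Nat.mul_zero] at hh2
      omega
    have hnQ : (n : ℝ) ≤ q * Q := by
      refine hnq.trans ?_
      calc (q : ℝ) ^ γ ≤ (q : ℝ) ^ (1 + β) :=
            Real.rpow_le_rpow_of_exponent_le (by linarith only [hlog2, hlog2', hq6]) (by
              have := le_max_left γ 1
              rw [hβ]; linarith)
        _ = q * Q := by rw [Real.rpow_add hq0, Real.rpow_one]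
    have hhQ : (h : ℝ) ≤ 2 * Q := by
      have h1 : (q : ℝ) * h ≤ n + q := by exact_mod_cast (by omega : q * h ≤ n + q)
      have h2 : (q : ℝ) * h ≤ q * (2 * Q) := by nlinarith only [hnQ, h1, hQ1]
      exact le_of_mul_le_mul_left h2 hq0
    have hh0 : (0 : ℝ) < h := by exact_mod_cast hh3
    have h256 : 256 * h ≤ 2 * q := by
      have h1 : (256 : ℝ) * h ≤ 2 * q := by
        have h2 : 1 ≤ G ^ 3 := one_le_pow₀ hG1
        have h3 : Q ≤ Q ^ 2 := by nlinarith only [hQ1]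
        have h4 : 100859920 * 1 * Q ≤ (100859920 + 21233664 * L) * G ^ 3 * Q ^ 2 := by
          gcongr
          linarith
        linarith
      exact_mod_cast h1
    set s : ℕ := (n + (8 * h - 1)) / (8 * h) with hs
    have h8h : 0 < 8 * h := by omega
    have hs1 : 8 * h * s ≤ n + (8 * h - 1) := by
      rw [hs]; exact Nat.mul_div_le _ _
    have hs2 : n ≤ 8 * h * s := by
      have h1 := Nat.lt_mul_div_succ (n + (8 * h - 1)) h8h
      rw [← hs] at h1
      have h2 : 8 * h * (s + 1) = 8 * h * s + 8 * h := by ring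
      omega
    have hs3 : 8 * s ≤ q + 7 := by
      by_contra hcon
      push Not at hcon
      have h1 : h * (q + 8) ≤ h * (8 * s) := Nat.mul_le_mul_left h (by omega)
      have h2 : h * (8 * s) = 8 * h * s := by ring
      have h3 : h * (q + 8) = q * h + 8 * h := by ring
      omega
    have hs5 : q ≤ 16 * s := by
      by_contra hcon
      push Not at hcon
      have h1 : h * (16 * s + 1) ≤ h * q := Nat.mul_le_mul_left h (by omega)
      have h2 : h * (16 * s + 1) = 2 * (8 * h * s) + h := by ring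
      have h3 : h * q = q * h := Nat.mul_comm _ _
      rcases Nat.lt_or_ge h 2 with h4 | h4
      · have h5 : h = 1 := by omega
        rw [h5] at h1 h2 hs2
        omega
      · have h5 : q * 2 ≤ q * h := Nat.mul_le_mul_left q h4
        omega
    have hs4 : 8 * h ≤ s := by omega
    set y : ℕ := (q - s - 2 * c) / 2 with hy
    have hy1 : s ≤ y := by omega
    have hy2 : s + 2 * y ≤ q - 2 * c := by omega
    have hy3 : 2 * y ≤ q := by omega
    have key := korobov_step_log p g hpg q h s y n hh3 (by omega) hs4 hy1 hs2 (by omega) ε hε0 ?_ d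
      hd
    · refine key.trans ?_
      have h1 : (p : ℝ) ^ (s + 2 * y) * (p : ℝ) ^ c ≤ (p : ℝ) ^ q := by
        rw [← pow_add]
        exact pow_le_pow_right₀ (by linarith only [hp2, hlog2, hlog2']) (by omega)
      have h2 : 0 < (p : ℝ) ^ (s + 2 * y) := by positivity
      have h3 : 0 < (p : ℝ) ^ q := by positivity
      have h4 : 8 * (p : ℝ) ^ (s + 2 * y) ≤ η * (p : ℝ) ^ q := by
        calc 8 * (p : ℝ) ^ (s + 2 * y) ≤ ((p : ℝ) ^ c * η) * (p : ℝ) ^ (s + 2 * y) := by gcongr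
          _ = η * ((p : ℝ) ^ (s + 2 * y) * (p : ℝ) ^ c) := by ring
          _ ≤ η * (p : ℝ) ^ q := by gcongr
      nlinarith only [h4, hlog2, h2, hlog2', hε1, h3]
    · have hlog16 : Real.log 16 ≤ 3 := by
        rw [show (16 : ℝ) = 2 ^ 4 by norm_num, Real.log_pow]
        push_cast
        linarith only [hlog2, hlog2']
      have hlog8h : Real.log (8 * h) ≤ 4 * G := by
        have h1 : Real.log (8 * h) ≤ Real.log (16 * Q) :=
          Real.log_le_log (by positivity) (by linarith only [hhQ])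
        have h2 : Real.log (16 * Q) = Real.log 16 + β * G := by
          rw [Real.log_mul (by norm_num) (by positivity), hQ, Real.log_rpow hq0]
        have h3 : β * G ≤ 1 * G := by gcongr; linarith only [hlog2, hlog2', hβ1]
        linarith only [hG1, hlog16, h1, h2, h3]
      have hlg : Real.log (16 * (8 * (h : ℝ)) ^ 3) ≤ 16 * G := by
        rw [Real.log_mul (by norm_num) (by positivity), Real.log_pow]
        push_cast
        linarith only [hlog2, hlog2', hG1, hlog16, hlog8h]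
      have hl : (2 * (Nat.log 2 (8 * h) : ℝ) + 6) ≤ 18 * G := by
        have h1 : 2 ^ (Nat.log 2 (8 * h)) ≤ 8 * h := Nat.pow_log_le_self 2 (by omega)
        have h2 : ((2 : ℝ) ^ (Nat.log 2 (8 * h))) ≤ 8 * h := by exact_mod_cast h1
        have h3 := Real.log_le_log (by positivity) h2
        rw [Real.log_pow] at h3
        have h4 : (0 : ℝ) ≤ (Nat.log 2 (8 * h) : ℝ) := Nat.cast_nonneg _
        have h5 : (Nat.log 2 (8 * h) : ℝ) * (2 / 3) ≤ (Nat.log 2 (8 * h) : ℝ) * Real.log 2 := by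
          gcongr
          linarith only [hlog2, hlog2']
        linarith only [hG1, hlog8h, h3, h5]
      have hcond := G4_cond (Real.log p) L h q s y (2 * (Nat.log 2 (8 * h) : ℝ) + 6)
        (Real.log (16 * (8 * (h : ℝ)) ^ 3)) G Q hlp hlp2 hL0 (by exact_mod_cast hh3) hG1 hQ1 hhQ
        (by positivity) hl hlg (by exact_mod_cast hs5) (by
          have : (2 * y : ℝ) ≤ q := by exact_mod_cast hy3
          linarith only [this]) hlarge
      rw [← Real.log_le_log_iff (by positivity) (by positivity), Real.log_mul (by positivity)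
        (by positivity), Real.log_div (by positivity) (by positivity), Real.log_mul (by positivity)
        (by positivity), Real.log_pow, Real.log_pow, Real.log_pow, Real.log_pow,
        Real.log_rpow hp0]
      push_cast
      rw [hL] at hcond
      linarith only [hcond]

end Pool.Agent.Helper17.KW
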