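import Mathlib
import Pool.Agent.Helper17.KW.St.A11
import Pool.Agent.Helper17.KW.St.B1
import Pool.Agent.Helper17.KW.St.B2

/-!
# KW-B3: the estimate of the double sum

Here `D = 8 h`, `t = D ^ 2 + D ^ 3`, `Y = p ^ y`.  Proof.  Put `L_j = t Y ^ (j + 1)`.  For
`4 h ≤ j + 1 < 6 h` let `B` be the denominator of `α j`: `√B ≤ √(D!) p ^ ((n - (j + 1) s) / 2)` and
`n - (j + 1) s ≤ D s - 4 h s = 4 h s`, while `L_j ≥ p ^ (y (j + 1)) ≥ p ^ (4 h s)`; so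
`√B / (2 L_j + 1) ≤ √(D!) p ^ (- 2 h s)`.  And `n - (j + 1) s ≥ 2 h s - 8 h` (natural numbers: from
`8 h s < n + 8 h` and `j + 1 ≤ 6 h`), so `1 / √B ≤ p ^ (4 h - h s)`.  By `linear_sum` the `j`-th factor of
`double_sum` is at most `(2 L_j + 1) ^ 2 (1 / √B + √B / (2 L_j + 1)) ≤ (3 L_j) ^ 2 * 2 D! p ^ (4 h) / p ^ (h s)`.
The other factors are at most `(3 L_j) ^ 2` (`linear_sum_trivial`).  The product of the
`(3 L_j) ^ 2` is `(3 t) ^ (2 D) Y ^ (D (D + 1))`.  There are `2 h` special factors.  Insert `vmvt'`: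
`J ^ 2 ≤ (16 D ^ 3) ^ (64 D ^ 5) Y ^ (4 t - D (D + 1) + 1 / 8)`.  Finally
`(3 t) ^ (2 D) * (2 D!) ^ (2 h) ≤ (16 D ^ 3) ^ (2 D + D ^ 2) ≤ (16 D ^ 3) ^ (3 D ^ 5)`.
-/

set_option autoImplicit false

open Finset

namespace Pool.Agent.Helper17.KW

private lemma B3_special (p h s y n : ℕ) (hp : 2 ≤ p) (hsy : s ≤ y)
    (hn : n ≤ 8 * h * s) (hn' : 8 * h * s < n + 8 * h) (t : ℕ) (ht : 1 ≤ t) (i : ℕ)
    (hi : 4 * h ≤ i) (hi' : i < 6 * h) (B F : ℕ) (hF : 1 ≤ F)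
    (hB : p ^ (n - i * s) ≤ B) (hB' : B ≤ F * p ^ (n - i * s)) :
    (2 * ((t * (p ^ y) ^ i : ℕ) : ℝ) + 1) * (2 * ((t * (p ^ y) ^ i : ℕ) : ℝ) + 1 + B) / Real.sqrt B ≤
      (3 * ((t * (p ^ y) ^ i : ℕ) : ℝ)) ^ 2 * (2 * F * (p : ℝ) ^ (4 * h) / (p : ℝ) ^ (h * s)) := by
  set L : ℕ := t * (p ^ y) ^ i with hLdef
  have hp1 : 1 ≤ p := by omega
  have hpR : (1 : ℝ) ≤ p := by exact_mod_cast hp1
  have hp0 : (0 : ℝ) < p := by linarith
  have hB1 : 1 ≤ B := le_trans (Nat.one_le_pow _ _ (by omega)) hB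
  have hBR : (1 : ℝ) ≤ B := by exact_mod_cast hB1
  have hFR : (1 : ℝ) ≤ F := by exact_mod_cast hF
  have hLge : p ^ (4 * h * s) ≤ L := by
    calc p ^ (4 * h * s) ≤ p ^ (y * i) := by
          apply Nat.pow_le_pow_right hp1
          calc 4 * h * s ≤ i * y := Nat.mul_le_mul hi hsy
            _ = y * i := Nat.mul_comm _ _
      _ = (p ^ y) ^ i := by rw [pow_mul]
      _ ≤ L := by
          rw [hLdef]
          exact Nat.le_mul_of_pos_left _ ht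
  have hLgeR : (p : ℝ) ^ (4 * h * s) ≤ L := by exact_mod_cast hLge
  have hL1 : (1 : ℝ) ≤ L := le_trans (one_le_pow₀ hpR) hLgeR
  -- exponents
  have his : i * s ≤ 6 * h * s := Nat.mul_le_mul_right s hi'.le
  have his' : 4 * h * s ≤ i * s := Nat.mul_le_mul_right s hi
  have e1 : 2 * (h * s) ≤ (n - i * s) + 8 * h := by
    have a1 : 6 * h * s = 6 * (h * s) := by ring
    have a2 : 8 * h * s = 8 * (h * s) := by ring
    omega
  have e2 : n - i * s ≤ 4 * (h * s) := by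
    have a1 : 4 * h * s = 4 * (h * s) := by ring
    have a2 : 8 * h * s = 8 * (h * s) := by ring
    omega
  set R : ℝ := Real.sqrt B with hR
  have hR0 : 0 < R := Real.sqrt_pos.mpr (by linarith)
  have hRR : R * R = B := Real.mul_self_sqrt (by linarith)
  set P : ℝ := (p : ℝ) ^ (h * s) with hP
  have hP1 : 1 ≤ P := one_le_pow₀ hpR
  have hP0 : 0 < P := by linarith
  set Q : ℝ := (p : ℝ) ^ (4 * h) with hQ
  have hQ1 : 1 ≤ Q := one_le_pow₀ hpR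
  have hQ0 : 0 < Q := by linarith
  have hLP : P ^ 4 ≤ L := by
    have : (p : ℝ) ^ (4 * h * s) = P ^ 4 := by
      rw [hP, ← pow_mul]
      congr 1
      ring
    rw [← this]
    exact hLgeR
  -- lower bound for R
  have k1 : P ≤ R * Q := by
    apply le_of_sq_le_sq _ (by positivity)
    have a1 : P ^ 2 = (p : ℝ) ^ (2 * (h * s)) := by
      rw [hP, ← pow_mul]
      congr 1
      ring
    have a2 : (R * Q) ^ 2 = B * (p : ℝ) ^ (8 * h) := by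
      rw [mul_pow, sq R, hRR, hQ, ← pow_mul]
      congr 2
      ring
    rw [a1, a2]
    calc (p : ℝ) ^ (2 * (h * s)) ≤ (p : ℝ) ^ ((n - i * s) + 8 * h) := pow_le_pow_right₀ hpR e1
      _ = (p : ℝ) ^ (n - i * s) * (p : ℝ) ^ (8 * h) := pow_add _ _ _
      _ ≤ B * (p : ℝ) ^ (8 * h) := by
          apply mul_le_mul_of_nonneg_right _ (by positivity)
          exact_mod_cast hB
  -- upper bound for R
  have k2 : R ≤ F * P ^ 2 := by
    apply le_of_sq_le_sq _ (by positivity)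
    rw [sq R, hRR]
    have a1 : (B : ℝ) ≤ F * (p : ℝ) ^ (n - i * s) := by exact_mod_cast hB'
    have a2 : (p : ℝ) ^ (n - i * s) ≤ P ^ 4 := by
      have : P ^ 4 = (p : ℝ) ^ (4 * (h * s)) := by
        rw [hP, ← pow_mul]
        congr 1
        ring
      rw [this]
      exact pow_le_pow_right₀ hpR e2
    calc (B : ℝ) ≤ F * (p : ℝ) ^ (n - i * s) := a1
      _ ≤ F * P ^ 4 := by gcongr
      _ = 1 * (F * P ^ 4) := by ring
      _ ≤ F * (F * P ^ 4) := by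
          apply mul_le_mul_of_nonneg_right hFR (by positivity)
      _ = (F * P ^ 2) ^ 2 := by ring
  -- the two terms
  have hx : 2 * (L : ℝ) + 1 ≤ 3 * L := by linarith
  have hx0 : 0 < 2 * (L : ℝ) + 1 := by linarith
  have t1 : (2 * (L : ℝ) + 1) ^ 2 / R ≤ (3 * (L : ℝ)) ^ 2 * (F * Q / P) := by
    have b1 : 1 / R ≤ F * Q / P := by
      rw [div_le_div_iff₀ hR0 hP0]
      calc 1 * P = P := one_mul _
        _ ≤ R * Q := k1
        _ = 1 * (R * Q) := by ring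
        _ ≤ F * (R * Q) := mul_le_mul_of_nonneg_right hFR (by positivity)
        _ = F * Q * R := by ring
    calc (2 * (L : ℝ) + 1) ^ 2 / R = (2 * (L : ℝ) + 1) ^ 2 * (1 / R) := by ring
      _ ≤ (3 * (L : ℝ)) ^ 2 * (F * Q / P) := by gcongr
  have t2 : (2 * (L : ℝ) + 1) * R ≤ (3 * (L : ℝ)) ^ 2 * (F * Q / P) := by
    have b1 : P ^ 2 ≤ 3 * L * (Q / P) := by
      rw [← mul_div_assoc, le_div_iff₀ hP0]
      have c1 : P ^ 2 * P ≤ P ^ 4 := by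
        calc P ^ 2 * P = P ^ 3 * 1 := by ring
          _ ≤ P ^ 3 * P := mul_le_mul_of_nonneg_left hP1 (by positivity)
          _ = P ^ 4 := by ring
      have c2 : (L : ℝ) * 1 ≤ L * Q := mul_le_mul_of_nonneg_left hQ1 (by linarith)
      have c3 : 0 ≤ (L : ℝ) * Q := by positivity
      linarith
    calc (2 * (L : ℝ) + 1) * R ≤ (3 * L) * (F * P ^ 2) := by gcongr
      _ ≤ (3 * L) * (F * (3 * L * (Q / P))) := by gcongr
      _ = (3 * (L : ℝ)) ^ 2 * (F * Q / P) := by ring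
  have hsplit : (2 * (L : ℝ) + 1) * (2 * L + 1 + B) / R
      = (2 * (L : ℝ) + 1) ^ 2 / R + (2 * (L : ℝ) + 1) * R := by
    have : (2 * (L : ℝ) + 1) * R = (2 * (L : ℝ) + 1) * (R * R) / R := by
      field_simp
    rw [this, hRR]
    ring
  rw [hsplit]
  calc (2 * (L : ℝ) + 1) ^ 2 / R + (2 * (L : ℝ) + 1) * R
      ≤ (3 * (L : ℝ)) ^ 2 * (F * Q / P) + (3 * (L : ℝ)) ^ 2 * (F * Q / P) := add_le_add t1 t2
    _ = (3 * (L : ℝ)) ^ 2 * (2 * F * Q / P) := by ring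

private lemma B3_card (h : ℕ) (hh : 1 ≤ h) :
    ((univ : Finset (Fin (8 * h))).filter fun j => 4 * h ≤ j.1 + 1 ∧ j.1 + 1 < 6 * h).card
      = 2 * h := by
  have : ((univ : Finset (Fin (8 * h))).filter fun j => 4 * h ≤ j.1 + 1 ∧ j.1 + 1 < 6 * h).map
      Fin.valEmbedding = Finset.Ico (4 * h - 1) (6 * h - 1) := by
    ext k
    simp only [mem_map, mem_filter, mem_univ, true_and, Fin.valEmbedding_apply, mem_Ico]
    constructor
    · rintro ⟨j, ⟨h1, h2⟩, rfl⟩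
      omega
    · rintro ⟨h1, h2⟩
      exact ⟨⟨k, by omega⟩, ⟨by simp only []; omega, by simp only []; omega⟩, rfl⟩
  rw [← Finset.card_map Fin.valEmbedding, this, Nat.card_Ico]
  omega

private lemma B3_sum (D : ℕ) : ∑ j : Fin D, 2 * (j.1 + 1) = D * (D + 1) := by
  rw [Fin.sum_univ_eq_sum_range (fun j => 2 * (j + 1)) D]
  induction D with
  | zero => simp
  | succ n ih => rw [Finset.sum_range_succ, ih]; ring

/-- the constants -/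
private lemma B3_const (h : ℕ) (hh : 1 ≤ h) (t : ℕ) (ht : t = (8 * h) ^ 2 + (8 * h) ^ 3) :
    (3 * (t : ℝ)) ^ (2 * (8 * h)) * (2 * ((8 * h).factorial : ℝ)) ^ (2 * h) ≤
      (16 * (8 * h : ℝ) ^ 3) ^ (3 * (8 * h) ^ 5) := by
  obtain ⟨D, hD⟩ : ∃ D, D = 8 * h := ⟨_, rfl⟩
  have hD8 : 8 ≤ D := by omega
  have hDR : (8 : ℝ) ≤ D := by exact_mod_cast hD8
  have hcast : (8 * (h : ℝ)) = D := by rw [hD]; push_cast; ring
  rw [hcast, ← hD]
  rw [← hD] at ht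
  set C : ℝ := 16 * (D : ℝ) ^ 3 with hC
  have hC1 : 1 ≤ C := by
    have : (1 : ℝ) ≤ (D : ℝ) ^ 3 := one_le_pow₀ (by linarith)
    rw [hC]; linarith
  have h3t : 3 * (t : ℝ) ≤ C := by
    rw [ht, hC]
    push_cast
    have a1 : (D : ℝ) ^ 2 * 1 ≤ (D : ℝ) ^ 2 * D := mul_le_mul_of_nonneg_left (by linarith) (by positivity)
    have a2 : (D : ℝ) ^ 2 * D = (D : ℝ) ^ 3 := by ring
    have a3 : (0 : ℝ) ≤ (D : ℝ) ^ 3 := by positivity
    linarith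
  have hDC : (D : ℝ) ≤ C := by
    rw [hC]
    have a1 : (D : ℝ) * 1 ≤ (D : ℝ) * D ^ 2 :=
      mul_le_mul_of_nonneg_left (one_le_pow₀ (by linarith)) (by positivity)
    have a2 : (D : ℝ) * D ^ 2 = (D : ℝ) ^ 3 := by ring
    have a3 : (0 : ℝ) ≤ (D : ℝ) ^ 3 := by positivity
    linarith
  have h2DC : 2 * (D : ℝ) ≤ C := by
    rw [hC]
    have a1 : (D : ℝ) * 1 ≤ (D : ℝ) * D ^ 2 :=
      mul_le_mul_of_nonneg_left (one_le_pow₀ (by linarith)) (by positivity)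
    have a2 : (D : ℝ) * D ^ 2 = (D : ℝ) ^ 3 := by ring
    have a3 : (0 : ℝ) ≤ (D : ℝ) ^ 3 := by positivity
    linarith
  have hfac : 2 * (D.factorial : ℝ) ≤ C ^ D := by
    have a1 : (D.factorial : ℝ) ≤ (D : ℝ) ^ D := by exact_mod_cast Nat.factorial_le_pow D
    calc 2 * (D.factorial : ℝ) ≤ 2 * (D : ℝ) ^ D := by linarith
      _ ≤ 2 ^ D * (D : ℝ) ^ D := by
          apply mul_le_mul_of_nonneg_right _ (by positivity)
          calc (2 : ℝ) = 2 ^ 1 := by norm_num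
            _ ≤ 2 ^ D := pow_le_pow_right₀ (by norm_num) (by omega)
      _ = (2 * (D : ℝ)) ^ D := by rw [mul_pow]
      _ ≤ C ^ D := by gcongr
  calc (3 * (t : ℝ)) ^ (2 * D) * (2 * (D.factorial : ℝ)) ^ (2 * h)
      ≤ C ^ (2 * D) * (C ^ D) ^ (2 * h) := by gcongr
    _ = C ^ (2 * D + D * (2 * h)) := by rw [← pow_mul, ← pow_add]
    _ ≤ C ^ (3 * D ^ 5) := by
        apply pow_le_pow_right₀ hC1
        have b1 : 2 * h ≤ D := by omega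
        have b2 : D * (2 * h) ≤ D * D := Nat.mul_le_mul_left D b1
        have b3 : D * D ≤ D ^ 5 := by
          calc D * D = D ^ 2 := by ring
            _ ≤ D ^ 5 := Nat.pow_le_pow_right (by omega) (by omega)
        have b4 : D ≤ D ^ 5 := by
          calc D = D ^ 1 := by ring
            _ ≤ D ^ 5 := Nat.pow_le_pow_right (by omega) (by omega)
        omega

theorem double_sum_le (p h s y n : ℕ) (hp : 2 ≤ p) (hh : 1 ≤ h) (hsy : s ≤ y)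
    (hn : n ≤ 8 * h * s) (hn' : 8 * h * s < n + 8 * h) (α : Fin (8 * h) → ℚ)
    (hα : ∀ j : Fin (8 * h), 4 * h ≤ j.1 + 1 → j.1 + 1 < 6 * h →
      p ^ (n - (j.1 + 1) * s) ≤ (α j).den ∧
        (α j).den ≤ (8 * h).factorial * p ^ (n - (j.1 + 1) * s)) :
    ‖∑ x ∈ Icc 1 (p ^ y), ∑ z ∈ Icc 1 (p ^ y),
        e (∑ j : Fin (8 * h), (α j : ℝ) * ((x : ℝ) * z) ^ (j.1 + 1))‖ ^
          (4 * ((8 * h) ^ 2 + (8 * h) ^ 3) ^ 2) ≤
      (16 * (8 * h : ℝ) ^ 3) ^ (67 * (8 * h) ^ 5) * (p : ℝ) ^ (8 * h ^ 2) / (p : ℝ) ^ (2 * h ^ 2 * s) *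
        (p : ℝ) ^ ((y : ℝ) / 8) * ((p : ℝ) ^ y) ^ (8 * ((8 * h) ^ 2 + (8 * h) ^ 3) ^ 2) := by
  obtain ⟨D, hD⟩ : ∃ D, D = 8 * h := ⟨_, rfl⟩
  obtain ⟨t, ht⟩ : ∃ t, t = (8 * h) ^ 2 + (8 * h) ^ 3 := ⟨_, rfl⟩
  obtain ⟨Y, hY⟩ : ∃ Y, Y = p ^ y := ⟨_, rfl⟩
  have hp1 : 1 ≤ p := by omega
  have hpR : (1 : ℝ) ≤ p := by exact_mod_cast hp1
  have hp0 : (0 : ℝ) < p := by linarith
  have hD8 : 8 ≤ 8 * h := by omega
  have ht1 : 1 ≤ t := by
    rw [ht]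
    have : 1 ≤ (8 * h) ^ 2 := Nat.one_le_pow _ _ (by omega)
    omega
  have hY1 : 1 ≤ Y := by rw [hY]; exact Nat.one_le_pow _ _ (by omega)
  have hYR : (1 : ℝ) ≤ Y := by exact_mod_cast hY1
  have hY0 : (0 : ℝ) < Y := by linarith
  have hcast : ((p : ℝ) ^ y) = (Y : ℝ) := by rw [hY]; push_cast; rfl
  rw [hcast, ← ht, ← hY]
  have hds := double_sum (8 * h) t Y ht1 hY1 (fun j => (α j : ℝ))
  set F : ℕ := (8 * h).factorial with hF
  have hF1 : 1 ≤ F := Nat.factorial_pos _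
  have hFR : (1 : ℝ) ≤ F := by exact_mod_cast hF1
  set W : ℝ := 2 * F * (p : ℝ) ^ (4 * h) / (p : ℝ) ^ (h * s) with hW
  have hW0 : 0 < W := by
    rw [hW]
    positivity
  -- each factor
  have hfac : ∀ j : Fin (8 * h), ∑ μ ∈ box (t * Y ^ (j.1 + 1)),
        ‖∑ ν ∈ box (t * Y ^ (j.1 + 1)), e ((α j : ℝ) * ((ν : ℝ) * μ))‖ ≤
      (3 * ((t * Y ^ (j.1 + 1) : ℕ) : ℝ)) ^ 2 *
        (if 4 * h ≤ j.1 + 1 ∧ j.1 + 1 < 6 * h then W else 1) := by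
    intro j
    split_ifs with hj
    · refine (linear_sum _ (α j)).trans ?_
      have hα' := hα j hj.1 hj.2
      have key := B3_special p h s y n hp hsy hn hn' t ht1 (j.1 + 1) hj.1 hj.2 (α j).den F hF1
        hα'.1 hα'.2
      rw [← hY] at key
      exact key
    · rw [mul_one]
      refine (linear_sum_trivial _ (α j : ℝ)).trans ?_
      have a1 : 1 ≤ t * Y ^ (j.1 + 1) := Nat.one_le_iff_ne_zero.mpr
        (Nat.mul_ne_zero (by omega) (pow_ne_zero _ (by omega)))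
      have a2 : (1 : ℝ) ≤ ((t * Y ^ (j.1 + 1) : ℕ) : ℝ) := by exact_mod_cast a1
      apply pow_le_pow_left₀ (by linarith)
      linarith
  have hprod : ∏ j : Fin (8 * h), ∑ μ ∈ box (t * Y ^ (j.1 + 1)),
        ‖∑ ν ∈ box (t * Y ^ (j.1 + 1)), e ((α j : ℝ) * ((ν : ℝ) * μ))‖ ≤
      (3 * (t : ℝ)) ^ (2 * (8 * h)) * (Y : ℝ) ^ (8 * h * (8 * h + 1)) * W ^ (2 * h) := by
    refine (Finset.prod_le_prod (fun j _ => Finset.sum_nonneg fun μ _ => norm_nonneg _)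
      (fun j _ => hfac j)).trans (le_of_eq ?_)
    rw [Finset.prod_mul_distrib]
    congr 1
    · have a1 : ∀ j : Fin (8 * h), (3 * ((t * Y ^ (j.1 + 1) : ℕ) : ℝ)) ^ 2
          = (3 * (t : ℝ)) ^ 2 * (Y : ℝ) ^ (2 * (j.1 + 1)) := by
        intro j
        push_cast
        rw [pow_mul', ← mul_pow]
        ring
      rw [Finset.prod_congr rfl fun j _ => a1 j, Finset.prod_mul_distrib, Finset.prod_const,
        Finset.card_univ, Fintype.card_fin, ← pow_mul, Finset.prod_pow_eq_pow_sum, B3_sum]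
    · rw [Finset.prod_ite, Finset.prod_const, Finset.prod_const_one, mul_one, B3_card h hh]
  -- the mean value
  have hJ := vmvt' (8 * h) Y hD8 hY1
  have ht' : (8 * h) ^ 2 + (8 * h) ^ 3 = t := ht.symm
  rw [ht'] at hJ
  set C : ℝ := 16 * (8 * h : ℝ) ^ 3 with hC
  have hhR : (1 : ℝ) ≤ h := by exact_mod_cast hh
  have hC0 : 0 < C := by rw [hC]; positivity
  have hexp : (2 * (((8 * h : ℕ) : ℝ) ^ 2 + ((8 * h : ℕ) : ℝ) ^ 3)
      - ((8 * h : ℕ) : ℝ) * (((8 * h : ℕ) : ℝ) + 1) / 2 + 1 / 16)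
      = 2 * (t : ℝ) - 8 * h * (8 * h + 1) / 2 + 1 / 16 := by
    rw [ht]; push_cast; ring
  rw [hexp] at hJ
  have hJ' : (J (8 * h) t (Icc 1 (Y : ℤ)) : ℝ) ≤
      C ^ (32 * (8 * h) ^ 5) * (Y : ℝ) ^ (2 * (t : ℝ) - 8 * h * (8 * h + 1) / 2 + 1 / 16) := by
    refine hJ.trans (le_of_eq ?_)
    rw [hC]
    push_cast
    ring_nf
  have hJ2 : (J (8 * h) t (Icc 1 (Y : ℤ)) : ℝ) ^ 2 * (Y : ℝ) ^ (8 * h * (8 * h + 1)) ≤
      C ^ (64 * (8 * h) ^ 5) * ((Y : ℝ) ^ (4 * t) * (Y : ℝ) ^ (1 / 8 : ℝ)) := by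
    calc (J (8 * h) t (Icc 1 (Y : ℤ)) : ℝ) ^ 2 * (Y : ℝ) ^ (8 * h * (8 * h + 1))
        ≤ (C ^ (32 * (8 * h) ^ 5) * (Y : ℝ) ^ (2 * (t : ℝ) - 8 * h * (8 * h + 1) / 2 + 1 / 16)) ^ 2
          * (Y : ℝ) ^ (8 * h * (8 * h + 1)) := by gcongr
      _ = C ^ (64 * (8 * h) ^ 5) *
          (((Y : ℝ) ^ (2 * (t : ℝ) - 8 * h * (8 * h + 1) / 2 + 1 / 16)) ^ 2
            * (Y : ℝ) ^ (8 * h * (8 * h + 1))) := by
          rw [mul_pow, ← pow_mul, mul_assoc]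
          congr 2
          ring
      _ = C ^ (64 * (8 * h) ^ 5) * ((Y : ℝ) ^ (4 * t) * (Y : ℝ) ^ (1 / 8 : ℝ)) := by
          congr 1
          rw [← Real.rpow_natCast (Y : ℝ) (8 * h * (8 * h + 1)), ← Real.rpow_natCast (Y : ℝ) (4 * t),
            ← Real.rpow_natCast _ 2, ← Real.rpow_mul hY0.le, ← Real.rpow_add hY0,
            ← Real.rpow_add hY0]
          congr 1
          push_cast
          ring
  have hconst := B3_const h hh t ht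
  -- assemble
  have hWpow : W ^ (2 * h) = (2 * (F : ℝ)) ^ (2 * h) * ((p : ℝ) ^ (8 * h ^ 2) / (p : ℝ) ^ (2 * h ^ 2 * s)) := by
    rw [hW, mul_div_assoc, mul_pow, div_pow, ← pow_mul, ← pow_mul]
    congr 3
    · ring
    · ring
  have hYp : (Y : ℝ) ^ (1 / 8 : ℝ) = (p : ℝ) ^ ((y : ℝ) / 8) := by
    rw [← hcast, ← Real.rpow_natCast, ← Real.rpow_mul hp0.le]
    congr 1
    ring
  have h4t : 4 * t ≤ 8 * t ^ 2 := by nlinarith
  have hYsplit : (Y : ℝ) ^ (8 * t ^ 2 - 4 * t) * (Y : ℝ) ^ (4 * t) = (Y : ℝ) ^ (8 * t ^ 2) := by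
    rw [← pow_add]
    congr 1
    omega
  set G : ℝ := (p : ℝ) ^ (8 * h ^ 2) / (p : ℝ) ^ (2 * h ^ 2 * s) with hG
  have hG0 : 0 < G := by rw [hG]; positivity
  calc _ ≤ (Y : ℝ) ^ (8 * t ^ 2 - 4 * t) * (J (8 * h) t (Icc 1 (Y : ℤ)) : ℝ) ^ 2 *
        ∏ j : Fin (8 * h), ∑ μ ∈ box (t * Y ^ (j.1 + 1)),
          ‖∑ ν ∈ box (t * Y ^ (j.1 + 1)), e ((α j : ℝ) * ((ν : ℝ) * μ))‖ := hds
    _ ≤ (Y : ℝ) ^ (8 * t ^ 2 - 4 * t) * (J (8 * h) t (Icc 1 (Y : ℤ)) : ℝ) ^ 2 *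
        ((3 * (t : ℝ)) ^ (2 * (8 * h)) * (Y : ℝ) ^ (8 * h * (8 * h + 1)) * W ^ (2 * h)) := by
        gcongr
    _ = (Y : ℝ) ^ (8 * t ^ 2 - 4 * t) *
        ((J (8 * h) t (Icc 1 (Y : ℤ)) : ℝ) ^ 2 * (Y : ℝ) ^ (8 * h * (8 * h + 1))) *
        ((3 * (t : ℝ)) ^ (2 * (8 * h)) * (2 * (F : ℝ)) ^ (2 * h)) * G := by
        rw [hWpow]; ring
    _ ≤ (Y : ℝ) ^ (8 * t ^ 2 - 4 * t) *
        (C ^ (64 * (8 * h) ^ 5) * ((Y : ℝ) ^ (4 * t) * (Y : ℝ) ^ (1 / 8 : ℝ))) *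
        C ^ (3 * (8 * h) ^ 5) * G := by
        gcongr
    _ = (C ^ (64 * (8 * h) ^ 5) * C ^ (3 * (8 * h) ^ 5)) * G * (Y : ℝ) ^ (1 / 8 : ℝ) *
        ((Y : ℝ) ^ (8 * t ^ 2 - 4 * t) * (Y : ℝ) ^ (4 * t)) := by ring
    _ = _ := by
        rw [hYsplit, hYp, ← pow_add, hG]
        have : 64 * (8 * h) ^ 5 + 3 * (8 * h) ^ 5 = 67 * (8 * h) ^ 5 := by ring
        rw [this]
        ring

end Pool.Agent.Helper17.KW
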