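import Mathlib
import Pool.Agent.Helper17.KW.St.B3
import Pool.Agent.Helper17.KW.St.C1
import Pool.Agent.Helper17.KW.St.C2
import Pool.Agent.Helper17.KW.St.C3

/-!
# KW-C4: Korobov for one set of parameters

Proof.  Apply `shift_sum` with `N = p ^ q`, `Y = p ^ y`, `T` from `exists_exponent` (for `s`) and
`f k = e (d g ^ k / p ^ n)`.  For each `k`, `f (k + T x z) = e (d g ^ k (1 + p ^ s w) ^ (x z) / p ^ n)`, and
by `expansion` (with `D = 8 h`, `hn : n ≤ 8 h s`) this is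
`e (d') * e (∑_{j : Fin (8 h)} α j (x z) ^ (j + 1))`, `α j = d g ^ k κ (j + 1)`, up to an integer in the
exponent; here `d' = d g ^ k κ 0`.  (`p ∤ g`.)  The hypothesis of `double_sum_le` for
`4 h ≤ j + 1 < 6 h`: `(j + 1) s ≤ 6 h s ≤ n` because `8 h s < n + 8 h` and `s ≥ 4`.  So every inner
double sum `B` satisfies `‖B‖ ^ (4 t ^ 2) ≤ K * (p ^ y) ^ (8 t ^ 2)`, `t = (8 h) ^ 2 + (8 h) ^ 3`, with
`K = (16 (8 h) ^ 3) ^ (67 (8 h) ^ 5) p ^ (8 h ^ 2) p ^ (y / 8) / p ^ (2 h ^ 2 s) ≤ ε ^ (4 t ^ 2)`, hence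
`‖B‖ ≤ ε (p ^ y) ^ 2`.
-/

set_option autoImplicit false

open Finset

namespace Pool.Agent.Helper17.KW

private lemma C4_e_add (x y : ℝ) : e (x + y) = e x * e y := by
  unfold e
  rw [← Complex.exp_add]
  congr 1
  push_cast
  ring

private lemma C4_e_int (n : ℤ) : e n = 1 := by
  unfold e
  rw [Complex.exp_eq_one_iff]
  exact ⟨n, by push_cast; ring⟩

private lemma C4_norm_e (y : ℝ) : ‖e y‖ = 1 := by
  unfold e
  have : 2 * (Real.pi : ℂ) * y * Complex.I = ((2 * Real.pi * y : ℝ) : ℂ) * Complex.I := by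
    push_cast; ring
  rw [this, Complex.norm_exp_ofReal_mul_I]

theorem korobov_step (p g : ℕ) (hpg : (p = 2 ∧ g = 3) ∨ (p = 3 ∧ g = 2)) (q h s y n : ℕ)
    (hh : 1 ≤ h) (hs4 : 4 ≤ s) (hs : 8 * h ≤ s) (hsy : s ≤ y) (hn : n ≤ 8 * h * s)
    (hn' : 8 * h * s < n + 8 * h) (ε : ℝ) (hε : 0 < ε)
    (hK : (16 * (8 * h : ℝ) ^ 3) ^ (67 * (8 * h) ^ 5) * (p : ℝ) ^ (8 * h ^ 2) /
      (p : ℝ) ^ (2 * h ^ 2 * s) * (p : ℝ) ^ ((y : ℝ) / 8) ≤ ε ^ (4 * ((8 * h) ^ 2 + (8 * h) ^ 3) ^ 2))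
    (d : ℤ) (hd : ¬ (p : ℤ) ∣ d) :
    ‖∑ k ∈ range (p ^ q), e ((d : ℝ) * (g : ℝ) ^ k / (p : ℝ) ^ n)‖ ≤
      ε * (p : ℝ) ^ q + 2 * (p : ℝ) ^ (s + 2 * y) := by
  have hp2 : 2 ≤ p := by rcases hpg with ⟨h1, _⟩ | ⟨h1, _⟩ <;> omega
  have hpp : p.Prime := by
    rcases hpg with ⟨h1, _⟩ | ⟨h1, _⟩ <;> subst h1 <;> norm_num
  have hpZ : Prime (p : ℤ) := Nat.prime_iff_prime_int.mp hpp
  have hpgd : ¬ (p : ℤ) ∣ (g : ℤ) := by
    rcases hpg with ⟨h1, h2⟩ | ⟨h1, h2⟩ <;> subst h1 <;> subst h2 <;> norm_num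
  have hp0 : (0 : ℝ) < p := by exact_mod_cast (by omega : 0 < p)
  obtain ⟨T, w, hT1, hTs, hgT, hw⟩ := exists_exponent p g hpg s (by omega)
  obtain ⟨κ, hκ0, hκz, -, hκd⟩ := expansion p (8 * h) s n hpp w hw (by omega) hs
    (hn.trans (Nat.mul_le_mul_right _ (by omega)))
  have hY : 1 ≤ p ^ y := Nat.one_le_pow _ _ (by omega)
  have hYr : (0 : ℝ) < (p : ℝ) ^ y := by positivity
  have key : ∀ k : ℕ, ‖∑ x ∈ Icc 1 (p ^ y), ∑ z ∈ Icc 1 (p ^ y),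
      e ((d : ℝ) * (g : ℝ) ^ (k + T * (x * z)) / (p : ℝ) ^ n)‖ ≤ ε * ((p : ℝ) ^ y) ^ 2 := by
    intro k
    set D' : ℤ := d * (g : ℤ) ^ k with hD'
    have hD'p : ¬ (p : ℤ) ∣ D' := by
      intro hdv
      rcases hpZ.dvd_or_dvd hdv with h1 | h1
      · exact hd h1
      · exact hpgd (hpZ.dvd_of_dvd_pow h1)
    set α : Fin (8 * h) → ℚ := fun j => (D' : ℚ) * κ (j.1 + 1) with hα
    have hα' : ∀ j : Fin (8 * h), 4 * h ≤ j.1 + 1 → j.1 + 1 < 6 * h →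
        p ^ (n - (j.1 + 1) * s) ≤ (α j).den ∧
          (α j).den ≤ (8 * h).factorial * p ^ (n - (j.1 + 1) * s) := by
      intro j _ hj2
      have h1 : (j.1 + 1) * s ≤ n := by
        have h2 : (j.1 + 1) * s ≤ 6 * h * s := Nat.mul_le_mul_right _ hj2.le
        have h3 : 8 * h * 1 ≤ 2 * h * s := by nlinarith
        nlinarith
      exact hκd (j.1 + 1) (mem_Icc.2 ⟨by omega, by have := j.2; omega⟩) h1 D' hD'p
    have hterm : ∀ x z : ℕ, e ((d : ℝ) * (g : ℝ) ^ (k + T * (x * z)) / (p : ℝ) ^ n) =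
        e ((D' : ℝ) * ((κ 0 : ℚ) : ℝ)) *
          e (∑ j : Fin (8 * h), (α j : ℝ) * ((x : ℝ) * z) ^ (j.1 + 1)) := by
      intro x z
      obtain ⟨r, hr⟩ := hκz (x * z)
      have hgR : (g : ℝ) ^ T = 1 + (p : ℝ) ^ s * w := by exact_mod_cast congrArg (Int.cast : ℤ → ℝ) hgT
      have hrR : (1 + (p : ℝ) ^ s * w) ^ (x * z) / (p : ℝ) ^ n =
          (∑ j ∈ range (8 * h + 1), ((κ j : ℚ) : ℝ) * ((x * z : ℕ) : ℝ) ^ j) + r := by
        have := congrArg (Rat.cast : ℚ → ℝ) hr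
        push_cast at this ⊢
        exact this
      have h1 : (d : ℝ) * (g : ℝ) ^ (k + T * (x * z)) / (p : ℝ) ^ n =
          (D' : ℝ) * ((κ 0 : ℚ) : ℝ) +
            (∑ j : Fin (8 * h), (α j : ℝ) * ((x : ℝ) * z) ^ (j.1 + 1)) + ((D' * r : ℤ) : ℝ) := by
        rw [pow_add, pow_mul, hgR]
        have h2 : (d : ℝ) * ((g : ℝ) ^ k * (1 + (p : ℝ) ^ s * w) ^ (x * z)) / (p : ℝ) ^ n =
            (D' : ℝ) * ((1 + (p : ℝ) ^ s * w) ^ (x * z) / (p : ℝ) ^ n) := by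
          rw [hD']; push_cast; ring
        rw [h2, hrR, Finset.sum_range_succ', ← Fin.sum_univ_eq_sum_range
          (fun j => ((κ (j + 1) : ℚ) : ℝ) * ((x * z : ℕ) : ℝ) ^ (j + 1))]
        have h3 : ∑ j : Fin (8 * h), (α j : ℝ) * ((x : ℝ) * z) ^ (j.1 + 1) =
            (D' : ℝ) * ∑ j : Fin (8 * h), ((κ (j.1 + 1) : ℚ) : ℝ) * ((x * z : ℕ) : ℝ) ^ (j.1 + 1) := by
          rw [Finset.mul_sum]
          refine Finset.sum_congr rfl fun j _ => ?_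
          simp only [hα]
          push_cast
          ring
        rw [h3]
        push_cast
        ring
      rw [h1, C4_e_add, C4_e_int, mul_one, C4_e_add]
    have hds := double_sum_le p h s y n hp2 hh hsy hn hn' α hα'
    have hsum : ‖∑ x ∈ Icc 1 (p ^ y), ∑ z ∈ Icc 1 (p ^ y),
        e ((d : ℝ) * (g : ℝ) ^ (k + T * (x * z)) / (p : ℝ) ^ n)‖ =
        ‖∑ x ∈ Icc 1 (p ^ y), ∑ z ∈ Icc 1 (p ^ y),
          e (∑ j : Fin (8 * h), (α j : ℝ) * ((x : ℝ) * z) ^ (j.1 + 1))‖ := by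
      have : ∑ x ∈ Icc 1 (p ^ y), ∑ z ∈ Icc 1 (p ^ y),
          e ((d : ℝ) * (g : ℝ) ^ (k + T * (x * z)) / (p : ℝ) ^ n) =
          e ((D' : ℝ) * ((κ 0 : ℚ) : ℝ)) * ∑ x ∈ Icc 1 (p ^ y), ∑ z ∈ Icc 1 (p ^ y),
          e (∑ j : Fin (8 * h), (α j : ℝ) * ((x : ℝ) * z) ^ (j.1 + 1)) := by
        rw [Finset.mul_sum]
        refine Finset.sum_congr rfl fun x _ => ?_
        rw [Finset.mul_sum]
        exact Finset.sum_congr rfl fun z _ => hterm x z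
      rw [this, norm_mul, C4_norm_e, one_mul]
    rw [hsum]
    set t : ℕ := (8 * h) ^ 2 + (8 * h) ^ 3 with ht
    have ht0 : 4 * t ^ 2 ≠ 0 := by
      have : 0 < t := by positivity
      positivity
    refine le_of_pow_le_pow_left₀ ht0 (by positivity) (hds.trans ?_)
    have h5 : (ε * ((p : ℝ) ^ y) ^ 2) ^ (4 * t ^ 2) =
        ε ^ (4 * t ^ 2) * ((p : ℝ) ^ y) ^ (8 * t ^ 2) := by
      rw [mul_pow, ← pow_mul ((p : ℝ) ^ y)]
      congr 2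
      ring
    rw [h5]
    exact mul_le_mul_of_nonneg_right hK (by positivity)
  have hsh := shift_sum (p ^ q) T (p ^ y) (fun k => e ((d : ℝ) * (g : ℝ) ^ k / (p : ℝ) ^ n))
    (fun k => (C4_norm_e _).le) hY
  refine hsh.trans ?_
  have hsum2 : (∑ k ∈ range (p ^ q), ‖∑ x ∈ Icc 1 (p ^ y), ∑ z ∈ Icc 1 (p ^ y),
      e ((d : ℝ) * (g : ℝ) ^ (k + T * (x * z)) / (p : ℝ) ^ n)‖) ≤
      (p : ℝ) ^ q * (ε * ((p : ℝ) ^ y) ^ 2) := by
    refine (Finset.sum_le_sum fun k _ => key k).trans ?_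
    rw [Finset.sum_const, card_range, nsmul_eq_mul]
    push_cast
    exact le_rfl
  have hTr : (T : ℝ) ≤ (p : ℝ) ^ s := by exact_mod_cast hTs
  have hYc : ((p ^ y : ℕ) : ℝ) = (p : ℝ) ^ y := by push_cast; rfl
  rw [hYc]
  refine add_le_add ?_ ?_
  · rw [div_le_iff₀ (by positivity)]
    refine hsum2.trans (le_of_eq ?_)
    ring
  · have h6 : (p : ℝ) ^ (s + 2 * y) = (p : ℝ) ^ s * ((p : ℝ) ^ y) ^ 2 := by
      rw [pow_add, ← pow_mul, mul_comm y 2]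
    rw [h6]
    have h7 : (0 : ℝ) ≤ ((p : ℝ) ^ y) ^ 2 := by positivity
    nlinarith

end Pool.Agent.Helper17.KW
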