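import Mathlib
import Pool.Agent.Helper17.KW.St.C4

/-!
# KW-C5: the Korobov window

Proof.  Let `ε = η / 4` (we may assume `η ≤ 1`), `h = ⌈q ^ (1 / 10)⌉₊`.
Case `n ≤ q / 2`: `complete_sum` (with `exists_exponent` for `s = n - 1 ≥ 3`) gives
`≤ p ^ n ≤ p ^ (q / 2) ≤ η p ^ q` for large `q`.
Case `q / 2 < n ≤ q ^ (11 / 10)`: let `s = ⌈n / (8 h)⌉` (so `n ≤ 8 h s < n + 8 h`),
`y = (q - s) / 2 - c` (natural numbers), where `c` is a constant with `2 p ^ (- 2 c) ≤ η / 4`.  For large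
`q`: `n / (8 h) ≤ q / 8`, so `s ≤ q / 8 + 1`; `s ≥ q / (16 h) ≥ 8 h`, `s ≥ 4`; `y ≥ q / 4 ≥ s`, `y ≤ q / 2`; and
`2 p ^ (s + 2 y) ≤ 2 p ^ (q - 2 c) ≤ (η / 4) p ^ q`.  It remains to check `hK` of `korobov_step`:
`h ^ 2 s ≥ h q / 16`, so it is enough that
`67 (8 h) ^ 5 log (16 (8 h) ^ 3) + 8 h ^ 2 log p + (q / 16) log p + 4 t ^ 2 log (4 / η) ≤ (h q / 8) log p`,
`t = (8 h) ^ 2 + (8 h) ^ 3 ≤ 1024 h ^ 3`: since `h ^ 5 ≤ (2 q ^ (1 / 10)) ^ 5 = 32 q ^ (1 / 2)`,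
`h ^ 5 log h = O (q ^ (1 / 2) log q)` and `t ^ 2 = O (h ^ 6) = O (q ^ (6 / 10))`, everything on the left except
`(q / 16) log p` is `o (q)`, and the right side is at least `(q / 8) log p`.
-/

set_option autoImplicit false

open Finset

namespace Pool.Agent.Helper17.KW

/-- the numerical condition -/
lemma C5_cond (lp L h q s y u : ℝ) (hlp : 1 / 2 ≤ lp) (hL : 0 ≤ L) (hh : 1 ≤ h)
    (hu : 1 ≤ u) (hhu : h ≤ 2 * u) (hq : q = u ^ 10) (hsq : q ≤ 16 * h * s) (hy : y ≤ q / 2)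
    (hK : (16 : ℝ) ^ 9 * (2145 + 32 * L) ≤ u ^ 2) :
    67 * (8 * h) ^ 5 * Real.log (16 * (8 * h) ^ 3) + 8 * h ^ 2 * lp + y / 8 * lp +
      4 * ((8 * h) ^ 2 + (8 * h) ^ 3) ^ 2 * L ≤ 2 * h ^ 2 * s * lp := by
  have hlog : Real.log (16 * (8 * h) ^ 3) ≤ 16 * (8 * h) ^ 3 := by
    have := Real.log_le_sub_one_of_pos (x := 16 * (8 * h) ^ 3) (by positivity)
    linarith
  have h8 : (1 : ℝ) ≤ 8 * h := by linarith
  have hA0 : (0 : ℝ) ≤ (8 * h) ^ 8 := by positivity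
  have hA1 : 67 * (8 * h) ^ 5 * Real.log (16 * (8 * h) ^ 3) ≤ 1072 * (8 * h) ^ 8 := by
    calc 67 * (8 * h) ^ 5 * Real.log (16 * (8 * h) ^ 3)
        ≤ 67 * (8 * h) ^ 5 * (16 * (8 * h) ^ 3) := by gcongr
      _ = 1072 * (8 * h) ^ 8 := by ring
  have hA2 : 8 * h ^ 2 ≤ (8 * h) ^ 8 := by
    have h1 : (8 * h) ^ 2 ≤ (8 * h) ^ 8 := pow_le_pow_right₀ h8 (by norm_num)
    nlinarith [sq_nonneg h]
  have hA3 : ((8 * h) ^ 2 + (8 * h) ^ 3) ^ 2 ≤ 4 * (8 * h) ^ 8 := by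
    have h1 : (8 * h) ^ 2 ≤ (8 * h) ^ 3 := pow_le_pow_right₀ h8 (by norm_num)
    have h2 : (8 * h) ^ 6 ≤ (8 * h) ^ 8 := pow_le_pow_right₀ h8 (by norm_num)
    calc ((8 * h) ^ 2 + (8 * h) ^ 3) ^ 2 ≤ ((8 * h) ^ 3 + (8 * h) ^ 3) ^ 2 := by gcongr
      _ = 4 * (8 * h) ^ 6 := by ring
      _ ≤ 4 * (8 * h) ^ 8 := by gcongr
  have hA : (8 * h) ^ 8 ≤ 16 ^ 8 * u ^ 8 := by
    calc (8 * h) ^ 8 ≤ (8 * (2 * u)) ^ 8 := by gcongr
      _ = 16 ^ 8 * u ^ 8 := by ring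
  have hu8 : (0 : ℝ) ≤ u ^ 8 := by positivity
  -- the left side without the term with `y`
  have h1 : 67 * (8 * h) ^ 5 * Real.log (16 * (8 * h) ^ 3) + 8 * h ^ 2 * lp +
      4 * ((8 * h) ^ 2 + (8 * h) ^ 3) ^ 2 * L ≤ (16 ^ 8 * u ^ 8) * (1072 + lp + 16 * L) := by
    calc 67 * (8 * h) ^ 5 * Real.log (16 * (8 * h) ^ 3) + 8 * h ^ 2 * lp +
        4 * ((8 * h) ^ 2 + (8 * h) ^ 3) ^ 2 * L
        ≤ 1072 * (8 * h) ^ 8 + (8 * h) ^ 8 * lp + 4 * (4 * (8 * h) ^ 8) * L := by gcongr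
      _ = (8 * h) ^ 8 * (1072 + lp + 16 * L) := by ring
      _ ≤ (16 ^ 8 * u ^ 8) * (1072 + lp + 16 * L) := by gcongr
  have h2 : (1072 + lp + 16 * L) ≤ (2145 + 32 * L) * lp := by nlinarith
  have h3 : (16 ^ 8 * u ^ 8) * (1072 + lp + 16 * L) ≤ q / 16 * lp := by
    calc (16 ^ 8 * u ^ 8) * (1072 + lp + 16 * L) ≤ (16 ^ 8 * u ^ 8) * ((2145 + 32 * L) * lp) := by
          gcongr
      _ = u ^ 8 * (16 ^ 9 * (2145 + 32 * L)) * lp / 16 := by ring
      _ ≤ u ^ 8 * u ^ 2 * lp / 16 := by gcongr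
      _ = q / 16 * lp := by rw [hq]; ring
  have h4 : y / 8 * lp ≤ q / 16 * lp := by
    have : y / 8 ≤ q / 16 := by linarith
    gcongr
  have hq0 : 0 ≤ q := by rw [hq]; positivity
  have h5 : q / 8 ≤ 2 * h ^ 2 * s := by
    have : q / 8 * 1 ≤ (2 * h * s) * h := by
      have h6 : q / 8 ≤ 2 * h * s := by linarith
      exact mul_le_mul h6 hh (by norm_num) (by linarith)
    nlinarith
  have h6 : q / 8 * lp ≤ 2 * h ^ 2 * s * lp := by gcongr
  linarith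

theorem korobov (p g : ℕ) (hpg : (p = 2 ∧ g = 3) ∨ (p = 3 ∧ g = 2)) (η : ℝ) (hη : 0 < η) :
    ∃ q₀ : ℕ, ∀ q : ℕ, q₀ ≤ q → ∀ n : ℕ, 4 ≤ n → (n : ℝ) ≤ (q : ℝ) ^ (11 / 10 : ℝ) →
      ∀ d : ℤ, ¬ (p : ℤ) ∣ d →
        ‖∑ k ∈ range (p ^ q), e ((d : ℝ) * (g : ℝ) ^ k / (p : ℝ) ^ n)‖ ≤ η * (p : ℝ) ^ q := by
  have hp : p.Prime := by
    rcases hpg with ⟨rfl, -⟩ | ⟨rfl, -⟩
    · exact Nat.prime_two
    · exact Nat.prime_three
  have hp2 : (2 : ℝ) ≤ p := by exact_mod_cast hp.two_le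
  have hp3 : (p : ℝ) ≤ 3 := by
    rcases hpg with ⟨rfl, -⟩ | ⟨rfl, -⟩ <;> norm_num
  have hp0 : (0 : ℝ) < p := by linarith
  have hlp : 1 / 2 ≤ Real.log p := by
    have h1 := Real.log_two_gt_d9
    have h2 : Real.log 2 ≤ Real.log p := Real.log_le_log (by norm_num) hp2
    linarith
  set ε : ℝ := min η 1 / 4 with hε
  have hε0 : 0 < ε := by rw [hε]; positivity
  have hε1 : ε ≤ η / 4 := by
    have := min_le_left η 1
    rw [hε]; linarith
  have hε2 : ε ≤ 1 := by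
    have := min_le_right η 1
    rw [hε]; linarith
  set L : ℝ := - Real.log ε with hL
  have hL0 : 0 ≤ L := by
    have := Real.log_nonpos hε0.le hε2
    rw [hL]; linarith
  obtain ⟨c, hc⟩ := pow_unbounded_of_one_lt (8 / η) (show (1 : ℝ) < 2 by norm_num)
  obtain ⟨K, hK⟩ := exists_nat_ge ((16 : ℝ) ^ 9 * (2145 + 32 * L))
  refine ⟨K ^ 5 + 3 ^ 10 + 4 * c + 6, fun q hq n hn hnq d hd => ?_⟩
  have hq1 : K ^ 5 ≤ q := by omega
  have hq2 : 3 ^ 10 ≤ q := by omega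
  have hq3 : 4 * c + 6 ≤ q := by omega
  have hη2 : 8 / η ≤ (p : ℝ) ^ c :=
    hc.le.trans (pow_le_pow_left₀ (by norm_num) hp2 c)
  have hη3 : 8 ≤ (p : ℝ) ^ c * η := by
    rwa [div_le_iff₀ hη] at hη2
  rcases le_or_gt (2 * n) q with hcase | hcase
  · obtain ⟨T, w, hT1, hT2, hgT, hw⟩ := exists_exponent p g hpg (n - 1) (by omega)
    have h1 := complete_sum p g n T w d hp (by omega) hT1 hT2 hgT hw hd (p ^ q)
    refine h1.trans ?_
    have h2 : (p : ℝ) ^ n * (p : ℝ) ^ c ≤ (p : ℝ) ^ q := by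
      rw [← pow_add]
      exact pow_le_pow_right₀ (by linarith) (by omega)
    have h3 : 0 < (p : ℝ) ^ n := by positivity
    nlinarith
  · set u : ℝ := (q : ℝ) ^ (1 / 10 : ℝ) with hu
    have hq0 : (0 : ℝ) ≤ q := Nat.cast_nonneg q
    have hu10 : u ^ 10 = q := by
      rw [hu, ← Real.rpow_natCast, ← Real.rpow_mul hq0]
      norm_num
    have hu0 : 0 ≤ u := by rw [hu]; positivity
    have hu3 : 3 ≤ u := by
      have h1 : (3 : ℝ) ^ 10 ≤ u ^ 10 := by rw [hu10]; exact_mod_cast hq2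
      exact le_of_pow_le_pow_left₀ (by norm_num) hu0 h1
    have huK : (K : ℝ) ≤ u ^ 2 := by
      have h1 : (K : ℝ) ^ 5 ≤ (u ^ 2) ^ 5 := by
        rw [← pow_mul, hu10]; exact_mod_cast hq1
      exact le_of_pow_le_pow_left₀ (by norm_num) (by positivity) h1
    set h : ℕ := ⌈u⌉₊ with hh
    have hhu : u ≤ h := Nat.le_ceil u
    have hhu2 : (h : ℝ) ≤ 2 * u := by
      have := Nat.ceil_lt_add_one hu0
      rw [← hh] at this
      linarith
    have hh1 : 1 ≤ h := by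
      have : (1 : ℝ) ≤ h := by linarith
      exact_mod_cast this
    have hnqh : n ≤ q * h := by
      have h1 : (q : ℝ) ^ (11 / 10 : ℝ) = q * u := by
        rw [hu, show (11 / 10 : ℝ) = 1 + 1 / 10 by norm_num, Real.rpow_add (by positivity),
          Real.rpow_one]
      have h2 : (n : ℝ) ≤ q * h := by
        rw [h1] at hnq
        exact hnq.trans (mul_le_mul_of_nonneg_left hhu hq0)
      exact_mod_cast h2
    have h128 : 128 * h ^ 2 ≤ q := by
      have h1 : (128 : ℝ) * h ^ 2 ≤ q := by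
        calc (128 : ℝ) * h ^ 2 ≤ 128 * (2 * u) ^ 2 := by gcongr
          _ = 512 * u ^ 2 := by ring
          _ ≤ u ^ 8 * u ^ 2 := by
            have : (512 : ℝ) ≤ u ^ 8 := by
              calc (512 : ℝ) ≤ 3 ^ 8 := by norm_num
                _ ≤ u ^ 8 := by gcongr
            gcongr
          _ = q := by rw [← hu10]; ring
      exact_mod_cast h1
    set s : ℕ := (n + (8 * h - 1)) / (8 * h) with hs
    have h8h : 0 < 8 * h := by omega
    have hs1 : 8 * h * s ≤ n + (8 * h - 1) := by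
      rw [hs]; exact Nat.mul_div_le _ _
    have hs2 : n ≤ 8 * h * s := by
      have h1 := Nat.lt_mul_div_succ (n + (8 * h - 1)) h8h
      rw [← hs] at h1
      have h2 : 8 * h * (s + 1) = 8 * h * s + 8 * h := by ring
      omega
    have hs3 : 8 * s ≤ q + 7 := by
      by_contra hcon
      push Not at hcon
      have h1 : h * (q + 8) ≤ h * (8 * s) := Nat.mul_le_mul_left h (by omega)
      have h2 : h * (8 * s) = 8 * h * s := by ring
      have h3 : h * (q + 8) = q * h + 8 * h := by ring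
      omega
    have hs4 : 8 * h ≤ s := by
      by_contra hcon
      push Not at hcon
      have h1 : 16 * h * s ≤ 16 * h * (8 * h) := Nat.mul_le_mul_left _ hcon.le
      have h2 : 16 * h * (8 * h) = 128 * h ^ 2 := by ring
      have h3 : 16 * h * s = 2 * (8 * h * s) := by ring
      omega
    set y : ℕ := (q - s - 2 * c) / 2 with hy
    have hy1 : s ≤ y := by omega
    have hy2 : s + 2 * y ≤ q - 2 * c := by omega
    have hy3 : 2 * y ≤ q := by omega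
    have key := korobov_step p g hpg q h s y n hh1 (by omega) hs4 hy1 hs2 (by omega) ε hε0 ?_ d hd
    · refine key.trans ?_
      have h1 : (p : ℝ) ^ (s + 2 * y) * (p : ℝ) ^ c ≤ (p : ℝ) ^ q := by
        rw [← pow_add]
        exact pow_le_pow_right₀ (by linarith) (by omega)
      have h2 : 0 < (p : ℝ) ^ (s + 2 * y) := by positivity
      have h3 : 0 < (p : ℝ) ^ q := by positivity
      have h4 : 8 * (p : ℝ) ^ (s + 2 * y) ≤ η * (p : ℝ) ^ q := by
        calc 8 * (p : ℝ) ^ (s + 2 * y) ≤ ((p : ℝ) ^ c * η) * (p : ℝ) ^ (s + 2 * y) := by gcongr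
          _ = η * ((p : ℝ) ^ (s + 2 * y) * (p : ℝ) ^ c) := by ring
          _ ≤ η * (p : ℝ) ^ q := by gcongr
      nlinarith
    · have hcond := C5_cond (Real.log p) L h q s y u hlp hL0 (by exact_mod_cast hh1)
        (by linarith) hhu2 hu10.symm (by
          have : q ≤ 16 * h * s := by
            have h3 : 16 * h * s = 2 * (8 * h * s) := by ring
            omega
          exact_mod_cast this) (by
          have : (2 * y : ℝ) ≤ q := by exact_mod_cast hy3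
          linarith) (hK.trans huK)
      have hh0 : (0 : ℝ) < h := by exact_mod_cast hh1
      rw [← Real.log_le_log_iff (by positivity) (by positivity), Real.log_mul (by positivity)
        (by positivity), Real.log_div (by positivity) (by positivity), Real.log_mul (by positivity)
        (by positivity), Real.log_pow, Real.log_pow, Real.log_pow, Real.log_pow,
        Real.log_rpow hp0]
      push_cast
      rw [hL] at hcond
      linarith

end Pool.Agent.Helper17.KW
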