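import Mathlib
import Pool.Agent.Helper61.FR.Defs
import Pool.Agent.Helper17.KW.St.C5
import Pool.Agent.Helper17.KW.St.F2

/-!
# KW-F3: two typical points do not differ by an odd multiple of `2 ^ (- n')`, `n' ≤ q ^ (11 / 10)`

Proof.  Take `S`, `η`, `n₁` from `window_of_sums`, `q₀` from `korobov 2 3` for this `η`, and increase
`n₁` so that `n₁ ≥ 4 + v₂ (m)` for all `m ∈ S`.  For `m ∈ S` write `m = 2 ^ v m'` with `m'` odd; then
`m * (d 3 ^ k / 2 ^ n') = (m' d) 3 ^ k / 2 ^ (n' - v)` with `m' d` odd and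
`4 ≤ n' - v ≤ n' ≤ q ^ (11 / 10)`, so `korobov` gives the bound of the sum
(`Pool.Agent.Helper61.FR.e` and `Pool.Agent.Helper17.KW.e` are the same function, by `rfl`).
-/

set_option autoImplicit false

open MeasureTheory Finset

namespace Pool.Agent.Helper17.KW

open Pool.Agent.Helper61.FR in
theorem window (r : ℕ) (U : Finset ℕ) (hU : 48 * U.card ^ 2 < 2 ^ r) :
    ∃ q₀ n₁ : ℕ, 1 ≤ n₁ ∧ ∀ q, q₀ ≤ q → ∀ (n' : ℕ) (d : ℤ) (τ x : ℝ), n₁ ≤ n' →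
      (n' : ℝ) ≤ (q : ℝ) ^ (11 / 10 : ℝ) → Odd d → |τ| * 3 ^ (2 ^ q) * 2 ^ n' ≤ 1 →
        7 * 2 ^ q ≤ 8 * cnt 1 (2 ^ q) (nbhd r U) x →
        7 * 2 ^ q ≤ 8 * cnt 1 (2 ^ q) (nbhd r U) (x + d / 2 ^ n' + τ) → False := by
  obtain ⟨S, η, n₂, hη, hS, hw⟩ := window_of_sums r U hU
  obtain ⟨q₀, hq₀⟩ := korobov 2 3 (Or.inl ⟨rfl, rfl⟩) η hη
  refine ⟨q₀, n₂ + 4 + S.sup id, by omega, fun q hq n' d τ x hn hnq hd hτ h1 h2 => ?_⟩
  refine hw q n' d τ x (by omega) hτ (fun m hm => ?_) h1 h2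
  have hm1 : 1 ≤ m := hS m hm
  obtain ⟨v, m', hm', hmv⟩ := Nat.exists_eq_two_pow_mul_odd (n := m) (by omega)
  have hm'1 : 1 ≤ m' := hm'.pos
  have hvm : v ≤ m := by
    have h3 : v < 2 ^ v := Nat.lt_two_pow_self
    have h4 : 2 ^ v ≤ m := by
      rw [hmv]; exact Nat.le_mul_of_pos_right _ hm'1
    omega
  have hms : m ≤ S.sup id := Finset.le_sup (f := id) hm
  have hv : v + 4 ≤ n' := by omega
  have hnd : ¬ ((2 : ℕ) : ℤ) ∣ ((m' : ℤ) * d) := by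
    have h3 : Odd ((m' : ℤ) * d) := by
      refine Odd.mul ?_ hd
      exact_mod_cast hm'
    intro h4
    have h5 : (2 : ℤ) ∣ ((m' : ℤ) * d) := by exact_mod_cast h4
    exact (Int.not_even_iff_odd.mpr h3) (even_iff_two_dvd.mpr h5)
  have hnle : ((n' - v : ℕ) : ℝ) ≤ (q : ℝ) ^ (11 / 10 : ℝ) := by
    refine le_trans ?_ hnq
    exact_mod_cast Nat.sub_le n' v
  have key := hq₀ q hq (n' - v) (by omega) hnle ((m' : ℤ) * d) hnd
  have hterm : ∀ k : ℕ, ((m : ℕ) : ℝ) * ((d : ℝ) * 3 ^ k / 2 ^ n') =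
      (((m' : ℤ) * d : ℤ) : ℝ) * ((3 : ℕ) : ℝ) ^ k / ((2 : ℕ) : ℝ) ^ (n' - v) := by
    intro k
    have h3 : (2 : ℝ) ^ n' = 2 ^ (n' - v) * 2 ^ v := by
      rw [← pow_add]; congr 1; omega
    have h4 : (2 : ℝ) ^ v ≠ 0 := by positivity
    have h5 : (2 : ℝ) ^ (n' - v) ≠ 0 := by positivity
    have h6 : (m : ℝ) = 2 ^ v * m' := by
      rw [hmv]; push_cast; ring
    rw [h3, h6]
    push_cast
    field_simp
  have hsum : ∑ k ∈ range (2 ^ q), Pool.Agent.Helper61.FR.e (m * (d * 3 ^ k / 2 ^ n')) =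
      ∑ k ∈ range (2 ^ q), Pool.Agent.Helper17.KW.e
        ((((m' : ℤ) * d : ℤ) : ℝ) * ((3 : ℕ) : ℝ) ^ k / ((2 : ℕ) : ℝ) ^ (n' - v)) := by
    refine Finset.sum_congr rfl fun k _ => ?_
    rw [hterm k]
    rfl
  rw [hsum]
  exact_mod_cast key

end Pool.Agent.Helper17.KW
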